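import Pool.Agent.Helper331_ugw.Block

set_option autoImplicit false
set_option linter.deprecated false
set_option linter.unusedSectionVars false

open Filter Topology Finset MeasureTheory

namespace Pool.Agent.Helper331_ugw

/-- Expected sum over the edges at the root. -/
noncomputable def II (r q : Measure ℕ) [IsProbabilityMeasure r] [IsProbabilityMeasure q]
    (F : (List ℕ → ℕ) → (List ℕ → ℕ) → ENNReal) : ENNReal :=
  ∫⁻ t, ∑ i ∈ range (t []), F (sub t i) (rem t i) ∂(Law r q)

open scoped Classical in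
/-- Restriction of a flow to edges inside a block satisfying a condition. -/
noncomputable def FJ (g : (List ℕ → ℕ) → ℝ) (J : (List ℕ → ℕ) → (List ℕ → ℕ) → Prop)
    (F : (List ℕ → ℕ) → (List ℕ → ℕ) → ENNReal) (t t' : List ℕ → ℕ) : ENNReal :=
  if g t * g t' = 1 ∧ J t t' then F t t' else 0

section

variable (r q : Measure ℕ) [IsProbabilityMeasure r] [IsProbabilityMeasure q]

lemma swap_half {D : ℕ} (hr : r (Set.Ioi D) = 0) (hq : q (Set.Ioi D) = 0) (m : ENNReal)
    (hrq : ∀ k : ℕ, ((k : ENNReal) + 1) * r {k + 1} = m * q {k})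
    {F G : (List ℕ → ℕ) → (List ℕ → ℕ) → ENNReal}
    (hF : Measurable (Function.uncurry F))
    (h : ∀ t t', Bdd D t → Bdd D t' → F t t' + F t' t = G t t') :
    2 * II r q F = II r q G := by
  have h1 : II r q F = ∫⁻ t, ∑ i ∈ range (t []), F (rem t i) (sub t i) ∂(Law r q) :=
    edge_swap r q m hrq F hF
  rw [two_mul]
  nth_rewrite 2 [h1]
  unfold II
  rw [← lintegral_add_left (measurable_sum_pair hF)]
  apply lintegral_congr_ae
  filter_upwards [ae_Bdd hr hq] with t ht
  rw [← sum_add_distrib]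
  apply sum_congr rfl
  intro i _
  exact h _ _ (ht.sub i) (ht.rem i)

end

section

variable {D : ℕ} {lam : ℝ} {a τ : (List ℕ → ℕ) → ENNReal} {g : (List ℕ → ℕ) → ℝ}
  (R : Rules D lam a τ g)
include R

lemma measurable_FJ {J : (List ℕ → ℕ) → (List ℕ → ℕ) → Prop}
    (hJ : MeasurableSet {p : (List ℕ → ℕ) × (List ℕ → ℕ) | J p.1 p.2})
    {F : (List ℕ → ℕ) → (List ℕ → ℕ) → ENNReal} (hF : Measurable (Function.uncurry F)) :
    Measurable (Function.uncurry (FJ g J F)) := by
  classical
  unfold FJ Function.uncurry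
  apply Measurable.ite _ hF measurable_const
  apply MeasurableSet.inter _ hJ
  exact measurableSet_eq_fun ((R.mg.comp measurable_fst).mul (R.mg.comp measurable_snd))
    measurable_const

/-- The two flows have the same total. -/
lemma flows_eq (r q : Measure ℕ) [IsProbabilityMeasure r] [IsProbabilityMeasure q]
    (hr : r (Set.Ioi D) = 0) (hq : q (Set.Ioi D) = 0) (m : ENNReal)
    (hrq : ∀ k : ℕ, ((k : ENNReal) + 1) * r {k + 1} = m * q {k})
    (J : (List ℕ → ℕ) → (List ℕ → ℕ) → Prop) (hJs : ∀ t t', J t t' ↔ J t' t)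
    (hJ : MeasurableSet {p : (List ℕ → ℕ) × (List ℕ → ℕ) | J p.1 p.2}) :
    II r q (FJ g J (XX τ)) = II r q (FJ g J (YY g)) := by
  classical
  have h1 := swap_half r q hr hq m hrq (F := FJ g J (XX τ)) (G := FJ g J (fun _ _ => 1))
    (measurable_FJ R hJ (measurable_XX R.mt)) (by
      intro t t' ht ht'
      unfold FJ
      have e : (g t' * g t = 1 ∧ J t' t) ↔ (g t * g t' = 1 ∧ J t t') := by
        rw [mul_comm, hJs]
      simp only [e]
      split_ifs with h
      · exact flow_ZZ R (ht []) (ht' []) h.1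
      · simp)
  have h2 := swap_half r q hr hq m hrq (F := FJ g J (YY g)) (G := FJ g J (fun _ _ => 1))
    (measurable_FJ R hJ (measurable_YY R.mg)) (by
      intro t t' ht ht'
      unfold FJ
      have e : (g t' * g t = 1 ∧ J t' t) ↔ (g t * g t' = 1 ∧ J t t') := by
        rw [mul_comm, hJs]
      simp only [e]
      split_ifs with h
      · exact YY_add g t t'
      · simp)
  have h3 : 2 * II r q (FJ g J (XX τ)) = 2 * II r q (FJ g J (YY g)) := by rw [h1, h2]
  exact (ENNReal.mul_right_inj two_ne_zero ENNReal.ofNat_ne_top).1 h3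

omit R in
lemma measurableSet_Jtrue :
    MeasurableSet {p : (List ℕ → ℕ) × (List ℕ → ℕ) | True} := by
  simp

lemma measurableSet_Jtop :
    MeasurableSet {p : (List ℕ → ℕ) × (List ℕ → ℕ) | nC g p.1 + nC g p.2 = ⊤} := by
  have h1 : Measurable (fun p : (List ℕ → ℕ) × (List ℕ → ℕ) => nC g p.1 + nC g p.2) :=
    ((measurable_nC R.mg).comp measurable_fst).add ((measurable_nC R.mg).comp measurable_snd)
  exact h1 (measurableSet_singleton _)

omit R in
lemma measurableSet_Z {a : (List ℕ → ℕ) → ENNReal} (ha : Measurable a) :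
    MeasurableSet {t | a t ≠ 0} := ha (measurableSet_singleton 0).compl

/-- No infinite blocks carry mass. -/
theorem infinite_null (r q : Measure ℕ) [IsProbabilityMeasure r] [IsProbabilityMeasure q]
    (hr : r (Set.Ioi D) = 0) (hq : q (Set.Ioi D) = 0) (m : ENNReal)
    (hrq : ∀ k : ℕ, ((k : ENNReal) + 1) * r {k + 1} = m * q {k}) :
    ∀ᵐ t ∂(Law r q), ¬ (a t ≠ 0 ∧ nC g t = ⊤) := by
  classical
  set J : (List ℕ → ℕ) → (List ℕ → ℕ) → Prop := fun t t' => nC g t + nC g t' = ⊤ with hJdef
  have hJ := measurableSet_Jtop R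
  have hflow := flows_eq R r q hr hq m hrq J (fun t t' => by simp only [hJdef]; rw [add_comm]) hJ
  set Zs : Set (List ℕ → ℕ) := {t | a t ≠ 0 ∧ nC g t = ⊤} with hZs
  have hZm : MeasurableSet Zs :=
    (measurableSet_Z R.ma).inter (measurable_nC R.mg (measurableSet_singleton _))
  -- pointwise: a + flow ≤ 1_Z
  have h1 : ∫⁻ t, Zs.indicator a t ∂(Law r q) + II r q (FJ g J (XX τ)) ≤ Law r q Zs := by
    unfold II
    rw [← lintegral_add_right _ (measurable_sum_pair (measurable_FJ R hJ (measurable_XX R.mt))),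
      ← lintegral_indicator_one hZm]
    apply lintegral_mono_ae
    filter_upwards [ae_Bdd hr hq] with t ht
    by_cases hZ : t ∈ Zs
    · rw [Set.indicator_of_mem hZ, Set.indicator_of_mem hZ]
      have h2 := flow_Z R (ht []) hZ.1
      rw [Pi.one_apply, ← h2]
      gcongr with i hi
      unfold FJ
      split_ifs
      · exact le_refl _
      · exact bot_le
    · rw [Set.indicator_of_notMem hZ, Set.indicator_of_notMem hZ, zero_add]
      apply le_of_eq
      apply sum_eq_zero
      intro i hi
      rw [mem_range] at hi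
      unfold FJ
      rw [if_neg]
      rintro ⟨h3, h4⟩
      apply hZ
      obtain ⟨h5, h6⟩ := (lem_zz R (ht []) hi).1 h3
      refine ⟨h5, ?_⟩
      simp only [hJdef] at h4
      rw [nC_rem g t i hi h6] at h4
      exact h4
  have h2 : Law r q Zs ≤ II r q (FJ g J (YY g)) := by
    unfold II
    rw [← lintegral_indicator_one hZm]
    apply lintegral_mono_ae
    filter_upwards [ae_Bdd hr hq] with t ht
    by_cases hZ : t ∈ Zs
    · rw [Set.indicator_of_mem hZ, Pi.one_apply]
      have h3 := flow_Y g t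
      rw [hZ.2, ENNReal.inv_top, add_zero] at h3
      refine h3.trans ?_
      gcongr with i hi
      rw [mem_range] at hi
      unfold FJ
      split_ifs with h4 h5
      · exact le_refl _
      · exfalso
        apply h5
        refine ⟨(lem_zz R (ht []) hi).2 ⟨hZ.1, h4⟩, ?_⟩
        simp only [hJdef]
        rw [nC_rem g t i hi h4]
        exact hZ.2
      · exact bot_le
      · exact le_refl _
    · rw [Set.indicator_of_notMem hZ]
      exact bot_le
  rw [← hflow] at h2
  have h3 : II r q (FJ g J (XX τ)) ≠ ⊤ := by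
    apply ne_top_of_le_ne_top (measure_ne_top (Law r q) Zs)
    exact le_add_self.trans h1
  have h4 : ∫⁻ t, Zs.indicator a t ∂(Law r q) = 0 := by
    have h5 := h1.trans h2
    have h6 : ∫⁻ t, Zs.indicator a t ∂(Law r q) + II r q (FJ g J (XX τ))
        ≤ 0 + II r q (FJ g J (XX τ)) := by rwa [zero_add]
    exact le_antisymm (ENNReal.le_of_add_le_add_right h3 h6) bot_le
  rw [lintegral_eq_zero_iff (R.ma.indicator hZm)] at h4
  filter_upwards [h4] with t ht hcon
  have : Zs.indicator a t = a t := Set.indicator_of_mem (show t ∈ Zs from hcon) a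
  rw [Pi.zero_apply, this] at ht
  exact hcon.1 ht

/-- The set of separators. -/
def SS (a : (List ℕ → ℕ) → ENNReal) : Set (List ℕ → ℕ) :=
  {t | ∃ i < t [], ∃ j < t [], i ≠ j ∧ a (sub t i) ≠ 0 ∧ a (sub t j) ≠ 0}

omit R in
lemma measurableSet_SS {a : (List ℕ → ℕ) → ENNReal} (ha : Measurable a) :
    MeasurableSet (SS a) := by
  have e : SS a = ⋃ i : ℕ, ⋃ j : ℕ, {t : List ℕ → ℕ | i < t [] ∧ j < t [] ∧ i ≠ j ∧
      a (sub t i) ≠ 0 ∧ a (sub t j) ≠ 0} := by
    ext t
    simp only [SS, Set.mem_setOf_eq, Set.mem_iUnion]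
    constructor
    · rintro ⟨i, hi, j, hj, h1, h2, h3⟩; exact ⟨i, j, hi, hj, h1, h2, h3⟩
    · rintro ⟨i, j, hi, hj, h1, h2, h3⟩; exact ⟨i, hi, j, hj, h1, h2, h3⟩
  rw [e]
  apply MeasurableSet.iUnion; intro i
  apply MeasurableSet.iUnion; intro j
  apply MeasurableSet.inter (measurableSet_lt measurable_const (measurable_pi_apply _))
  apply MeasurableSet.inter (measurableSet_lt measurable_const (measurable_pi_apply _))
  apply MeasurableSet.inter (MeasurableSet.const _)
  exact ((ha.comp (measurable_sub i)) (measurableSet_singleton 0).compl).inter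
    ((ha.comp (measurable_sub j)) (measurableSet_singleton 0).compl)

open scoped Classical in
/-- The flow out of a block into separators. -/
noncomputable def F3 (a τ : (List ℕ → ℕ) → ENNReal) (g : (List ℕ → ℕ) → ℝ)
    (t t' : List ℕ → ℕ) : ENNReal :=
  if τ t ≠ ⊤ ∧ g t = 0 ∧ a t' ≠ 0 then XX τ t t' else 0

lemma measurable_F3 : Measurable (Function.uncurry (F3 a τ g)) := by
  classical
  unfold F3 Function.uncurry
  apply Measurable.ite _ (measurable_XX R.mt) measurable_const
  apply MeasurableSet.inter ((R.mt.comp measurable_fst) (measurableSet_singleton _).compl)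
  apply MeasurableSet.inter ((R.mg.comp measurable_fst) (measurableSet_singleton _))
  exact (R.ma.comp measurable_snd) (measurableSet_singleton _).compl

/-- Total flow into separators. -/
lemma II_F3 (r q : Measure ℕ) [IsProbabilityMeasure r] [IsProbabilityMeasure q]
    (hr : r (Set.Ioi D) = 0) (hq : q (Set.Ioi D) = 0) (m : ENNReal)
    (hrq : ∀ k : ℕ, ((k : ENNReal) + 1) * r {k + 1} = m * q {k}) :
    II r q (F3 a τ g) = Law r q (SS a) := by
  classical
  have h1 : II r q (F3 a τ g)
      = ∫⁻ t, ∑ i ∈ range (t []), (F3 a τ g) (rem t i) (sub t i) ∂(Law r q) :=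
    edge_swap r q m hrq _ (measurable_F3 R)
  rw [h1, ← lintegral_indicator_one (measurableSet_SS R.ma)]
  apply lintegral_congr_ae
  filter_upwards [ae_Bdd hr hq] with t ht
  by_cases hS : t ∈ SS a
  · rw [Set.indicator_of_mem hS, Pi.one_apply]
    obtain ⟨i₀, hi₀, j₀, hj₀, hne, hi, hj⟩ := hS
    rw [← flow_S R ht hi₀ hj₀ hne hi hj]
    apply sum_congr rfl
    intro i hir
    rw [mem_range] at hir
    unfold F3
    by_cases h : a (sub t i) = 0
    · simp [h]
    · rw [if_pos h, if_pos]
      have hex : ∃ j < t [], j ≠ i ∧ a (sub t j) ≠ 0 := by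
        by_cases h0 : i₀ = i
        · exact ⟨j₀, hj₀, by rw [← h0]; exact hne.symm, hj⟩
        · exact ⟨i₀, hi₀, h0, hi⟩
      obtain ⟨k1, k2⟩ := (lem_sz R (ht []) hir).2 hex
      exact ⟨k1, k2, h⟩
  · rw [Set.indicator_of_notMem hS]
    apply sum_eq_zero
    intro i hir
    rw [mem_range] at hir
    unfold F3
    rw [if_neg]
    rintro ⟨h2, h3, h4⟩
    obtain ⟨j, hj, hji, h5⟩ := (lem_sz R (ht []) hir).1 ⟨h2, h3⟩
    exact hS ⟨i, hir, j, hj, hji.symm, h4, h5⟩

/-- The basic pointwise identity: mass plus flows is the indicator. -/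
lemma pointwise_Z {t : List ℕ → ℕ} (ht : Bdd D t) :
    a t + (∑ i ∈ range (t []), FJ g (fun _ _ => True) (XX τ) (sub t i) (rem t i)
      + ∑ i ∈ range (t []), F3 a τ g (sub t i) (rem t i)) = {t | a t ≠ 0}.indicator 1 t := by
  classical
  rw [← sum_add_distrib]
  by_cases h : a t = 0
  · rw [Set.indicator_of_notMem (by simpa using h), h, zero_add]
    apply sum_eq_zero
    intro i hi
    rw [mem_range] at hi
    unfold FJ F3
    rw [if_neg, if_neg, add_zero]
    · intro h1
      exact ((lem_zs R (ht []) hi).1 h1).1 h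
    · rintro ⟨h1, _⟩
      exact ((lem_zz R (ht []) hi).1 h1).1 h
  · rw [Set.indicator_of_mem (show t ∈ {t | a t ≠ 0} from h), Pi.one_apply,
      ← flow_Z R (ht []) h]
    congr 1
    apply sum_congr rfl
    intro i hi
    rw [mem_range] at hi
    unfold FJ F3
    by_cases hg : g (sub t i) = 0
    · rw [if_neg, if_pos, zero_add]
      · exact (lem_zs R (ht []) hi).2 ⟨h, hg⟩
      · rintro ⟨h1, _⟩
        exact ((lem_zz R (ht []) hi).1 h1).2 hg
    · rw [if_pos, if_neg, add_zero]
      · rintro ⟨_, h1, _⟩; exact hg h1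
      · exact ⟨(lem_zz R (ht []) hi).2 ⟨h, hg⟩, trivial⟩

/-- Mass equals density of block vertices minus flows. -/
lemma integral_Z (r q : Measure ℕ) [IsProbabilityMeasure r] [IsProbabilityMeasure q]
    (hr : r (Set.Ioi D) = 0) (hq : q (Set.Ioi D) = 0) (m : ENNReal)
    (hrq : ∀ k : ℕ, ((k : ENNReal) + 1) * r {k + 1} = m * q {k}) :
    ∫⁻ t, a t ∂(Law r q) + (II r q (FJ g (fun _ _ => True) (XX τ)) + Law r q (SS a))
      = Law r q {t | a t ≠ 0} := by
  rw [← II_F3 R r q hr hq m hrq]
  unfold II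
  have hm1 := measurable_sum_pair (measurable_FJ R (J := fun _ _ => True) measurableSet_Jtrue (measurable_XX R.mt))
  rw [← lintegral_add_left hm1, ← lintegral_add_left R.ma,
    ← lintegral_indicator_one (measurableSet_Z R.ma)]
  apply lintegral_congr_ae
  filter_upwards [ae_Bdd hr hq] with t ht
  exact pointwise_Z R ht

/-- The main inequality: mass plus density of separators is at most the density of blocks. -/
theorem mass_le (r q : Measure ℕ) [IsProbabilityMeasure r] [IsProbabilityMeasure q]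
    (hr : r (Set.Ioi D) = 0) (hq : q (Set.Ioi D) = 0) (m : ENNReal)
    (hrq : ∀ k : ℕ, ((k : ENNReal) + 1) * r {k + 1} = m * q {k}) (K : ENNReal)
    (hK : ∀ t, Bdd D t → a t ≠ 0 → K ≤ nC g t) :
    ∫⁻ t, a t ∂(Law r q) + Law r q (SS a) ≤ K⁻¹ := by
  classical
  have h1 := integral_Z R r q hr hq m hrq
  have hflow := flows_eq R r q hr hq m hrq (fun _ _ => True) (fun _ _ => Iff.rfl)
    measurableSet_Jtrue
  have h2 : Law r q {t | a t ≠ 0} ≤ II r q (FJ g (fun _ _ => True) (YY g)) + K⁻¹ := by
    have h3 : K⁻¹ = ∫⁻ _, K⁻¹ ∂(Law r q) := by simp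
    rw [h3]
    unfold II
    have hm1 := measurable_sum_pair (measurable_FJ R (J := fun _ _ => True) measurableSet_Jtrue (measurable_YY R.mg))
    rw [← lintegral_add_left hm1, ← lintegral_indicator_one (measurableSet_Z R.ma)]
    apply lintegral_mono_ae
    filter_upwards [ae_Bdd hr hq] with t ht
    by_cases h : a t = 0
    · rw [Set.indicator_of_notMem (by simpa using h)]
      exact bot_le
    · rw [Set.indicator_of_mem (show t ∈ {t | a t ≠ 0} from h), Pi.one_apply]
      refine (flow_Y g t).trans ?_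
      gcongr with i hi
      · rw [mem_range] at hi
        unfold FJ
        split_ifs with h4 h5
        · exact le_refl _
        · exfalso
          exact h5 ⟨(lem_zz R (ht []) hi).2 ⟨h, h4⟩, trivial⟩
        · exact bot_le
        · exact le_refl _
      · exact hK t ht h
  rw [← h1, ← hflow] at h2
  have h3 : II r q (FJ g (fun _ _ => True) (XX τ)) ≠ ⊤ := by
    apply ne_top_of_le_ne_top (measure_ne_top (Law r q) {t | a t ≠ 0})
    rw [← h1]
    exact le_self_add.trans le_add_self
  have h4 : (∫⁻ t, a t ∂(Law r q) + Law r q (SS a)) + II r q (FJ g (fun _ _ => True) (XX τ))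
      ≤ K⁻¹ + II r q (FJ g (fun _ _ => True) (XX τ)) := by
    calc (∫⁻ t, a t ∂(Law r q) + Law r q (SS a)) + II r q (FJ g (fun _ _ => True) (XX τ))
        = ∫⁻ t, a t ∂(Law r q) + (II r q (FJ g (fun _ _ => True) (XX τ)) + Law r q (SS a)) := by
          ring
      _ ≤ _ := by rw [add_comm K⁻¹]; exact h2
  exact ENNReal.le_of_add_le_add_right h3 h4

end

end Pool.Agent.Helper331_ugw
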