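import Pool.Agent.Helper331_ugw.Walk

set_option autoImplicit false
set_option linter.deprecated false
set_option linter.unusedSectionVars false

open Filter Topology Finset MeasureTheory Polynomial

namespace Pool.Agent.Helper331_ugw

theorem rules {D : ℕ} {lam M : ℝ} (hM : GoodM D lam M) :
    Rules D lam (aT D lam M) (tT D lam M) (gT D lam M) where
  ma := measurable_aT hM
  mt := measurable_tT D lam M
  mg := measurable_gT D lam M
  A t ht := rule_A hM ht
  Aval t ht ha := rule_A_val hM ht ha
  B t ht := rule_B hM ht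
  Bval t ht h1 h2 := rule_B_val hM ht h1 h2
  C t ht := rule_C hM ht
  Cval t ht hg := (rule_C_val hM ht hg).2
  gtop t hg := by
    intro h
    apply hg
    unfold gT
    rw [if_pos h]
  E t ha := rule_E hM ha
  a_le t := aT_le_one hM t

section

variable (r q : Measure ℕ) [IsProbabilityMeasure r] [IsProbabilityMeasure q]

/-- The conclusion for a deterministic line. -/
lemma alpha_zero_line {D : ℕ} {lam : ℝ} {a τ : (List ℕ → ℕ) → ENNReal}
    {g : (List ℕ → ℕ) → ℝ} (R : Rules D lam a τ g) (hD : 1 ≤ D) (hq1 : q {1} = 1) :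
    Law q q {t | a t ≠ 0} = 0 := by
  have h1 : ∀ᵐ t ∂(Law q q), ∀ w, t w = 1 := by
    rw [ae_all_iff]
    intro w
    have h2 : (Law q q).map (fun t => t w) = q := by
      unfold Law
      have := Measure.infinitePi_map_eval (fun w : List ℕ => if w = [] then q else q) w
      simpa using this
    have h3 : Law q q {t | ¬ t w = 1} = 0 := by
      have h4 : {t : List ℕ → ℕ | ¬ t w = 1} = (fun t => t w) ⁻¹' ({1}ᶜ) := by
        ext t; simp
      rw [h4, ← Measure.map_apply (measurable_pi_apply _) (measurableSet_singleton 1).compl, h2,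
        prob_compl_eq_one_sub (measurableSet_singleton 1), hq1, tsub_self]
    exact h3
  have h2 : ∀ᵐ t ∂(Law q q), ¬ a t ≠ 0 := by
    filter_upwards [h1] with t ht ha
    have h3 : sub t 0 = t := by
      funext w
      unfold sub
      rw [ht, ht]
    have h4 := ((R.A t (by rw [ht]; exact hD)).1 ha).1 0 (by rw [ht]; exact one_pos)
    rw [h3] at h4
    exact h4 (R.E t ha)
  rw [ae_iff] at h2
  simpa using h2

/-- For all but finitely many `lam` there is no mass at `lam`. -/
theorem exists_K {D : ℕ} (hD : 2 ≤ D) (hr : r (Set.Ioi D) = 0) (hq : q (Set.Ioi D) = 0)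
    (hq0 : q {0} = 0) (hr2 : r (Set.Iio 2) = 0) (m : ENNReal) (hm0 : m ≠ 0)
    (hrq : ∀ k : ℕ, ((k : ENNReal) + 1) * r {k + 1} = m * q {k}) :
    ∃ K : ℕ, ∀ lam : ℝ, lam ∉ smallEig D K → ∀ M : ℝ, GoodM D lam M →
      ∫⁻ t, aT D lam M t ∂(Law r q) = 0 := by
  by_cases hq1 : q {1} = 1
  · refine ⟨0, fun lam _ M hM => ?_⟩
    exact mass_zero (rules hM) r q hr hq hr2 m hrq
      (alpha_zero_line q (rules hM) (by omega) hq1)
  · -- constants
    have hq1le : q {1} ≤ 1 := prob_le_one
    have hq1top : q {1} ≠ ⊤ := measure_ne_top _ _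
    set p : ℝ := (q {1}).toReal with hp
    have hp0 : 0 ≤ p := ENNReal.toReal_nonneg
    have hp1 : p < 1 := by
      rw [hp]
      have h1 : q {1} < 1 := lt_of_le_of_ne hq1le hq1
      have := (ENNReal.toReal_lt_toReal hq1top ENNReal.one_ne_top).2 h1
      simpa using this
    have hqp : q {1} = ENNReal.ofReal p := (ENNReal.ofReal_toReal hq1top).symm
    set x : ℝ := 2 / (1 + p) with hx
    set A : ℝ := 4 / (1 - p) with hA
    have hx1 : 1 < x := by
      rw [hx, lt_div_iff₀ (by linarith)]; linarith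
    have hA4 : 4 ≤ A := by
      rw [hA, le_div_iff₀ (by linarith)]; linarith
    have hA0 : 0 < A := by linarith
    have hx0 : 0 < x := by linarith
    -- the key numerical inequality
    have hnum : ∀ θ : ℝ, 0 ≤ θ → θ * (x * A ^ 2) ≤ 1 → 1 + x * (p * A + A * A * θ) ≤ A := by
      intro θ _ hθ
      have h1 : x * p ≤ (1 + p) / 2 := by
        rw [hx, div_mul_eq_mul_div, div_le_div_iff₀ (by linarith) (by norm_num)]
        nlinarith [sq_nonneg (1 - p)]
      have h2 : x * (p * A) ≤ (1 + p) / 2 * A := by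
        calc x * (p * A) = (x * p) * A := by ring
          _ ≤ _ := mul_le_mul_of_nonneg_right h1 hA0.le
      have h3 : (1 - p) * A = 4 := by
        rw [hA]; field_simp [(by linarith : (1 - p) ≠ 0)]
      have h4 : x * (A * A * θ) ≤ 1 := by
        calc x * (A * A * θ) = θ * (x * A ^ 2) := by ring
          _ ≤ 1 := hθ
      nlinarith
    have hDpos : (0:ℝ) < D := by exact_mod_cast (by omega : 0 < D)
    obtain ⟨K1, hK1⟩ := exists_nat_gt ((D * (x * A ^ 2)) ^ 2)
    obtain ⟨K2, hK2⟩ := pow_unbounded_of_one_lt (A * D) hx1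
    set K := max K1 K2 with hK
    have hKa : (D * (x * A ^ 2)) ^ 2 ≤ K := by
      have : (K1 : ℝ) ≤ K := by exact_mod_cast le_max_left K1 K2
      linarith
    have hKb : A * D < x ^ K := by
      refine lt_of_lt_of_le hK2 ?_
      exact pow_le_pow_right₀ hx1.le (le_max_right K1 K2)
    have hKpos : (0:ℝ) < K := by
      have : (0:ℝ) < (D * (x * A ^ 2)) ^ 2 := by positivity
      linarith
    refine ⟨K, fun lam hlam M hM => ?_⟩
    have R := rules hM
    have hsize : ∀ t, Bdd D t → aT D lam M t ≠ 0 → (K : ENNReal) ≤ nC (gT D lam M) t :=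
      fun t ht ha => block_size R hlam t ht ha
    have hmass := mass_le R r q hr hq m hrq K hsize
    set α := Law q q {t | aT D lam M t ≠ 0} with hα
    set θ := Law q q (TA (tT D lam M) (gT D lam M)) with hθ
    have hαtop : α ≠ ⊤ := measure_ne_top _ _
    have hθtop : θ ≠ ⊤ := measure_ne_top _ _
    have h1 : α * α ≤ (K : ENNReal)⁻¹ :=
      (alpha_sq_le R r q hr2).trans (le_add_self.trans hmass)
    have h2 : α.toReal ^ 2 ≤ (K : ℝ)⁻¹ := by
      have h3 := ENNReal.toReal_mono (by
        rw [ENNReal.inv_ne_top]; exact_mod_cast hKpos.ne') h1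
      rw [ENNReal.toReal_mul, ENNReal.toReal_inv, ENNReal.toReal_natCast] at h3
      rw [sq]; exact h3
    have h3 : θ.toReal ≤ D * α.toReal := by
      have h4 := ENNReal.toReal_mono (ENNReal.mul_ne_top (ENNReal.natCast_ne_top D) hαtop)
        (theta_le R q hq)
      rwa [ENNReal.toReal_mul, ENNReal.toReal_natCast] at h4
    have h4 : θ.toReal * (x * A ^ 2) ≤ 1 := by
      have hc : 0 < x * A ^ 2 := by positivity
      have h5 : (θ.toReal * (x * A ^ 2)) ^ 2 ≤ 1 := by
        calc (θ.toReal * (x * A ^ 2)) ^ 2 ≤ (D * α.toReal * (x * A ^ 2)) ^ 2 := by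
              gcongr
          _ = α.toReal ^ 2 * (D * (x * A ^ 2)) ^ 2 := by ring
          _ ≤ (K : ℝ)⁻¹ * K := by gcongr
          _ = 1 := inv_mul_cancel₀ hKpos.ne'
      exact le_of_sq_le_sq (by rw [one_pow]; exact h5) zero_le_one
    have hθr : θ = ENNReal.ofReal θ.toReal := (ENNReal.ofReal_toReal hθtop).symm
    have hθ0 : 0 ≤ θ.toReal := ENNReal.toReal_nonneg
    have hα0 : α = 0 := by
      apply alpha_zero R r q hr hq hq0 m hm0 hrq (ENNReal.ofReal x) (ENNReal.ofReal A)
        (by rw [ENNReal.one_le_ofReal]; exact hx1.le) K hsize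
      · rw [← hθ, hθr, ← ENNReal.ofReal_mul hA0.le, ENNReal.ofReal_le_one]
        calc A * θ.toReal ≤ A * θ.toReal * (x * A) := by
              apply le_mul_of_one_le_right (by positivity)
              nlinarith
          _ = θ.toReal * (x * A ^ 2) := by ring
          _ ≤ 1 := h4
      · rw [← hθ, hθr, hqp, ← ENNReal.ofReal_one, ← ENNReal.ofReal_mul hp0,
          ← ENNReal.ofReal_mul hA0.le, ← ENNReal.ofReal_mul (by positivity),
          ← ENNReal.ofReal_add (by positivity) (by positivity), ← ENNReal.ofReal_mul hx0.le,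
          ← ENNReal.ofReal_add zero_le_one (by positivity)]
        apply ENNReal.ofReal_le_ofReal
        exact hnum _ hθ0 h4
      · rw [← ENNReal.ofReal_natCast, ← ENNReal.ofReal_mul hA0.le, ← ENNReal.ofReal_pow hx0.le]
        exact (ENNReal.ofReal_lt_ofReal_iff (by positivity)).2 hKb
    exact mass_zero R r q hr hq hr2 m hrq hα0

end

lemma norm_AT_pow_le (D : ℕ) (t : List ℕ → ℕ) (k : ℕ) :
    |((AT D t ^ k) (dl [])) []| ≤ (2 * D) ^ k := by
  have h1 : ‖(dl [] : Hs)‖ = 1 := by
    have : ‖(dl [] : Hs)‖ ^ 2 = 1 := by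
      rw [← real_inner_self_eq_norm_sq, inner_dl', dl_apply, if_pos rfl]
    nlinarith [norm_nonneg (dl [] : Hs)]
  have h2 : |((AT D t ^ k) (dl [])) []| ≤ ‖(AT D t ^ k) (dl [])‖ := by
    have := lp.norm_apply_le_norm (p := 2) (by simp) ((AT D t ^ k) (dl [])) []
    simpa using this
  refine h2.trans ?_
  clear h2
  induction k with
  | zero => rw [pow_zero, pow_zero, ContinuousLinearMap.one_apply, h1]
  | succ k ih =>
    rw [pow_succ', ContinuousLinearMap.mul_apply, pow_succ']
    refine ((AT D t).le_opNorm _).trans ?_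
    have h3 : ‖AT D t‖ ≤ 2 * D := norm_AS_le D _
    gcongr

lemma integrable_AT_pow {D : ℕ} (r q : Measure ℕ) [IsProbabilityMeasure r]
    [IsProbabilityMeasure q] (k : ℕ) :
    Integrable (fun t => ((AT D t ^ k) (dl [])) []) (Law r q) := by
  apply Integrable.of_bound (measurable_AT_pow D k []).aestronglyMeasurable ((2 * D) ^ k)
  filter_upwards with t
  rw [Real.norm_eq_abs]
  exact norm_AT_pow_le D t k

lemma pv_eq (D : ℕ) (p : ℝ[X]) (t : List ℕ → ℕ) :
    pv D p t = ∑ i ∈ range (p.natDegree + 1), p.coeff i * ((AT D t ^ i) (dl [])) [] := by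
  unfold pv
  rw [aeval_eq_sum_range, ContinuousLinearMap.sum_apply, lp.coeFn_sum, Finset.sum_apply]
  rfl

lemma integrable_pv {D : ℕ} (r q : Measure ℕ) [IsProbabilityMeasure r]
    [IsProbabilityMeasure q] (p : ℝ[X]) : Integrable (pv D p) (Law r q) := by
  have : pv D p = fun t => ∑ i ∈ range (p.natDegree + 1),
      p.coeff i * ((AT D t ^ i) (dl [])) [] := by
    funext t; exact pv_eq D p t
  rw [this]
  apply integrable_finset_sum
  intro i _
  exact (integrable_AT_pow r q i).const_mul _

/-- The mass of the measure at `lam` is at most the expected mass of the trees. -/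
theorem mass_bound {D : ℕ} (r q : Measure ℕ) [IsProbabilityMeasure r] [IsProbabilityMeasure q]
    (ν : Measure ℝ) [IsProbabilityMeasure ν] (R : ℝ) (hR : ν (Set.Icc (-R) R)ᶜ = 0)
    (hmom : ∀ k : ℕ, ∫ x, x ^ k ∂ν = ∫ t, ((AT D t ^ k) (dl [])) [] ∂(Law r q)) (lam M : ℝ)
    (hM : GoodM D lam M) (hM2 : (|R| + |lam|) ^ 2 ≤ M) :
    ν {lam} ≤ ∫⁻ t, aT D lam M t ∂(Law r q) := by
  have hae : ∀ᵐ x ∂ν, x ∈ Set.Icc (-R) R := hR
  have hae' : ∀ᵐ x ∂ν, |x| ≤ |R| := by
    filter_upwards [hae] with x hx
    rw [abs_le]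
    exact ⟨by linarith [hx.1, le_abs_self R], by linarith [hx.2, le_abs_self R]⟩
  have hint : ∀ k : ℕ, Integrable (fun x : ℝ => x ^ k) ν := by
    intro k
    apply Integrable.of_bound (by fun_prop) (|R| ^ k)
    filter_upwards [hae'] with x hx
    rw [norm_pow, Real.norm_eq_abs]
    gcongr
  have hpoly : ∀ p : ℝ[X], Integrable (fun x => p.eval x) ν ∧
      ∫ x, p.eval x ∂ν = ∫ t, pv D p t ∂(Law r q) := by
    intro p
    have e1 : (fun x => p.eval x) = fun x => ∑ i ∈ range (p.natDegree + 1), p.coeff i * x ^ i := by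
      funext x
      rw [eval_eq_sum_range]
    have e2 : pv D p = fun t => ∑ i ∈ range (p.natDegree + 1),
        p.coeff i * ((AT D t ^ i) (dl [])) [] := by
      funext t; exact pv_eq D p t
    rw [e1, e2]
    constructor
    · apply integrable_finset_sum
      intro i _
      exact (hint i).const_mul _
    · rw [integral_finset_sum _ (fun i _ => (hint i).const_mul _),
        integral_finset_sum _ (fun i _ => (integrable_AT_pow r q i).const_mul _)]
      apply Finset.sum_congr rfl
      intro i _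
      rw [integral_const_mul, integral_const_mul, hmom]
  have hbound : ∀ n : ℕ, ν {lam} ≤ ∫⁻ t, ENNReal.ofReal (bb (LT D lam t) M (dl []) n)
      ∂(Law r q) := by
    intro n
    have hev : ∀ x : ℝ, ((pB lam M) ^ n).eval x = (1 - 1 / M * ((x - lam) * (x - lam))) ^ n := by
      intro x
      simp [pB]
    have hnn : ∀ᵐ x ∂ν, 0 ≤ ((pB lam M) ^ n).eval x := by
      filter_upwards [hae'] with x hx
      rw [hev]
      apply pow_nonneg
      rw [sub_nonneg, div_mul_eq_mul_div, one_mul, div_le_one hM.1]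
      have h1 : |x - lam| ≤ |R| + |lam| := (abs_sub x lam).trans (by linarith)
      calc (x - lam) * (x - lam) = |x - lam| ^ 2 := by rw [sq_abs]; ring
        _ ≤ (|R| + |lam|) ^ 2 := by gcongr
        _ ≤ M := hM2
    have h1 : ν {lam} ≤ ∫⁻ x, ENNReal.ofReal (((pB lam M) ^ n).eval x) ∂ν := by
      calc ν {lam} = ∫⁻ x, ({lam} : Set ℝ).indicator 1 x ∂ν := by
            rw [lintegral_indicator_one (measurableSet_singleton lam)]
        _ ≤ _ := by
            apply lintegral_mono
            intro x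
            by_cases hx : x = lam
            · subst hx
              rw [Set.indicator_of_mem (Set.mem_singleton x)]
              change 1 ≤ ENNReal.ofReal (((pB x M) ^ n).eval x)
              rw [hev]
              simp
            · rw [Set.indicator_of_notMem (by simpa using hx)]
              exact bot_le
    obtain ⟨h2, h3⟩ := hpoly ((pB lam M) ^ n)
    rw [← ofReal_integral_eq_lintegral_ofReal h2 hnn, h3] at h1
    have h4 : ∀ t, bb (LT D lam t) M (dl []) n = pv D (pB lam M ^ n) t :=
      fun t => bb_eq_pv D lam M t n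
    simp only [h4]
    rw [← ofReal_integral_eq_lintegral_ofReal (integrable_pv r q _)]
    · exact h1
    · filter_upwards with t
      rw [← h4]
      exact bb_nonneg (LT_sym D lam t) hM.1 (LT_bound D lam M hM t) _ n
  have hlim : Tendsto (fun n => ∫⁻ t, ENNReal.ofReal (bb (LT D lam t) M (dl []) n) ∂(Law r q))
      atTop (𝓝 (∫⁻ t, aT D lam M t ∂(Law r q))) := by
    apply tendsto_lintegral_of_dominated_convergence (fun _ => 1)
    · intro n
      exact ENNReal.measurable_ofReal.comp (measurable_bb D lam M n)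
    · intro n
      filter_upwards with t
      rw [ENNReal.ofReal_le_one]
      refine (bb_anti (LT_sym D lam t) hM.1 (LT_bound D lam M hM t) _ (Nat.zero_le n)).trans ?_
      rw [bb_zero]
      have : ‖(dl [] : Hs)‖ ^ 2 = 1 := by
        rw [← real_inner_self_eq_norm_sq, inner_dl', dl_apply, if_pos rfl]
      rw [this]
    · simp
    · filter_upwards with t
      exact (ENNReal.continuous_ofReal.tendsto _).comp
        (bb_tendsto (LT_sym D lam t) hM.1 (LT_bound D lam M hM t) _)
  exact ge_of_tendsto' hlim hbound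

end Pool.Agent.Helper331_ugw
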