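import Pool.Agent.Helper331_ugw.Flow

set_option autoImplicit false
set_option linter.deprecated false
set_option linter.unusedSectionVars false

open Filter Topology Finset MeasureTheory

namespace Pool.Agent.Helper331_ugw

/-- The block of the root. -/
def inC (g : (List ℕ → ℕ) → ℝ) : (List ℕ → ℕ) → List ℕ → Prop
  | _, [] => True
  | t, i :: w => i < t [] ∧ g (sub t i) ≠ 0 ∧ inC g (sub t i) w

open scoped Classical in
/-- The number of vertices of the block of the root. -/
noncomputable def nC (g : (List ℕ → ℕ) → ℝ) (t : List ℕ → ℕ) : ENNReal :=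
  ∑' w, if inC g t w then 1 else 0

open scoped Classical in
/-- The summand in the recursion. -/
noncomputable def nI (g : (List ℕ → ℕ) → ℝ) (t : List ℕ → ℕ) : ENNReal :=
  if g t ≠ 0 then nC g t else 0

lemma nC_rec (g : (List ℕ → ℕ) → ℝ) (t : List ℕ → ℕ) :
    nC g t = 1 + ∑ i ∈ range (t []), nI g (sub t i) := by
  classical
  unfold nC
  rw [tsum_list]
  congr 1
  · simp [inC]
  · rw [tsum_eq_sum (s := range (t []))]
    · apply sum_congr rfl
      intro i hi
      rw [mem_range] at hi
      unfold nI
      by_cases h : g (sub t i) = 0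
      · simp [inC, h]
      · simp only [inC, hi, true_and, h, ne_eq, not_false_eq_true, if_true]
        rfl
    · intro i hi
      rw [mem_range] at hi
      simp [inC, hi]

lemma one_le_nC (g : (List ℕ → ℕ) → ℝ) (t : List ℕ → ℕ) : 1 ≤ nC g t := by
  rw [nC_rec]; exact le_self_add

lemma nC_rem (g : (List ℕ → ℕ) → ℝ) (t : List ℕ → ℕ) (i : ℕ) (hi : i < t [])
    (hg : g (sub t i) ≠ 0) : nC g (sub t i) + nC g (rem t i) = nC g t := by
  classical
  rw [nC_rec g t, nC_rec g (rem t i)]
  simp only [rem_nil, sub_rem]
  rw [← sum_skip (fun i => nI g (sub t i)) (t []) i hi]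
  have : nI g (sub t i) = nC g (sub t i) := by unfold nI; rw [if_pos hg]
  rw [this]
  ring

open scoped Classical in
/-- The size flow. -/
noncomputable def YY (g : (List ℕ → ℕ) → ℝ) (t t' : List ℕ → ℕ) : ENNReal :=
  if nC g t = ⊤ then (if nC g t' = ⊤ then 2⁻¹ else 1) else nC g t / (nC g t + nC g t')

lemma YY_add (g : (List ℕ → ℕ) → ℝ) (t t' : List ℕ → ℕ) : YY g t t' + YY g t' t = 1 := by
  classical
  unfold YY
  by_cases h1 : nC g t = ⊤
  · by_cases h2 : nC g t' = ⊤
    · simp only [h1, h2, if_true]
      exact ENNReal.inv_two_add_inv_two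
    · simp [h1, h2]
  · by_cases h2 : nC g t' = ⊤
    · simp [h1, h2]
    · simp only [h1, h2, if_false]
      rw [add_comm (nC g t') (nC g t), ENNReal.div_add_div_same]
      apply ENNReal.div_self
      · have := one_le_nC g t
        intro h
        rw [add_eq_zero] at h
        rw [h.1] at this
        simp at this
      · exact ENNReal.add_ne_top.2 ⟨h1, h2⟩

/-- Pointwise inequality (5). -/
lemma flow_Y (g : (List ℕ → ℕ) → ℝ) (t : List ℕ → ℕ) :
    1 ≤ (∑ i ∈ range (t []), if g (sub t i) ≠ 0 then YY g (sub t i) (rem t i) else 0)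
      + (nC g t)⁻¹ := by
  classical
  by_cases htop : nC g t = ⊤
  · -- infinite block
    have h1 : ∃ i < t [], nI g (sub t i) = ⊤ := by
      by_contra hcon
      push Not at hcon
      apply (ENNReal.add_ne_top.2 ⟨ENNReal.one_ne_top,
        ENNReal.sum_ne_top.2 fun i hi => hcon i (mem_range.1 hi)⟩)
      rw [← nC_rec]; exact htop
    obtain ⟨i, hi, hitop⟩ := h1
    have hgi : g (sub t i) ≠ 0 := by
      intro h; unfold nI at hitop; simp [h] at hitop
    have hni : nC g (sub t i) = ⊤ := by
      unfold nI at hitop; rwa [if_pos hgi] at hitop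
    by_cases h2 : nC g (rem t i) = ⊤
    · -- a second infinite branch
      have h3 : ∃ j < t [], j ≠ i ∧ nI g (sub t j) = ⊤ := by
        by_contra hcon
        push Not at hcon
        have : 1 + ∑ j ∈ range (rem t i []), nI g (sub (rem t i) j) ≠ ⊤ := by
          apply ENNReal.add_ne_top.2 ⟨ENNReal.one_ne_top, ENNReal.sum_ne_top.2 _⟩
          intro j hj
          rw [mem_range, rem_nil] at hj
          rw [sub_rem]
          exact hcon _ (skip_lt hi hj) (skip_ne i j)
        apply this
        rw [← nC_rec]; exact h2
      obtain ⟨j, hj, hji, hjtop⟩ := h3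
      have hgj : g (sub t j) ≠ 0 := by
        intro h; unfold nI at hjtop; simp [h] at hjtop
      have hnj : nC g (sub t j) = ⊤ := by
        unfold nI at hjtop; rwa [if_pos hgj] at hjtop
      have h4 : nC g (rem t j) = ⊤ := by
        obtain ⟨l, hl, hli⟩ := exists_skip hj hi hji.symm
        rw [nC_rec]
        have : nI g (sub (rem t j) l) = ⊤ := by rw [sub_rem, hli]; exact hitop
        have h5 : (⊤ : ENNReal) ≤ ∑ i ∈ range (rem t j []), nI g (sub (rem t j) i) := by
          rw [← this]
          exact Finset.single_le_sum (f := fun i => nI g (sub (rem t j) i))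
            (fun _ _ => bot_le) (by rw [mem_range, rem_nil]; exact hl)
        rw [top_le_iff.1 h5]
        simp
      have h5 : ∑ x ∈ ({i, j} : Finset ℕ), (if g (sub t x) ≠ 0 then YY g (sub t x) (rem t x) else 0)
          ≤ ∑ i ∈ range (t []), if g (sub t i) ≠ 0 then YY g (sub t i) (rem t i) else 0 := by
        apply Finset.sum_le_sum_of_subset
        intro x hx
        rw [mem_insert, mem_singleton] at hx
        rw [mem_range]
        rcases hx with rfl | rfl <;> assumption
      rw [Finset.sum_pair hji.symm, if_pos hgi, if_pos hgj] at h5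
      have e1 : YY g (sub t i) (rem t i) = 2⁻¹ := by unfold YY; rw [if_pos hni, if_pos h2]
      have e2 : YY g (sub t j) (rem t j) = 2⁻¹ := by unfold YY; rw [if_pos hnj, if_pos h4]
      rw [e1, e2, ENNReal.inv_two_add_inv_two] at h5
      exact h5.trans le_self_add
    · have e1 : YY g (sub t i) (rem t i) = 1 := by unfold YY; rw [if_pos hni, if_neg h2]
      have h5 : (if g (sub t i) ≠ 0 then YY g (sub t i) (rem t i) else 0)
          ≤ ∑ i ∈ range (t []), if g (sub t i) ≠ 0 then YY g (sub t i) (rem t i) else 0 :=
        Finset.single_le_sum (f := fun i => if g (sub t i) ≠ 0 then YY g (sub t i) (rem t i) else 0)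
          (fun _ _ => bot_le) (mem_range.2 hi)
      rw [if_pos hgi, e1] at h5
      exact h5.trans le_self_add
  · -- finite block
    have hfin : ∀ i < t [], nI g (sub t i) ≠ ⊤ := by
      intro i hi h
      apply htop
      rw [nC_rec]
      have h5 : (⊤ : ENNReal) ≤ ∑ i ∈ range (t []), nI g (sub t i) := by
        rw [← h]
        exact Finset.single_le_sum (f := fun i => nI g (sub t i))
          (fun _ _ => bot_le) (mem_range.2 hi)
      rw [top_le_iff.1 h5]
      simp
    have h1 : ∀ i ∈ range (t []), (if g (sub t i) ≠ 0 then YY g (sub t i) (rem t i) else 0)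
        = nI g (sub t i) * (nC g t)⁻¹ := by
      intro i hi
      rw [mem_range] at hi
      unfold nI
      split_ifs with h
      · have h2 : nC g (sub t i) ≠ ⊤ := by
          have := hfin i hi
          unfold nI at this
          rwa [if_pos h] at this
        unfold YY
        rw [if_neg h2, nC_rem g t i hi h, div_eq_mul_inv]
      · rw [zero_mul]
    rw [sum_congr rfl h1, ← sum_mul]
    have h2 : (∑ i ∈ range (t []), nI g (sub t i)) * (nC g t)⁻¹ + (nC g t)⁻¹
        = nC g t * (nC g t)⁻¹ := by
      have e := nC_rec g t
      generalize (nC g t)⁻¹ = x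
      rw [e, add_mul, one_mul, add_comm]
    rw [h2, ENNReal.mul_inv_cancel _ htop]
    have := one_le_nC g t
    intro h
    rw [h] at this
    simp at this

lemma measurable_comp_nat {α β : Type*} [MeasurableSpace α] [MeasurableSpace β] {n : α → ℕ}
    (hn : Measurable n) {F : ℕ → α → β} (hF : ∀ k, Measurable (F k)) :
    Measurable (fun x => F (n x) x) := by
  have h : Measurable (fun p : ℕ × α => F p.1 p.2) := by
    apply measurable_from_prod_countable_right
    intro k
    exact hF k
  exact h.comp (hn.prodMk measurable_id)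

lemma measurable_sum_range {α : Type*} [MeasurableSpace α] {n : α → ℕ} (hn : Measurable n)
    {f : ℕ → α → ENNReal} (hf : ∀ i, Measurable (f i)) :
    Measurable (fun x => ∑ i ∈ range (n x), f i x) := by
  apply measurable_comp_nat (F := fun k x => ∑ i ∈ range k, f i x) hn
  intro k
  exact Finset.measurable_sum _ fun i _ => hf i

lemma measurable_sum_pair {F : (List ℕ → ℕ) → (List ℕ → ℕ) → ENNReal}
    (hF : Measurable (Function.uncurry F)) :
    Measurable (fun t : List ℕ → ℕ => ∑ i ∈ range (t []), F (sub t i) (rem t i)) := by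
  apply measurable_sum_range (measurable_pi_apply _)
  intro i
  exact hF.comp ((measurable_sub i).prodMk (measurable_rem i))

lemma measurable_WW {τ : (List ℕ → ℕ) → ENNReal} (h : Measurable τ) : Measurable (WW τ) := by
  unfold WW
  apply Measurable.const_add
  apply measurable_sum_range (measurable_pi_apply _)
  intro i
  exact h.comp (measurable_sub i)

lemma measurable_XX {τ : (List ℕ → ℕ) → ENNReal} (h : Measurable τ) :
    Measurable (Function.uncurry (XX τ)) := by
  unfold XX Function.uncurry
  apply Measurable.div
  · exact h.comp measurable_fst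
  · exact (h.comp measurable_fst).add ((measurable_WW h).comp measurable_snd)

lemma measurableSet_inC {g : (List ℕ → ℕ) → ℝ} (hg : Measurable g) (w : List ℕ) :
    MeasurableSet {t | inC g t w} := by
  induction w with
  | nil => simp [inC]
  | cons i w ih =>
    have e : {t | inC g t (i :: w)} = {t | i < t []} ∩ ({t | g (sub t i) ≠ 0} ∩
        (fun t => sub t i) ⁻¹' {t | inC g t w}) := by
      ext t; simp [inC]
    rw [e]
    apply MeasurableSet.inter
    · exact measurableSet_lt measurable_const (measurable_pi_apply _)
    · apply MeasurableSet.inter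
      · exact (hg.comp (measurable_sub i)) (measurableSet_singleton 0).compl
      · exact measurable_sub i ih

lemma measurable_nC {g : (List ℕ → ℕ) → ℝ} (hg : Measurable g) : Measurable (nC g) := by
  classical
  unfold nC
  apply Measurable.ennreal_tsum
  intro w
  exact Measurable.ite (measurableSet_inC hg w) measurable_const measurable_const

lemma measurable_YY {g : (List ℕ → ℕ) → ℝ} (hg : Measurable g) :
    Measurable (Function.uncurry (YY g)) := by
  classical
  unfold YY Function.uncurry
  have h1 : Measurable (fun p : (List ℕ → ℕ) × (List ℕ → ℕ) => nC g p.1) :=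
    (measurable_nC hg).comp measurable_fst
  have h2 : Measurable (fun p : (List ℕ → ℕ) × (List ℕ → ℕ) => nC g p.2) :=
    (measurable_nC hg).comp measurable_snd
  apply Measurable.ite (h1 (measurableSet_singleton _))
  · exact Measurable.ite (h2 (measurableSet_singleton _)) measurable_const measurable_const
  · exact h1.div (h1.add h2)

/-- Almost surely the offspring numbers are bounded. -/
lemma ae_Bdd {D : ℕ} {r q : Measure ℕ} [IsProbabilityMeasure r] [IsProbabilityMeasure q]
    (hr : r (Set.Ioi D) = 0) (hq : q (Set.Ioi D) = 0) : ∀ᵐ t ∂(Law r q), Bdd D t := by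
  unfold Bdd
  rw [ae_all_iff]
  intro w
  have h1 : Law r q {t | ¬ t w ≤ D} = 0 := by
    have h2 : (Law r q).map (fun t => t w) = if w = [] then r else q := by
      unfold Law
      exact Measure.infinitePi_map_eval _ w
    have h3 : {t : List ℕ → ℕ | ¬ t w ≤ D} = (fun t => t w) ⁻¹' (Set.Ioi D) := by
      ext t; simp
    rw [h3, ← Measure.map_apply (measurable_pi_apply _) measurableSet_Ioi, h2]
    split_ifs <;> assumption
  exact h1

end Pool.Agent.Helper331_ugw
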