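import Pool.Agent.Helper331_ugw.Law

set_option autoImplicit false
set_option linter.deprecated false
set_option linter.unusedSectionVars false

open Filter Topology Finset MeasureTheory

namespace Pool.Agent.Helper331_ugw

/-- Skipping the index `i`. -/
def skip (i j : ℕ) : ℕ := if j < i then j else j + 1

/-- `skip i` as an equivalence. -/
def skipEquiv (i : ℕ) : Option ℕ ≃ ℕ where
  toFun o := o.elim i (skip i)
  invFun n := if n = i then none else if n < i then some n else some (n - 1)
  left_inv o := by
    rcases o with _ | j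
    · simp
    · simp only [Option.elim, skip]
      by_cases h : j < i
      · simp [h, h.ne]
      · simp only [h, if_false]
        rw [if_neg (by omega), if_neg (by omega)]
        simp
  right_inv n := by
    by_cases h1 : n = i
    · simp [h1]
    · by_cases h2 : n < i
      · simp [h1, h2, skip]
      · simp only [h1, h2, if_false, Option.elim, skip]
        rw [if_neg (by omega)]
        omega

/-- Removing the `i`-th subtree at the root. -/
def rem (t : List ℕ → ℕ) (i : ℕ) : List ℕ → ℕ := join (t [] - 1) (fun j => sub t (skip i j))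

@[simp] lemma rem_nil (t : List ℕ → ℕ) (i : ℕ) : rem t i [] = t [] - 1 := rfl
@[simp] lemma sub_rem (t : List ℕ → ℕ) (i j : ℕ) : sub (rem t i) j = sub t (skip i j) := rfl

lemma measurable_rem (i : ℕ) : Measurable (fun t => rem t i) := by
  unfold rem
  have h1 : Measurable (fun t : List ℕ → ℕ =>
      ((t [] - 1, fun j => sub t (skip i j)) : ℕ × (ℕ → List ℕ → ℕ))) := by
    apply Measurable.prodMk
    · exact (measurable_of_countable (fun n : ℕ => n - 1)).comp (measurable_pi_apply _)
    · rw [measurable_pi_iff]; intro j; exact measurable_sub _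
  exact measurable_join.comp h1

/-- Sums over the children other than `i`. -/
lemma sum_skip {M : Type*} [AddCommMonoid M] (f : ℕ → M) (k i : ℕ) (hi : i < k) :
    f i + ∑ j ∈ range (k - 1), f (skip i j) = ∑ j ∈ range k, f j := by
  obtain ⟨k, rfl⟩ : ∃ k', k = k' + 1 := ⟨k - 1, by omega⟩
  simp only [Nat.add_sub_cancel]
  rw [← Finset.sum_erase_add (range (k + 1)) f (mem_range.2 hi), add_comm]
  congr 1
  apply Finset.sum_bij (fun j _ => skip i j)
  · intro j hj
    rw [mem_range] at hj
    rw [mem_erase, mem_range]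
    unfold skip
    split_ifs <;> omega
  · intro a _ b _ h
    unfold skip at h
    split_ifs at h <;> omega
  · intro n hn
    rw [mem_erase, mem_range] at hn
    by_cases h : n < i
    · exact ⟨n, by rw [mem_range]; omega, by simp [skip, h]⟩
    · exact ⟨n - 1, by rw [mem_range]; omega, by unfold skip; rw [if_neg (by omega)]; omega⟩
  · intro j _
    rfl

lemma skip_lt {i j k : ℕ} (hi : i < k) (hj : j < k - 1) : skip i j < k := by
  unfold skip; split_ifs <;> omega

lemma skip_ne (i j : ℕ) : skip i j ≠ i := by
  unfold skip; split_ifs <;> omega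

lemma exists_skip {i j k : ℕ} (hi : i < k) (hj : j < k) (hne : j ≠ i) :
    ∃ l < k - 1, skip i l = j := by
  by_cases h : j < i
  · exact ⟨j, by omega, by simp [skip, h]⟩
  · exact ⟨j - 1, by omega, by unfold skip; rw [if_neg (by omega)]; omega⟩

section

variable (r q : Measure ℕ) [IsProbabilityMeasure r] [IsProbabilityMeasure q]

/-- The law of the sequence of subtrees. -/
noncomputable abbrev LawN : Measure (ℕ → List ℕ → ℕ) := Measure.infinitePi (fun _ : ℕ => Law q q)

lemma lintegral_law (G : ℕ × (ℕ → List ℕ → ℕ) → ENNReal) (hG : Measurable G) :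
    ∫⁻ t, G (t [], fun i => sub t i) ∂(Law r q) = ∑' k, (∫⁻ s, G (k, s) ∂(LawN q)) * r {k} := by
  have h1 : ∫⁻ t, G (t [], fun i => sub t i) ∂(Law r q)
      = ∫⁻ p, G p ∂((Law r q).map (fun t => (t [], fun i => sub t i))) := by
    rw [lintegral_map hG measurable_split]
  rw [h1, law_split, lintegral_prod _ hG.aemeasurable, lintegral_countable']

lemma lintegral_law' (F : (List ℕ → ℕ) → ENNReal) (hF : Measurable F) :
    ∫⁻ t, F t ∂(Law r q) = ∑' k, (∫⁻ s, F (join k s) ∂(LawN q)) * r {k} := by
  rw [← lintegral_law r q (fun p => F (join p.1 p.2)) (hF.comp measurable_join)]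
  simp only [join_eta]

lemma lawN_split (i : ℕ) (G : (List ℕ → ℕ) × (ℕ → List ℕ → ℕ) → ENNReal) (hG : Measurable G) :
    ∫⁻ s, G (s i, fun j => s (skip i j)) ∂(LawN q) = ∫⁻ t, ∫⁻ s, G (t, s) ∂(LawN q) ∂(Law q q) := by
  have h := infinitePi_option (skipEquiv i) (fun _ : ℕ => Law q q)
  have hm : Measurable (fun x : ℕ → List ℕ → ℕ =>
      (x (skipEquiv i none), fun k => x (skipEquiv i (some k)))) := by
    apply Measurable.prodMk (measurable_pi_apply _)
    rw [measurable_pi_iff]; intro j; exact measurable_pi_apply _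
  have h1 : ∫⁻ s, G (s i, fun j => s (skip i j)) ∂(LawN q)
      = ∫⁻ p, G p ∂((LawN q).map (fun x => (x (skipEquiv i none),
        fun k => x (skipEquiv i (some k))))) := by
    rw [lintegral_map hG hm]
    rfl
  rw [h1, h, lintegral_prod _ hG.aemeasurable]

/-- The edge formula (mass transport along the edges at the root). -/
theorem edge_formula (m : ENNReal) (hrq : ∀ k : ℕ, ((k : ENNReal) + 1) * r {k + 1} = m * q {k})
    (F : (List ℕ → ℕ) → (List ℕ → ℕ) → ENNReal) (hF : Measurable (Function.uncurry F)) :
    ∫⁻ t, ∑ i ∈ range (t []), F (sub t i) (rem t i) ∂(Law r q)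
      = m * ∫⁻ t, ∫⁻ t', F t t' ∂(Law q q) ∂(Law q q) := by
  -- the function on pairs
  set G : ℕ × (ℕ → List ℕ → ℕ) → ENNReal := fun p =>
    ∑ i ∈ range p.1, F (p.2 i) (join (p.1 - 1) (fun j => p.2 (skip i j))) with hGdef
  have hterm : ∀ k i : ℕ, Measurable (fun s : ℕ → List ℕ → ℕ =>
      F (s i) (join (k - 1) (fun j => s (skip i j)))) := by
    intro k i
    have h2 : Measurable (fun s : ℕ → List ℕ → ℕ =>
        (s i, join (k - 1) (fun j => s (skip i j)))) := by
      apply Measurable.prodMk (measurable_pi_apply _)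
      have h3 : Measurable (fun s : ℕ → List ℕ → ℕ =>
          ((k - 1, fun j => s (skip i j)) : ℕ × (ℕ → List ℕ → ℕ))) := by
        apply Measurable.prodMk measurable_const
        rw [measurable_pi_iff]; intro j; exact measurable_pi_apply _
      exact measurable_join.comp h3
    exact hF.comp h2
  have hG : Measurable G := by
    apply measurable_from_prod_countable_right
    intro k
    simp only [hGdef]
    exact Finset.measurable_sum _ fun i _ => hterm k i
  have h1 : ∫⁻ t, ∑ i ∈ range (t []), F (sub t i) (rem t i) ∂(Law r q)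
      = ∫⁻ t, G (t [], fun i => sub t i) ∂(Law r q) := rfl
  rw [h1, lintegral_law r q G hG]
  set Φ : ℕ → ENNReal := fun k => ∫⁻ t, ∫⁻ s, F t (join k s) ∂(LawN q) ∂(Law q q) with hΦ
  have h2 : ∀ k, ∫⁻ s, G (k, s) ∂(LawN q) = (k : ENNReal) * Φ (k - 1) := by
    intro k
    simp only [hGdef]
    rw [lintegral_finset_sum _ (fun i _ => hterm k i)]
    have h3 : ∀ i ∈ range k, ∫⁻ s, F (s i) (join (k - 1) (fun j => s (skip i j))) ∂(LawN q)
        = Φ (k - 1) := by
      intro i _
      have h4 : Measurable (fun p : (List ℕ → ℕ) × (ℕ → List ℕ → ℕ) =>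
          F p.1 (join (k - 1) p.2)) := by
        have h5 : Measurable (fun p : (List ℕ → ℕ) × (ℕ → List ℕ → ℕ) =>
            (p.1, join (k - 1) p.2)) := by
          apply Measurable.prodMk measurable_fst
          have h6 : Measurable (fun p : (List ℕ → ℕ) × (ℕ → List ℕ → ℕ) =>
              ((k - 1, p.2) : ℕ × (ℕ → List ℕ → ℕ))) :=
            Measurable.prodMk measurable_const measurable_snd
          exact measurable_join.comp h6
        exact hF.comp h5
      exact lawN_split q i (fun p => F p.1 (join (k - 1) p.2)) h4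
    rw [sum_congr rfl h3]
    simp
  simp only [h2]
  rw [tsum_eq_zero_add' ENNReal.summable]
  simp only [Nat.cast_zero, zero_mul, zero_add, Nat.add_sub_cancel, Nat.cast_add, Nat.cast_one]
  have h5 : ∀ k : ℕ, ((k : ENNReal) + 1) * Φ k * r {k + 1} = m * (Φ k * q {k}) := by
    intro k
    rw [mul_right_comm, hrq k]
    ring
  simp only [h5]
  rw [ENNReal.tsum_mul_left]
  congr 1
  -- right-hand side
  have h6 : ∀ t, ∫⁻ t', F t t' ∂(Law q q) = ∑' k, (∫⁻ s, F t (join k s) ∂(LawN q)) * q {k} := by
    intro t
    apply lintegral_law' q q (fun t' => F t t')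
    exact hF.comp (measurable_const.prodMk measurable_id)
  simp only [h6]
  rw [lintegral_tsum]
  · apply tsum_congr
    intro k
    rw [lintegral_mul_const]
    have h4 : Measurable (fun p : (List ℕ → ℕ) × (ℕ → List ℕ → ℕ) => F p.1 (join k p.2)) := by
      have h5 : Measurable (fun p : (List ℕ → ℕ) × (ℕ → List ℕ → ℕ) => (p.1, join k p.2)) := by
        apply Measurable.prodMk measurable_fst
        have h6 : Measurable (fun p : (List ℕ → ℕ) × (ℕ → List ℕ → ℕ) =>
            ((k, p.2) : ℕ × (ℕ → List ℕ → ℕ))) :=
          Measurable.prodMk measurable_const measurable_snd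
        exact measurable_join.comp h6
      exact hF.comp h5
    exact h4.lintegral_prod_right'
  · intro k
    have h4 : Measurable (fun p : (List ℕ → ℕ) × (ℕ → List ℕ → ℕ) => F p.1 (join k p.2)) := by
      have h5 : Measurable (fun p : (List ℕ → ℕ) × (ℕ → List ℕ → ℕ) => (p.1, join k p.2)) := by
        apply Measurable.prodMk measurable_fst
        have h6 : Measurable (fun p : (List ℕ → ℕ) × (ℕ → List ℕ → ℕ) =>
            ((k, p.2) : ℕ × (ℕ → List ℕ → ℕ))) :=
          Measurable.prodMk measurable_const measurable_snd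
        exact measurable_join.comp h6
      exact hF.comp h5
    exact (h4.lintegral_prod_right'.mul_const _).aemeasurable

/-- The edge swap. -/
theorem edge_swap (m : ENNReal) (hrq : ∀ k : ℕ, ((k : ENNReal) + 1) * r {k + 1} = m * q {k})
    (F : (List ℕ → ℕ) → (List ℕ → ℕ) → ENNReal) (hF : Measurable (Function.uncurry F)) :
    ∫⁻ t, ∑ i ∈ range (t []), F (sub t i) (rem t i) ∂(Law r q)
      = ∫⁻ t, ∑ i ∈ range (t []), F (rem t i) (sub t i) ∂(Law r q) := by
  rw [edge_formula r q m hrq F hF]
  have h2 : Measurable (Function.uncurry (fun a b => F b a)) := hF.comp measurable_swap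
  have h3 := edge_formula r q m hrq (fun a b => F b a) h2
  rw [h3]
  congr 1
  exact lintegral_lintegral_swap hF.aemeasurable

end

end Pool.Agent.Helper331_ugw
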