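import Pool.Agent.Helper331_ugw.Moment

set_option autoImplicit false
set_option linter.deprecated false
set_option linter.unusedSectionVars false

open Filter Topology Finset MeasureTheory

namespace Pool.Agent.Helper331_ugw

/-- Adjacency of words. -/
def adjw (u v : List ℕ) : Prop := (∃ j, v = u ++ [j]) ∨ (∃ j, u = v ++ [j])

lemma adjw_nil (v : List ℕ) : adjw [] v ↔ ∃ j, v = [j] := by
  unfold adjw
  constructor
  · rintro (⟨j, h⟩ | ⟨j, h⟩)
    · exact ⟨j, by simpa using h⟩
    · simp at h
  · rintro ⟨j, h⟩
    exact Or.inl ⟨j, by simpa using h⟩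

lemma adjw_cons_nil (i : ℕ) (u : List ℕ) : adjw (i :: u) [] ↔ u = [] := by
  unfold adjw
  constructor
  · rintro (⟨j, h⟩ | ⟨j, h⟩)
    · simp at h
    · simp only [List.nil_append, List.cons.injEq] at h
      exact h.2
  · rintro rfl
    exact Or.inr ⟨i, by simp⟩

lemma adjw_cons (i j : ℕ) (u v : List ℕ) : adjw (i :: u) (j :: v) ↔ i = j ∧ adjw u v := by
  unfold adjw
  simp only [List.cons_append, List.cons.injEq]
  constructor
  · rintro (⟨k, h1, h2⟩ | ⟨k, h1, h2⟩)
    · exact ⟨h1.symm, Or.inl ⟨k, h2⟩⟩
    · exact ⟨h1, Or.inr ⟨k, h2⟩⟩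
  · rintro ⟨h1, ⟨k, h2⟩ | ⟨k, h2⟩⟩
    · exact Or.inl ⟨k, h1.symm, h2⟩
    · exact Or.inr ⟨k, h1, h2⟩

/-- The eigenfunction on the block. -/
def FF (g : (List ℕ → ℕ) → ℝ) : (List ℕ → ℕ) → List ℕ → ℝ
  | _, [] => 1
  | t, i :: w => -(g (sub t i)) * FF g (sub t i) w

section

variable {D : ℕ} {lam : ℝ} {a τ : (List ℕ → ℕ) → ENNReal} {g : (List ℕ → ℕ) → ℝ}
  (R : Rules D lam a τ g)
include R

open scoped Classical in
lemma block_eq (u : List ℕ) : ∀ (t : List ℕ → ℕ), Bdd D t → ∀ (C : Finset (List ℕ)),
    (∀ w, w ∈ C ↔ inC g t w) → inC g t u →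
    ∑ v ∈ C, (if adjw u v then FF g t v else 0)
      = lam * FF g t u - (if u = [] then lam + ∑ i ∈ range (t []), g (sub t i) else 0) := by
  induction u with
  | nil =>
    intro t ht C hC _
    simp only [if_true, FF, mul_one]
    have h1 : ∑ v ∈ C, (if adjw [] v then FF g t v else 0)
        = ∑ v ∈ ((range (t [])).filter (fun j => g (sub t j) ≠ 0)).image (fun j => [j]),
          (if adjw [] v then FF g t v else 0) := by
      symm
      apply Finset.sum_subset
      · intro v hv
        simp only [mem_image, mem_filter, mem_range] at hv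
        obtain ⟨j, ⟨hj, hg⟩, rfl⟩ := hv
        rw [hC]
        exact ⟨hj, hg, trivial⟩
      · intro v hv hv2
        rw [if_neg]
        rw [adjw_nil]
        rintro ⟨j, rfl⟩
        apply hv2
        rw [hC] at hv
        simp only [mem_image, mem_filter, mem_range]
        exact ⟨j, ⟨hv.1, hv.2.1⟩, rfl⟩
    rw [h1, Finset.sum_image (by intro a _ b _ h; simpa using h)]
    have h2 : ∀ j ∈ (range (t [])).filter (fun j => g (sub t j) ≠ 0),
        (if adjw [] [j] then FF g t [j] else 0) = -(g (sub t j)) := by
      intro j _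
      rw [if_pos ((adjw_nil _).2 ⟨j, rfl⟩)]
      simp [FF]
    rw [Finset.sum_congr rfl h2, Finset.sum_filter]
    have h3 : ∀ j ∈ range (t []), (if g (sub t j) ≠ 0 then -(g (sub t j)) else 0)
        = -(g (sub t j)) := by
      intro j _
      split_ifs with h
      · rfl
      · rw [not_not] at h; rw [h]; simp
    rw [Finset.sum_congr rfl h3, Finset.sum_neg_distrib]
    ring
  | cons i u ih =>
    intro t ht C hC hu
    obtain ⟨hi, hg, hu'⟩ := hu
    set C' : Finset (List ℕ) := C.preimage (fun w => i :: w) (cons_inj i).injOn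
      with hC'
    have hC'mem : ∀ w, w ∈ C' ↔ inC g (sub t i) w := by
      intro w
      rw [hC', Finset.mem_preimage, hC]
      simp only [inC]
      exact ⟨fun h => h.2.2, fun h => ⟨hi, hg, h⟩⟩
    have h1 : ∑ v ∈ C, (if adjw (i :: u) v then FF g t v else 0)
        = ∑ v ∈ insert [] (C'.image (fun w => i :: w)),
          (if adjw (i :: u) v then FF g t v else 0) := by
      symm
      apply Finset.sum_subset
      · intro v hv
        rw [mem_insert, mem_image] at hv
        rcases hv with rfl | ⟨w, hw, rfl⟩
        · rw [hC]; trivial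
        · rw [hC]
          exact ⟨hi, hg, (hC'mem w).1 hw⟩
      · intro v hv hv2
        rw [if_neg]
        intro hadj
        apply hv2
        cases v with
        | nil => exact mem_insert_self _ _
        | cons j v =>
          rw [adjw_cons] at hadj
          obtain ⟨rfl, _⟩ := hadj
          apply mem_insert_of_mem
          rw [mem_image]
          refine ⟨v, ?_, rfl⟩
          rw [hC'mem]
          rw [hC] at hv
          exact hv.2.2
    rw [h1, Finset.sum_insert (by simp), Finset.sum_image (by intro a _ b _ h; simpa using h)]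
    have h2 : ∀ w ∈ C', (if adjw (i :: u) (i :: w) then FF g t (i :: w) else 0)
        = -(g (sub t i)) * (if adjw u w then FF g (sub t i) w else 0) := by
      intro w _
      simp only [adjw_cons, true_and, FF]
      split_ifs <;> simp
    rw [Finset.sum_congr rfl h2, ← Finset.mul_sum, ih (sub t i) (ht.sub i) C' hC'mem hu']
    obtain ⟨h3, _⟩ := R.Cval _ (ht.sub i []) hg
    simp only [adjw_cons_nil, FF]
    rw [if_neg (by simp : ¬ (i :: u = []))]
    split_ifs with h4
    · linear_combination h3
    · ring

end

/-- Words of bounded length and letters. -/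
lemma finite_words (D K : ℕ) : {w : List ℕ | w.length < K ∧ ∀ i ∈ w, i < D}.Finite := by
  have h1 : ((fun l : List (Fin D) => l.map (fun i : Fin D => (i : ℕ))) ''
      {l : List (Fin D) | l.length < K}).Finite :=
    (List.finite_length_lt (Fin D) K).image _
  apply h1.subset
  rintro w ⟨h2, h3⟩
  refine ⟨w.pmap (fun i hi => (⟨i, hi⟩ : Fin D)) h3, ?_, ?_⟩
  · simpa using h2
  · change List.map _ (List.pmap _ _ _) = _
    rw [List.map_pmap]
    simp

open scoped Classical in
/-- Adjacency matrix of a finite set of words. -/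
noncomputable def adjM (C : Finset (List ℕ)) : Matrix C C ℝ :=
  Matrix.of fun u v => if adjw u.1 v.1 then 1 else 0

/-- The eigenvalues of small trees. -/
def smallEig (D K : ℕ) : Set ℝ :=
  ⋃ C ∈ (finite_words D K).toFinset.powerset,
    {μ : ℝ | Module.End.HasEigenvalue (Matrix.toLin' (adjM C)) μ}

lemma smallEig_finite (D K : ℕ) : (smallEig D K).Finite := by
  unfold smallEig
  apply Set.Finite.biUnion (Finset.finite_toSet _)
  intro C _
  exact Module.End.finite_hasEigenvalue _

section

variable {D : ℕ} {lam : ℝ} {a τ : (List ℕ → ℕ) → ENNReal} {g : (List ℕ → ℕ) → ℝ}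
  (R : Rules D lam a τ g)
include R

omit R in
lemma inC_take {t : List ℕ → ℕ} {w : List ℕ} (h : inC g t w) (j : ℕ) : inC g t (w.take j) := by
  induction w generalizing t j with
  | nil => simpa using h
  | cons i w ih =>
    cases j with
    | zero => simp [inC]
    | succ j =>
      rw [List.take_succ_cons]
      exact ⟨h.1, h.2.1, ih h.2.2 j⟩

omit R in
lemma inC_lt {t : List ℕ → ℕ} (ht : Bdd D t) {w : List ℕ} (h : inC g t w) : ∀ i ∈ w, i < D := by
  induction w generalizing t with
  | nil => simp
  | cons i w ih =>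
    intro j hj
    rw [List.mem_cons] at hj
    rcases hj with rfl | hj
    · exact lt_of_lt_of_le h.1 (ht [])
    · exact ih (ht.sub i) h.2.2 j hj

/-- Blocks have at least `K` vertices if `lam` is not an eigenvalue of a small tree. -/
theorem block_size {K : ℕ} (hlam : lam ∉ smallEig D K) (t : List ℕ → ℕ) (ht : Bdd D t)
    (ha : a t ≠ 0) : (K : ENNReal) ≤ nC g t := by
  classical
  by_contra hcon
  rw [not_le] at hcon
  have hfin : nC g t ≠ ⊤ := ne_top_of_lt hcon
  set C := (inC_finite hfin).toFinset with hC
  have hmem : ∀ w, w ∈ C ↔ inC g t w := by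
    intro w; rw [hC, Set.Finite.mem_toFinset]; rfl
  have hcard : C.card < K := by
    rw [nC_card hfin, ← hC] at hcon
    exact_mod_cast hcon
  apply hlam
  unfold smallEig
  rw [Set.mem_iUnion₂]
  refine ⟨C, ?_, ?_⟩
  · rw [Finset.mem_powerset]
    intro w hw
    rw [Set.Finite.mem_toFinset]
    rw [hmem] at hw
    refine ⟨?_, inC_lt ht hw⟩
    -- prefixes
    have h1 : (range (w.length + 1)).image (fun j => w.take j) ⊆ C := by
      intro v hv
      rw [mem_image] at hv
      obtain ⟨j, _, rfl⟩ := hv
      rw [hmem]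
      exact inC_take hw j
    have h2 := Finset.card_le_card h1
    rw [Finset.card_image_of_injOn, card_range] at h2
    · omega
    · intro i hi j hj h
      simp only [coe_range, Set.mem_Iio] at hi hj
      have := congrArg List.length h
      simp only [List.length_take] at this
      omega
  · rw [Set.mem_setOf_eq]
    have hnil : [] ∈ C := by rw [hmem]; trivial
    set f : C → ℝ := fun w => FF g t w.1 with hf
    apply Module.End.hasEigenvalue_of_hasEigenvector (x := f)
    rw [Module.End.hasEigenvector_iff, Module.End.mem_eigenspace_iff]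
    constructor
    · rw [Matrix.toLin'_apply]
      funext u
      have h1 := block_eq R u.1 t ht C hmem ((hmem _).1 u.2)
      have h2 := ((R.A t (ht [])).1 ha).2
      rw [h2] at h1
      simp only [ite_self, sub_zero] at h1
      rw [Pi.smul_apply, smul_eq_mul]
      change _ = lam * FF g t u.1
      rw [← h1]
      unfold adjM Matrix.mulVec dotProduct
      simp only [Matrix.of_apply, ite_mul, one_mul, zero_mul]
      rw [← Finset.sum_coe_sort C]
    · intro h
      have := congrFun h ⟨[], hnil⟩
      simp [hf, FF] at this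

end

end Pool.Agent.Helper331_ugw
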