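import Pool.Agent.Helper331_ugw.Edge

set_option autoImplicit false
set_option linter.deprecated false
set_option linter.unusedSectionVars false

open Filter Topology Finset MeasureTheory

namespace Pool.Agent.Helper331_ugw

/-- The rules satisfied by mass, minimal solution and value at the root. -/
structure Rules (D : ℕ) (lam : ℝ) (a τ : (List ℕ → ℕ) → ENNReal) (g : (List ℕ → ℕ) → ℝ) :
    Prop where
  ma : Measurable a
  mt : Measurable τ
  mg : Measurable g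
  A : ∀ t, t [] ≤ D → (a t ≠ 0 ↔ ((∀ i < t [], τ (sub t i) ≠ ⊤) ∧
    lam + ∑ i ∈ range (t []), g (sub t i) = 0))
  Aval : ∀ t, t [] ≤ D → a t ≠ 0 → a t = (1 + ∑ i ∈ range (t []), τ (sub t i))⁻¹
  B : ∀ t, t [] ≤ D → ((∃ i < t [], a (sub t i) ≠ 0) ↔ (τ t ≠ ⊤ ∧ g t = 0))
  Bval : ∀ t, t [] ≤ D → τ t ≠ ⊤ → g t = 0 →
    τ t = (∑ i ∈ range (t []), a (sub t i))⁻¹
  C : ∀ t, t [] ≤ D → (g t ≠ 0 ↔ ((∀ i < t [], τ (sub t i) ≠ ⊤) ∧
    lam + ∑ i ∈ range (t []), g (sub t i) ≠ 0))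
  Cval : ∀ t, t [] ≤ D → g t ≠ 0 → g t * (lam + ∑ i ∈ range (t []), g (sub t i)) = -1 ∧
    τ t = ENNReal.ofReal (g t ^ 2) * (1 + ∑ i ∈ range (t []), τ (sub t i))
  gtop : ∀ t, g t ≠ 0 → τ t ≠ ⊤
  E : ∀ t, a t ≠ 0 → τ t = ⊤
  a_le : ∀ t, a t ≤ 1

/-- Bounded offspring numbers. -/
def Bdd (D : ℕ) (t : List ℕ → ℕ) : Prop := ∀ w, t w ≤ D

lemma Bdd.sub {D : ℕ} {t : List ℕ → ℕ} (h : Bdd D t) (i : ℕ) : Bdd D (sub t i) :=
  fun w => h (i :: w)

lemma Bdd.rem {D : ℕ} {t : List ℕ → ℕ} (h : Bdd D t) (i : ℕ) : Bdd D (rem t i) := by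
  intro w
  cases w with
  | nil => rw [rem_nil]; exact (Nat.sub_le _ _).trans (h [])
  | cons j w => exact h (skip i j :: w)

/-- One plus the sum of `τ` over the children. -/
noncomputable def WW (τ : (List ℕ → ℕ) → ENNReal) (t : List ℕ → ℕ) : ENNReal :=
  1 + ∑ i ∈ range (t []), τ (sub t i)

/-- The flow. -/
noncomputable def XX (τ : (List ℕ → ℕ) → ENNReal) (t t' : List ℕ → ℕ) : ENNReal :=
  τ t / (τ t + WW τ t')

lemma WW_rem (τ : (List ℕ → ℕ) → ENNReal) (t : List ℕ → ℕ) (i : ℕ) (hi : i < t []) :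
    τ (sub t i) + WW τ (rem t i) = WW τ t := by
  unfold WW
  simp only [rem_nil, sub_rem]
  rw [← sum_skip (fun i => τ (sub t i)) (t []) i hi]
  ring

section

variable {D : ℕ} {lam : ℝ} {a τ : (List ℕ → ℕ) → ENNReal} {g : (List ℕ → ℕ) → ℝ}
  (R : Rules D lam a τ g)
include R

lemma lem_zz {t : List ℕ → ℕ} (ht : t [] ≤ D) {i : ℕ} (hi : i < t []) :
    g (sub t i) * g (rem t i) = 1 ↔ (a t ≠ 0 ∧ g (sub t i) ≠ 0) := by
  have hrem : rem t i [] ≤ D := by rw [rem_nil]; omega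
  have hs := sum_skip (fun i => g (sub t i)) (t []) i hi
  constructor
  · intro h
    have h1 : g (sub t i) ≠ 0 := left_ne_zero_of_mul_eq_one h
    have h2 : g (rem t i) ≠ 0 := right_ne_zero_of_mul_eq_one h
    refine ⟨?_, h1⟩
    obtain ⟨k1, _⟩ := (R.C _ hrem).1 h2
    obtain ⟨k2, _⟩ := R.Cval _ hrem h2
    rw [R.A t ht]
    refine ⟨?_, ?_⟩
    · intro j hj
      by_cases hji : j = i
      · rw [hji]; exact R.gtop _ h1
      · obtain ⟨l, hl, rfl⟩ := exists_skip hi hj hji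
        exact k1 l (by simpa using hl)
    · simp only [rem_nil, sub_rem] at k2
      rw [← hs]
      set x := g (sub t i)
      set y := g (rem t i)
      set s := ∑ j ∈ range (t [] - 1), g (sub t (skip i j))
      have h3 : y * (lam + (x + s)) = 0 := by
        have : y * (lam + (x + s)) = y * (lam + s) + x * y := by ring
        rw [this, k2, h]; ring
      exact (mul_eq_zero.1 h3).resolve_left h2
  · rintro ⟨h1, h2⟩
    obtain ⟨k1, k2⟩ := (R.A t ht).1 h1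
    rw [← hs] at k2
    have h3 : g (rem t i) ≠ 0 := by
      rw [R.C _ hrem]
      refine ⟨fun j hj => k1 _ (skip_lt hi (by simpa using hj)), ?_⟩
      simp only [rem_nil, sub_rem]
      intro h4
      apply h2
      linarith
    obtain ⟨k3, _⟩ := R.Cval _ hrem h3
    simp only [rem_nil, sub_rem] at k3
    have h5 : lam + ∑ j ∈ range (t [] - 1), g (sub t (skip i j)) = - g (sub t i) := by linarith
    rw [h5] at k3
    linarith

lemma lem_zs {t : List ℕ → ℕ} (ht : t [] ≤ D) {i : ℕ} (hi : i < t []) :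
    (τ (sub t i) ≠ ⊤ ∧ g (sub t i) = 0 ∧ a (rem t i) ≠ 0) ↔ (a t ≠ 0 ∧ g (sub t i) = 0) := by
  have hrem : rem t i [] ≤ D := by rw [rem_nil]; omega
  have hs := sum_skip (fun i => g (sub t i)) (t []) i hi
  constructor
  · rintro ⟨h1, h2, h3⟩
    refine ⟨?_, h2⟩
    obtain ⟨k1, k2⟩ := (R.A _ hrem).1 h3
    rw [R.A t ht]
    refine ⟨?_, ?_⟩
    · intro j hj
      by_cases hji : j = i
      · rw [hji]; exact h1
      · obtain ⟨l, hl, rfl⟩ := exists_skip hi hj hji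
        exact k1 l (by simpa using hl)
    · simp only [rem_nil, sub_rem] at k2
      rw [← hs]
      simp only [h2, zero_add]
      exact k2
  · rintro ⟨h1, h2⟩
    obtain ⟨k1, k2⟩ := (R.A t ht).1 h1
    refine ⟨k1 i hi, h2, ?_⟩
    rw [R.A _ hrem]
    refine ⟨fun j hj => k1 _ (skip_lt hi (by simpa using hj)), ?_⟩
    simp only [rem_nil, sub_rem]
    rw [← hs] at k2
    simp only [h2, zero_add] at k2
    exact k2

lemma lem_sz {t : List ℕ → ℕ} (ht : t [] ≤ D) {i : ℕ} (hi : i < t []) :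
    (τ (rem t i) ≠ ⊤ ∧ g (rem t i) = 0) ↔ ∃ j < t [], j ≠ i ∧ a (sub t j) ≠ 0 := by
  have hrem : rem t i [] ≤ D := by rw [rem_nil]; omega
  rw [← R.B _ hrem]
  simp only [rem_nil, sub_rem]
  constructor
  · rintro ⟨j, hj, h⟩
    exact ⟨skip i j, skip_lt hi hj, skip_ne i j, h⟩
  · rintro ⟨j, hj, hji, h⟩
    obtain ⟨l, hl, rfl⟩ := exists_skip hi hj hji
    exact ⟨l, hl, h⟩

lemma WW_ne_top {t : List ℕ → ℕ} (h : ∀ i < t [], τ (sub t i) ≠ ⊤) : WW τ t ≠ ⊤ := by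
  unfold WW
  exact ENNReal.add_ne_top.2 ⟨ENNReal.one_ne_top,
    ENNReal.sum_ne_top.2 fun i hi => h i (mem_range.1 hi)⟩

omit R in
lemma WW_ne_zero (τ : (List ℕ → ℕ) → ENNReal) (t : List ℕ → ℕ) : WW τ t ≠ 0 := by
  unfold WW; simp

/-- Pointwise identity (1). -/
lemma flow_Z {t : List ℕ → ℕ} (ht : t [] ≤ D) (ha : a t ≠ 0) :
    a t + ∑ i ∈ range (t []), XX τ (sub t i) (rem t i) = 1 := by
  have h1 := R.Aval t ht ha
  obtain ⟨k1, _⟩ := (R.A t ht).1 ha
  have hW : WW τ t ≠ ⊤ := WW_ne_top R k1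
  have h2 : ∀ i ∈ range (t []), XX τ (sub t i) (rem t i) = τ (sub t i) * (WW τ t)⁻¹ := by
    intro i hi
    unfold XX
    rw [WW_rem τ t i (mem_range.1 hi), div_eq_mul_inv]
  rw [sum_congr rfl h2, ← sum_mul]
  have h3 : a t = 1 * (WW τ t)⁻¹ := by rw [one_mul]; exact h1
  rw [h3, ← add_mul]
  exact ENNReal.mul_inv_cancel (WW_ne_zero τ t) hW

/-- Pointwise identity (3). -/
lemma flow_ZZ {t t' : List ℕ → ℕ} (ht : t [] ≤ D) (ht' : t' [] ≤ D) (h : g t * g t' = 1) :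
    XX τ t t' + XX τ t' t = 1 := by
  have h1 : g t ≠ 0 := left_ne_zero_of_mul_eq_one h
  have h2 : g t' ≠ 0 := right_ne_zero_of_mul_eq_one h
  obtain ⟨_, e1⟩ := R.Cval t ht h1
  obtain ⟨_, e2⟩ := R.Cval t' ht' h2
  obtain ⟨k1, _⟩ := (R.C t ht).1 h1
  obtain ⟨k2, _⟩ := (R.C t' ht').1 h2
  have w1 : WW τ t ≠ ⊤ := WW_ne_top R k1
  have w2 : WW τ t' ≠ ⊤ := WW_ne_top R k2
  have w3 := WW_ne_zero τ t
  have w4 := WW_ne_zero τ t'
  unfold XX
  have e1' : τ t = ENNReal.ofReal (g t ^ 2) * WW τ t := e1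
  have e2' : τ t' = ENNReal.ofReal (g t' ^ 2) * WW τ t' := e2
  rw [e1', e2']
  set G := ENNReal.ofReal (g t ^ 2) with hG
  set G' := ENNReal.ofReal (g t' ^ 2) with hG'
  have hGG : G * G' = 1 := by
    rw [hG, hG', ← ENNReal.ofReal_mul (sq_nonneg _), ← mul_pow, h]; simp
  have hG0 : G ≠ 0 := left_ne_zero_of_mul_eq_one hGG
  have hGt : G ≠ ⊤ := ENNReal.ofReal_ne_top
  have e3 : G' * WW τ t' / (G' * WW τ t' + WW τ t) = WW τ t' / (G * WW τ t + WW τ t') := by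
    rw [← ENNReal.mul_div_mul_left (G' * WW τ t') (G' * WW τ t' + WW τ t) hG0 hGt]
    rw [mul_add, ← mul_assoc, hGG, one_mul]
    rw [add_comm]
  rw [e3, ENNReal.div_add_div_same]
  apply ENNReal.div_self
  · simp [w4]
  · exact ENNReal.add_ne_top.2 ⟨ENNReal.mul_ne_top hGt w1, w2⟩

/-- Pointwise identity (2). -/
lemma flow_S {t : List ℕ → ℕ} (ht : Bdd D t) {i₀ j₀ : ℕ} (hi₀ : i₀ < t []) (hj₀ : j₀ < t [])
    (hne : i₀ ≠ j₀) (hi : a (sub t i₀) ≠ 0) (hj : a (sub t j₀) ≠ 0) :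
    ∑ i ∈ range (t []), (if a (sub t i) ≠ 0 then XX τ (rem t i) (sub t i) else 0) = 1 := by
  set sa := ∑ i ∈ range (t []), a (sub t i) with hsa
  have hatop : ∀ t, a t ≠ ⊤ := fun t => ne_top_of_le_ne_top ENNReal.one_ne_top (R.a_le t)
  have hst : sa ≠ ⊤ := ENNReal.sum_ne_top.2 fun i _ => hatop _
  have hs0 : sa ≠ 0 := by
    intro h
    exact hi (Finset.sum_eq_zero_iff.1 h i₀ (mem_range.2 hi₀))
  have key : ∀ i ∈ range (t []), (if a (sub t i) ≠ 0 then XX τ (rem t i) (sub t i) else 0)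
      = a (sub t i) * sa⁻¹ := by
    intro i hir
    rw [mem_range] at hir
    split_ifs with h
    · -- another child of type (i)
      have hex : ∃ j < t [], j ≠ i ∧ a (sub t j) ≠ 0 := by
        by_cases h0 : i₀ = i
        · exact ⟨j₀, hj₀, by rw [← h0]; exact hne.symm, hj⟩
        · exact ⟨i₀, hi₀, h0, hi⟩
      obtain ⟨k1, k2⟩ := (lem_sz R (ht []) hir).2 hex
      have k3 := R.Bval (rem t i) (ht.rem i []) k1 k2
      simp only [rem_nil, sub_rem] at k3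
      set A' := ∑ j ∈ range (t [] - 1), a (sub t (skip i j)) with hA'
      have hsum : a (sub t i) + A' = sa := sum_skip (fun i => a (sub t i)) (t []) i hir
      have hA't : A' ≠ ⊤ := ENNReal.sum_ne_top.2 fun i _ => hatop _
      have hA'0 : A' ≠ 0 := by
        intro h0
        apply k1
        rw [k3, h0, ENNReal.inv_zero]
      have k4 : WW τ (sub t i) = (a (sub t i))⁻¹ := by
        rw [R.Aval _ (ht.sub i []) h, inv_inv]; rfl
      unfold XX
      rw [k3, k4]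
      have hx := h
      have hxt := hatop (sub t i)
      have e1 : A'⁻¹ / (A'⁻¹ + (a (sub t i))⁻¹) = a (sub t i) / (a (sub t i) + A') := by
        rw [← ENNReal.mul_div_mul_left (A'⁻¹) (A'⁻¹ + (a (sub t i))⁻¹)
          (mul_ne_zero hA'0 hx) (ENNReal.mul_ne_top hA't hxt)]
        congr 1
        · rw [mul_comm A', mul_assoc, ENNReal.mul_inv_cancel hA'0 hA't, mul_one]
        · rw [mul_add, mul_assoc A' (a (sub t i)) (a (sub t i))⁻¹,
            ENNReal.mul_inv_cancel hx hxt, mul_one, mul_comm A', mul_assoc,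
            ENNReal.mul_inv_cancel hA'0 hA't, mul_one]
      rw [e1, hsum, div_eq_mul_inv]
    · rw [not_not] at h
      rw [h, zero_mul]
  rw [sum_congr rfl key, ← sum_mul, ← hsa]
  exact ENNReal.mul_inv_cancel hs0 hst

end

end Pool.Agent.Helper331_ugw
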