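import Pool.Agent.Helper331_ugw.Tree

set_option autoImplicit false
set_option linter.deprecated false
set_option linter.unusedSectionVars false

open Filter Topology Finset MeasureTheory

namespace Pool.Agent.Helper331_ugw

lemma prod_option {κ M : Type*} [CommMonoid M] [DecidableEq κ] (S : Finset (Option κ))
    (f : Option κ → M) :
    ∏ o ∈ S, f o = (if none ∈ S then f none else 1) * ∏ k ∈ eraseNone S, f (some k) := by
  have h1 : ∏ k ∈ eraseNone S, f (some k) = ∏ o ∈ S.erase none, f o := by
    rw [← map_some_eraseNone, prod_map]; rfl
  rw [h1]
  split_ifs with h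
  · rw [mul_prod_erase S f h]
  · rw [one_mul, erase_eq_of_notMem h]

/-- Splitting one coordinate off an infinite product measure. -/
theorem infinitePi_option {ι κ X : Type*} [MeasurableSpace X] (e : Option κ ≃ ι)
    (μ : ι → Measure X) [∀ i, IsProbabilityMeasure (μ i)] :
    (Measure.infinitePi μ).map (fun x => (x (e none), fun k => x (e (some k))))
      = (μ (e none)).prod (Measure.infinitePi fun k => μ (e (some k))) := by
  classical
  set J : X × (κ → X) → (ι → X) := fun p i => Option.elim (e.symm i) p.1 p.2 with hJ
  have hJm : Measurable J := by
    rw [measurable_pi_iff]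
    intro i
    cases h : e.symm i with
    | none => simp only [hJ, h, Option.elim]; exact measurable_fst
    | some k =>
      simp only [hJ, h, Option.elim]
      exact (measurable_pi_apply k).comp measurable_snd
  have hsm : Measurable (fun x : ι → X => (x (e none), fun k => x (e (some k)))) := by
    apply Measurable.prodMk (measurable_pi_apply _)
    rw [measurable_pi_iff]
    intro k
    exact measurable_pi_apply _
  have hkey : ((μ (e none)).prod (Measure.infinitePi fun k => μ (e (some k)))).map J
      = Measure.infinitePi μ := by
    apply Measure.eq_infinitePi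
    intro s t ht
    rw [Measure.map_apply hJm (MeasurableSet.pi s.countable_toSet fun i _ => ht i)]
    set S : Finset (Option κ) := s.map e.symm.toEmbedding with hS
    have hmem : ∀ o, o ∈ S ↔ e o ∈ s := by
      intro o
      simp only [hS, mem_map_equiv, Equiv.symm_symm]
    have hpre : J ⁻¹' (Set.pi s t) = (if none ∈ S then t (e none) else Set.univ) ×ˢ
        (Set.pi (eraseNone S : Finset κ) fun k => t (e (some k))) := by
      ext ⟨a, y⟩
      simp only [Set.mem_preimage, Set.mem_pi, Set.mem_prod, mem_coe, mem_eraseNone]
      constructor
      · intro h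
        constructor
        · split_ifs with h0
          · have := h (e none) ((hmem none).1 h0)
            simpa [hJ] using this
          · trivial
        · intro k hk
          have := h (e (some k)) ((hmem _).1 hk)
          simpa [hJ] using this
      · rintro ⟨h1, h2⟩ i hi
        obtain ⟨o, rfl⟩ := e.surjective i
        cases o with
        | none =>
          rw [if_pos ((hmem none).2 hi)] at h1
          simpa [hJ] using h1
        | some k =>
          have := h2 k ((hmem _).2 hi)
          simpa [hJ] using this
    rw [hpre, Measure.prod_prod, Measure.infinitePi_pi _ (fun k _ => ht _)]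
    have h3 : ∏ i ∈ s, μ i (t i) = ∏ o ∈ S, μ (e o) (t (e o)) := by
      rw [hS, prod_map]
      apply prod_congr rfl
      intro i _
      change _ = μ (e (e.symm i)) (t (e (e.symm i)))
      rw [Equiv.apply_symm_apply]
    rw [h3, prod_option]
    congr 1
    split_ifs <;> simp
  rw [← hkey, Measure.map_map hsm hJm]
  convert Measure.map_id using 1
  congr 1
  funext p
  simp [hJ]

/-- The law of a tree with root offspring law `r` and other offspring laws `q`. -/
noncomputable def Law (r q : Measure ℕ) : Measure (List ℕ → ℕ) :=
  Measure.infinitePi (fun w => if w = [] then r else q)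

section

variable (r q : Measure ℕ) [IsProbabilityMeasure r] [IsProbabilityMeasure q]

instance instLawAux (w : List ℕ) : IsProbabilityMeasure (if w = [] then r else q) := by
  split_ifs <;> infer_instance

instance : IsProbabilityMeasure (Law r q) := by
  unfold Law; infer_instance

/-- Joining a root with a sequence of trees. -/
def join (k : ℕ) (s : ℕ → List ℕ → ℕ) : List ℕ → ℕ
  | [] => k
  | i :: w => s i w

@[simp] lemma join_nil (k : ℕ) (s : ℕ → List ℕ → ℕ) : join k s [] = k := rfl
@[simp] lemma sub_join (k : ℕ) (s : ℕ → List ℕ → ℕ) (i : ℕ) : sub (join k s) i = s i := rfl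

lemma join_eta (t : List ℕ → ℕ) : join (t []) (fun i => sub t i) = t := by
  funext w; cases w <;> rfl

lemma measurable_sub (i : ℕ) : Measurable (fun t : List ℕ → ℕ => sub t i) := by
  rw [measurable_pi_iff]; intro w; exact measurable_pi_apply _

lemma measurable_split : Measurable (fun t : List ℕ → ℕ => (t [], fun i => sub t i)) := by
  apply Measurable.prodMk (measurable_pi_apply _)
  rw [measurable_pi_iff]; intro i; exact measurable_sub i

lemma measurable_join : Measurable (fun p : ℕ × (ℕ → List ℕ → ℕ) => join p.1 p.2) := by
  rw [measurable_pi_iff]
  intro w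
  cases w with
  | nil => exact measurable_fst
  | cons i w =>
    simp only [join]
    exact (measurable_pi_apply w).comp ((measurable_pi_apply i).comp measurable_snd)

lemma law_split : (Law r q).map (fun t => (t [], fun i => sub t i))
    = r.prod (Measure.infinitePi (fun _ : ℕ => Law q q)) := by
  have h1 := infinitePi_option listEquiv (fun w => if w = [] then r else q)
  have e1 : (fun x : List ℕ → ℕ => (x (listEquiv none), fun k => x (listEquiv (some k))))
      = fun x => (x [], fun p : ℕ × List ℕ => x (p.1 :: p.2)) := rfl
  rw [e1] at h1
  have e2 : (if listEquiv none = [] then r else q) = r := by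
    simp [listEquiv]
  have e3 : (fun k : ℕ × List ℕ => (fun w : List ℕ => if w = [] then r else q)
      (listEquiv (some k))) = fun _ => q := by
    funext k
    simp [listEquiv]
  have hm2 : Measurable (fun x : List ℕ → ℕ => (x [], fun p : ℕ × List ℕ => x (p.1 :: p.2))) := by
    apply Measurable.prodMk (measurable_pi_apply _)
    rw [measurable_pi_iff]; intro p; exact measurable_pi_apply _
  have e4 : (fun t : List ℕ → ℕ => (t [], fun i => sub t i)) =
      (Prod.map id (MeasurableEquiv.curry ℕ (List ℕ) ℕ)) ∘
        (fun x : List ℕ → ℕ => (x [], fun p : ℕ × List ℕ => x (p.1 :: p.2))) := by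
    funext x
    rfl
  rw [e4, ← Measure.map_map (measurable_id.prodMap (MeasurableEquiv.measurable _)) hm2]
  unfold Law
  rw [h1]
  rw [e2]
  have e6 : ∀ (μ : ℕ × List ℕ → Measure ℕ) [∀ i, IsProbabilityMeasure (μ i)],
      μ = (fun _ => q) → (r.prod (Measure.infinitePi μ)).map
      (Prod.map id (MeasurableEquiv.curry ℕ (List ℕ) ℕ)) =
      r.prod (Measure.infinitePi fun _ : ℕ => Measure.infinitePi fun _ : List ℕ => q) := by
    intro μ _ hμ
    subst hμ
    rw [← Measure.map_prod_map _ _ measurable_id (MeasurableEquiv.measurable _), Measure.map_id]
    congr 1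
    exact Measure.infinitePi_map_curry (fun (_ : ℕ) (_ : List ℕ) => q)
  rw [e6 _ e3]
  congr 1
  congr 1
  funext i
  congr 1
  funext w
  simp

end

end Pool.Agent.Helper331_ugw
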