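import Pool.Agent.Helper331_ugw.Rules

set_option autoImplicit false
set_option linter.deprecated false
set_option linter.unusedSectionVars false

open Filter Topology Finset MeasureTheory Polynomial

namespace Pool.Agent.Helper331_ugw

lemma measurableSet_node (w : List ℕ) : MeasurableSet {t : List ℕ → ℕ | Node t w} := by
  have : {t : List ℕ → ℕ | Node t w} =
      ⋂ j : ℕ, {t : List ℕ → ℕ | j < w.length → w.getD j 0 < t (w.take j)} := by
    ext t
    simp [Node]
  rw [this]
  apply MeasurableSet.iInter
  intro j
  by_cases hj : j < w.length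
  · simp only [hj, true_imp_iff]
    exact measurableSet_lt measurable_const (measurable_pi_apply _)
  · simp [hj]

lemma measurable_AT {D : ℕ} {f : (List ℕ → ℕ) → Hs}
    (hf : ∀ w, Measurable (fun t => (f t) w)) (w : List ℕ) :
    Measurable (fun t => (AT D t (f t)) w) := by
  classical
  have e : (fun t => (AT D t (f t)) w) = fun t => if Node t w then
      (∑ j ∈ range D, if j < t w then (f t) (w ++ [j]) else 0)
      + pa D (fun v => if Node t v then (f t) v else 0) w else 0 := by
    funext t
    rw [AT_apply]
  rw [e]
  apply Measurable.ite (measurableSet_node w) _ measurable_const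
  apply Measurable.add
  · apply Finset.measurable_sum
    intro j _
    apply Measurable.ite _ (hf _) measurable_const
    exact measurableSet_lt measurable_const (measurable_pi_apply _)
  · unfold pa
    split_ifs
    · exact measurable_const
    · exact Measurable.ite (measurableSet_node _) (hf _) measurable_const
    · exact measurable_const

lemma measurable_AT_pow (D : ℕ) (k : ℕ) (w : List ℕ) :
    Measurable (fun t => ((AT D t ^ k) (dl [])) w) := by
  induction k generalizing w with
  | zero => simp only [pow_zero, ContinuousLinearMap.one_apply]; exact measurable_const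
  | succ k ih =>
    simp only [pow_succ', ContinuousLinearMap.mul_apply]
    exact measurable_AT ih w

/-- `⟪p(A_t) δ, δ⟫`. -/
noncomputable def pv (D : ℕ) (p : ℝ[X]) (t : List ℕ → ℕ) : ℝ :=
  (aeval (AT D t) p (dl [])) []

lemma measurable_pv (D : ℕ) (p : ℝ[X]) : Measurable (pv D p) := by
  have e : pv D p = fun t => ∑ i ∈ range (p.natDegree + 1),
      p.coeff i * ((AT D t ^ i) (dl [])) [] := by
    funext t
    unfold pv
    rw [aeval_eq_sum_range, ContinuousLinearMap.sum_apply, lp.coeFn_sum, Finset.sum_apply]
    rfl
  rw [e]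
  apply Finset.measurable_sum
  intro i _
  exact (measurable_AT_pow D i []).const_mul _

/-- The polynomial `1 - (X - lam)²/M`. -/
noncomputable def pB (lam M : ℝ) : ℝ[X] := 1 - C (1 / M) * ((X - C lam) * (X - C lam))

lemma aeval_X_sub (D : ℕ) (lam : ℝ) (t : List ℕ → ℕ) :
    aeval (AT D t) (X - C lam) = LT D lam t := by
  rw [map_sub, aeval_X, aeval_C, Algebra.algebraMap_eq_smul_one]
  rfl

lemma aeval_pB (D : ℕ) (lam M : ℝ) (t : List ℕ → ℕ) :
    aeval (AT D t) (pB lam M) = BB (LT D lam t) M := by
  unfold pB BB
  rw [map_sub, map_mul, map_mul, aeval_X_sub, map_one, aeval_C, Algebra.algebraMap_eq_smul_one,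
    smul_mul_assoc, one_mul]

lemma bb_eq_pv (D : ℕ) (lam M : ℝ) (t : List ℕ → ℕ) (n : ℕ) :
    bb (LT D lam t) M (dl []) n = pv D (pB lam M ^ n) t := by
  unfold bb pv
  rw [inner_dl', map_pow, aeval_pB]

lemma measurable_bb (D : ℕ) (lam M : ℝ) (n : ℕ) :
    Measurable (fun t => bb (LT D lam t) M (dl []) n) := by
  simp only [bb_eq_pv]
  exact measurable_pv D _

lemma measurable_tT (D : ℕ) (lam M : ℝ) : Measurable (tT D lam M) := by
  unfold tT
  apply Measurable.iSup
  intro n
  apply ENNReal.measurable_ofReal.comp
  unfold ss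
  apply Measurable.const_mul
  apply Finset.measurable_sum
  intro k _
  exact measurable_bb D lam M k

lemma measurable_aT {D : ℕ} {lam M : ℝ} (hM : GoodM D lam M) : Measurable (aT D lam M) := by
  unfold aT
  apply ENNReal.measurable_ofReal.comp
  apply measurable_of_tendsto_metrizable (f := fun n t => bb (LT D lam t) M (dl []) n)
    (fun n => measurable_bb D lam M n)
  rw [tendsto_pi_nhds]
  intro t
  exact bb_tendsto (LT_sym D lam t) hM.1 (LT_bound D lam M hM t) _

lemma measurable_gT (D : ℕ) (lam M : ℝ) : Measurable (gT D lam M) := by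
  classical
  unfold gT
  apply Measurable.ite
  · exact measurable_tT D lam M (measurableSet_singleton _)
  · exact measurable_const
  · apply Measurable.limsup
    intro n
    have e : (fun t => inner ℝ (LT D lam t (sg (LT D lam t) M (dl []) n)) (dl []))
        = fun t => (1 / M) * ∑ k ∈ range n, pv D ((X - C lam) * pB lam M ^ k) t := by
      funext t
      rw [inner_dl']
      unfold sg pv
      have e1 : ∀ k, (aeval (AT D t) ((X - C lam) * pB lam M ^ k)) (dl [])
          = LT D lam t ((BB (LT D lam t) M ^ k) (dl [])) := by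
        intro k
        rw [map_mul, map_pow, aeval_X_sub, aeval_pB]
        rfl
      simp only [e1]
      rw [map_smul, map_sum]
      have e2 : ((1 / M) • ∑ k ∈ range n, LT D lam t ((BB (LT D lam t) M ^ k) (dl [])) : Hs) []
        = (1 / M) * (∑ k ∈ range n, LT D lam t ((BB (LT D lam t) M ^ k) (dl [])) : Hs) [] := rfl
      rw [e2, lp.coeFn_sum, Finset.sum_apply]
    rw [e]
    apply Measurable.const_mul
    apply Finset.measurable_sum
    intro k _
    exact measurable_pv D _

lemma aT_le_one {D : ℕ} {lam M : ℝ} (hM : GoodM D lam M) (t : List ℕ → ℕ) : aT D lam M t ≤ 1 := by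
  unfold aT
  rw [ENNReal.ofReal_le_one]
  refine (aa_le (LT_sym D lam t) hM.1 (LT_bound D lam M hM t) _ 0).trans ?_
  rw [bb_zero]
  have : ‖(dl [] : Hs)‖ ^ 2 = 1 := by
    rw [← real_inner_self_eq_norm_sq, inner_dl', dl_apply, if_pos rfl]
  rw [this]

end Pool.Agent.Helper331_ugw
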