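import Pool.Agent.Helper331_ugw.FlowInt

set_option autoImplicit false
set_option linter.deprecated false
set_option linter.unusedSectionVars false

open Filter Topology Finset MeasureTheory

namespace Pool.Agent.Helper331_ugw

lemma inC_finite {g : (List ℕ → ℕ) → ℝ} {t : List ℕ → ℕ} (h : nC g t ≠ ⊤) :
    {w | inC g t w}.Finite := by
  classical
  by_contra hinf
  apply h
  unfold nC
  have h6 : ∑' w, (if inC g t w then (1:ENNReal) else 0)
      = ∑' w : {w | inC g t w}, (1 : ENNReal) := by
    rw [tsum_subtype {w | inC g t w} (fun _ => (1 : ENNReal))]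
    apply tsum_congr
    intro w
    simp [Set.indicator]
  haveI : Infinite {w | inC g t w} := Set.infinite_coe_iff.2 hinf
  rw [h6]
  exact ENNReal.tsum_const_eq_top_of_ne_zero one_ne_zero

lemma nC_card {g : (List ℕ → ℕ) → ℝ} {t : List ℕ → ℕ} (h : nC g t ≠ ⊤) :
    nC g t = ((inC_finite h).toFinset.card : ℕ) := by
  classical
  unfold nC
  rw [tsum_eq_sum (s := (inC_finite h).toFinset)]
  · rw [Finset.sum_congr rfl (g := fun _ => (1:ENNReal))]
    · simp
    · intro w hw
      rw [Set.Finite.mem_toFinset] at hw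
      exact if_pos hw
  · intro w hw
    rw [Set.Finite.mem_toFinset] at hw
    exact if_neg hw

lemma nC_nat {g : (List ℕ → ℕ) → ℝ} {t : List ℕ → ℕ} (h : nC g t ≠ ⊤) :
    ∃ N : ℕ, nC g t = N := ⟨_, nC_card h⟩

section laws

variable (r q : Measure ℕ) [IsProbabilityMeasure r] [IsProbabilityMeasure q]

lemma law_sub (i : ℕ) : (Law r q).map (fun t => sub t i) = Law q q := by
  have h1 : (fun t : List ℕ → ℕ => sub t i) = (fun s : ℕ → List ℕ → ℕ => s i) ∘ Prod.snd ∘
      (fun t : List ℕ → ℕ => (t [], fun i => sub t i)) := rfl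
  rw [h1, ← Measure.map_map (measurable_pi_apply i) (measurable_snd.comp measurable_split),
    ← Measure.map_map measurable_snd measurable_split, law_split, Measure.map_snd_prod]
  simp only [measure_univ, one_smul]
  exact Measure.infinitePi_map_eval (fun _ : ℕ => Law q q) i

lemma law_sub_apply (i : ℕ) {S : Set (List ℕ → ℕ)} (hS : MeasurableSet S) :
    Law r q {t | sub t i ∈ S} = Law q q S := by
  rw [← law_sub r q i, Measure.map_apply (measurable_sub i) hS]
  rfl

lemma ae_law_sub {P : (List ℕ → ℕ) → Prop} (h : ∀ᵐ t ∂(Law q q), P t) (i : ℕ) :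
    ∀ᵐ t ∂(Law r q), P (sub t i) := by
  rw [← law_sub r q i] at h
  exact ae_of_ae_map (measurable_sub i).aemeasurable h

lemma law_rect {B : Set (ℕ → List ℕ → ℕ)} (hB : MeasurableSet B) (A : Set ℕ) :
    Law r q {t | t [] ∈ A ∧ (fun i => sub t i) ∈ B} = r A * LawN q B := by
  have h1 : {t : List ℕ → ℕ | t [] ∈ A ∧ (fun i => sub t i) ∈ B}
      = (fun t : List ℕ → ℕ => (t [], fun i => sub t i)) ⁻¹' (A ×ˢ B) := rfl
  rw [h1, ← Measure.map_apply measurable_split ((Set.to_countable A).measurableSet.prod hB),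
    law_split, Measure.prod_prod]

lemma lawN_pow {ψ : (List ℕ → ℕ) → ENNReal} (hψ : Measurable ψ) (k : ℕ) :
    ∫⁻ s, ∏ i ∈ range k, ψ (s i) ∂(LawN q) = (∫⁻ t, ψ t ∂(Law q q)) ^ k := by
  induction k with
  | zero => simp
  | succ k ih =>
    have hm : Measurable (fun s : ℕ → List ℕ → ℕ => ∏ i ∈ range k, ψ (s i)) :=
      Finset.measurable_prod _ fun i _ => hψ.comp (measurable_pi_apply i)
    have h1 := lawN_split q 0 (fun p => ψ p.1 * ∏ i ∈ range k, ψ (p.2 i))
      ((hψ.comp measurable_fst).mul (hm.comp measurable_snd))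
    have h2 : ∀ s : ℕ → List ℕ → ℕ, ∏ i ∈ range (k + 1), ψ (s i)
        = ψ (s 0) * ∏ i ∈ range k, ψ (s (skip 0 i)) := by
      intro s
      rw [prod_range_succ']
      simp [skip, mul_comm]
    simp only [h2]
    rw [h1]
    simp only [lintegral_const_mul _ hm, ih]
    rw [lintegral_mul_const _ hψ, pow_succ']

end laws

section

variable {D : ℕ} {lam : ℝ} {a τ : (List ℕ → ℕ) → ENNReal} {g : (List ℕ → ℕ) → ℝ}
  (R : Rules D lam a τ g)
include R

/-- Trees of the second type with vanishing value. -/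
def TA (τ : (List ℕ → ℕ) → ENNReal) (g : (List ℕ → ℕ) → ℝ) : Set (List ℕ → ℕ) :=
  {t | τ t ≠ ⊤ ∧ g t = 0}

lemma measurableSet_TA : MeasurableSet (TA τ g) :=
  (R.mt (measurableSet_singleton _).compl).inter (R.mg (measurableSet_singleton _))

/-- `θ ≤ D α`. -/
lemma theta_le (q : Measure ℕ) [IsProbabilityMeasure q] (hq : q (Set.Ioi D) = 0) :
    Law q q (TA τ g) ≤ D * Law q q {t | a t ≠ 0} := by
  have hA := measurableSet_Z R.ma
  have h1 : Law q q (TA τ g) ≤ Law q q (⋃ i ∈ range D, {t | sub t i ∈ {t | a t ≠ 0}}) := by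
    apply measure_mono_ae
    filter_upwards [ae_Bdd hq hq] with t ht h
    obtain ⟨i, hi, hai⟩ := (R.B t (ht [])).2 h
    exact Set.mem_iUnion₂.2 ⟨i, mem_range.2 (lt_of_lt_of_le hi (ht [])), hai⟩
  refine h1.trans ((measure_biUnion_finset_le _ _).trans ?_)
  simp only [law_sub_apply q q _ hA]
  simp

/-- `α ≤ θ`. -/
lemma alpha_le_theta (q : Measure ℕ) [IsProbabilityMeasure q] (hq : q (Set.Ioi D) = 0)
    (hq0 : q {0} = 0) : Law q q {t | a t ≠ 0} ≤ Law q q (TA τ g) := by
  have hA := measurableSet_Z R.ma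
  rw [← law_sub_apply q q 0 hA]
  apply measure_mono_ae
  have h0 : ∀ᵐ t ∂(Law q q), t [] ≠ 0 := by
    have h2 : (Law q q).map (fun t => t []) = q := by
      unfold Law
      have := Measure.infinitePi_map_eval (fun w : List ℕ => if w = [] then q else q) []
      simpa using this
    have h1 : Law q q {t | ¬ t [] ≠ 0} = 0 := by
      have h3 : {t : List ℕ → ℕ | ¬ t [] ≠ 0} = (fun t => t []) ⁻¹' {0} := by
        ext t; simp
      rw [h3, ← Measure.map_apply (measurable_pi_apply _) (measurableSet_singleton 0), h2]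
      exact hq0
    exact h1
  filter_upwards [ae_Bdd hq hq, h0] with t ht h0 h
  exact (R.B t (ht [])).1 ⟨0, Nat.pos_of_ne_zero h0, h⟩

/-- `α² ≤ P(S)`. -/
lemma alpha_sq_le (r q : Measure ℕ) [IsProbabilityMeasure r] [IsProbabilityMeasure q]
    (hr2 : r (Set.Iio 2) = 0) :
    Law q q {t | a t ≠ 0} * Law q q {t | a t ≠ 0} ≤ Law r q (SS a) := by
  have hA := measurableSet_Z R.ma
  set B : Set (ℕ → List ℕ → ℕ) := Set.pi ({0, 1} : Finset ℕ) (fun _ => {t | a t ≠ 0}) with hB
  have hBm : MeasurableSet B := MeasurableSet.pi (Finset.countable_toSet _) fun _ _ => hA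
  have h1 := law_rect r q hBm (Set.Ici 2)
  have h2 : r (Set.Ici 2) = 1 := by
    have h3 : (Set.Ici 2 : Set ℕ) = (Set.Iio 2)ᶜ := by ext; simp
    rw [h3, prob_compl_eq_one_sub (measurableSet_Iio), hr2, tsub_zero]
  have h3 : LawN q B = Law q q {t | a t ≠ 0} * Law q q {t | a t ≠ 0} := by
    rw [hB, Measure.infinitePi_pi _ (fun _ _ => hA), Finset.prod_pair zero_ne_one]
  rw [h2, one_mul, h3] at h1
  rw [← h1]
  apply measure_mono
  rintro t ⟨h4, h5⟩
  rw [hB, Set.mem_pi] at h5
  have h4' : 2 ≤ t [] := h4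
  exact ⟨0, by omega, 1, by omega, zero_ne_one, h5 0 (by simp), h5 1 (by simp)⟩

/-- No infinite blocks above a separator. -/
theorem infinite_null_Q (r q : Measure ℕ) [IsProbabilityMeasure r] [IsProbabilityMeasure q]
    (hr : r (Set.Ioi D) = 0) (hq : q (Set.Ioi D) = 0) (m : ENNReal) (hm0 : m ≠ 0)
    (hrq : ∀ k : ℕ, ((k : ENNReal) + 1) * r {k + 1} = m * q {k})
    (hth : Law q q (TA τ g) ≠ 0) :
    Law q q {t | a t ≠ 0 ∧ nC g t = ⊤} = 0 := by
  classical
  set Zs : Set (List ℕ → ℕ) := {t | a t ≠ 0 ∧ nC g t = ⊤} with hZs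
  have hZm : MeasurableSet Zs :=
    (measurableSet_Z R.ma).inter (measurable_nC R.mg (measurableSet_singleton _))
  have hTm := measurableSet_TA R
  set F : (List ℕ → ℕ) → (List ℕ → ℕ) → ENNReal := fun t t' =>
    (TA τ g).indicator 1 t * Zs.indicator 1 t' with hF
  have hFm : Measurable (Function.uncurry F) := by
    have h1 : Measurable ((TA τ g).indicator (1 : (List ℕ → ℕ) → ENNReal)) :=
      measurable_one.indicator hTm
    have h2 : Measurable (Zs.indicator (1 : (List ℕ → ℕ) → ENNReal)) :=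
      measurable_one.indicator hZm
    exact (h1.comp measurable_fst).mul (h2.comp measurable_snd)
  have h1 := edge_formula r q m hrq F hFm
  have h2 : ∫⁻ t, ∑ i ∈ range (t []), F (sub t i) (rem t i) ∂(Law r q) = 0 := by
    rw [lintegral_eq_zero_iff (measurable_sum_pair hFm)]
    filter_upwards [ae_Bdd hr hq, infinite_null R r q hr hq m hrq] with t ht hnull
    rw [Pi.zero_apply]
    apply sum_eq_zero
    intro i hi
    rw [mem_range] at hi
    simp only [hF]
    by_cases h3 : sub t i ∈ TA τ g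
    · by_cases h4 : rem t i ∈ Zs
      · exfalso
        apply hnull
        obtain ⟨h5, _⟩ := (lem_zs R (ht []) hi).1 ⟨h3.1, h3.2, h4.1⟩
        refine ⟨h5, ?_⟩
        rw [nC_rec, ← sum_skip (fun i => nI g (sub t i)) (t []) i hi]
        have h6 := h4.2
        rw [nC_rec] at h6
        simp only [rem_nil, sub_rem] at h6
        rw [add_left_comm, h6]
        simp
      · rw [Set.indicator_of_notMem h4, mul_zero]
    · rw [Set.indicator_of_notMem h3, zero_mul]
  have h3 : ∫⁻ t, ∫⁻ t', F t t' ∂(Law q q) ∂(Law q q) = Law q q (TA τ g) * Law q q Zs := by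
    simp only [hF]
    have h4 : ∀ t, ∫⁻ t', (TA τ g).indicator 1 t * Zs.indicator 1 t' ∂(Law q q)
        = (TA τ g).indicator 1 t * Law q q Zs := by
      intro t
      rw [lintegral_const_mul _ (measurable_one.indicator hZm), lintegral_indicator_one hZm]
    simp only [h4]
    rw [lintegral_mul_const _ (measurable_one.indicator hTm), lintegral_indicator_one hTm]
  rw [h2, h3] at h1
  have h5 := h1.symm
  rw [mul_eq_zero, mul_eq_zero] at h5
  rcases h5 with h | h | h
  · exact absurd h hm0
  · exact absurd h hth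
  · exact h

open scoped Classical in
/-- The factor of a child. -/
noncomputable def psi (τ : (List ℕ → ℕ) → ENNReal) (g : (List ℕ → ℕ) → ℝ)
    (e : (List ℕ → ℕ) → ENNReal) (t : List ℕ → ℕ) : ENNReal :=
  (TA τ g).indicator 1 t + {t | g t ≠ 0}.indicator e t

/-- Weights of finite blocks, by depth. -/
noncomputable def EE (x : ENNReal) (τ : (List ℕ → ℕ) → ENNReal) (g : (List ℕ → ℕ) → ℝ) :
    ℕ → (List ℕ → ℕ) → ENNReal
  | 0, _ => 0
  | d + 1, t => x * ∏ i ∈ range (t []), psi τ g (EE x τ g d) (sub t i)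

lemma measurable_psi {e : (List ℕ → ℕ) → ENNReal} (he : Measurable e) :
    Measurable (psi τ g e) := by
  unfold psi
  apply Measurable.add (measurable_one.indicator (measurableSet_TA R))
  exact he.indicator (R.mg (measurableSet_singleton 0).compl)

lemma measurable_EE (x : ENNReal) (d : ℕ) : Measurable (EE x τ g d) := by
  induction d with
  | zero => exact measurable_const
  | succ d ih =>
    change Measurable (fun t => x * ∏ i ∈ range (t []), psi τ g (EE x τ g d) (sub t i))
    apply Measurable.const_mul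
    apply measurable_comp_nat (F := fun k t => ∏ i ∈ range k, psi τ g (EE x τ g d) (sub t i))
      (measurable_pi_apply _)
    intro k
    exact Finset.measurable_prod _ fun i _ => (measurable_psi R ih).comp (measurable_sub i)

lemma integral_EE_succ (q : Measure ℕ) [IsProbabilityMeasure q] (x : ENNReal) (d : ℕ) :
    ∫⁻ t, EE x τ g (d + 1) t ∂(Law q q)
      = x * ∑' k, (∫⁻ t, psi τ g (EE x τ g d) t ∂(Law q q)) ^ k * q {k} := by
  have hψ := measurable_psi R (measurable_EE R x d)
  have hm : Measurable (fun t : List ℕ → ℕ =>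
      ∏ i ∈ range (t []), psi τ g (EE x τ g d) (sub t i)) := by
    apply measurable_comp_nat (F := fun k t => ∏ i ∈ range k, psi τ g (EE x τ g d) (sub t i))
      (measurable_pi_apply _)
    intro k
    exact Finset.measurable_prod _ fun i _ => hψ.comp (measurable_sub i)
  simp only [EE]
  rw [lintegral_const_mul _ hm]
  congr 1
  have hG : Measurable (fun p : ℕ × (ℕ → List ℕ → ℕ) =>
      ∏ i ∈ range p.1, psi τ g (EE x τ g d) (p.2 i)) := by
    apply measurable_from_prod_countable_right
    intro k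
    exact Finset.measurable_prod (range k) fun i _ => hψ.comp (measurable_pi_apply i)
  have h1 := lintegral_law q q (fun p => ∏ i ∈ range p.1, psi τ g (EE x τ g d) (p.2 i)) hG
  simp only at h1
  rw [h1]
  apply tsum_congr
  intro k
  rw [lawN_pow q hψ]

lemma integral_psi (q : Measure ℕ) [IsProbabilityMeasure q] (x : ENNReal) (d : ℕ) :
    ∫⁻ t, psi τ g (EE x τ g d) t ∂(Law q q)
      ≤ Law q q (TA τ g) + ∫⁻ t, EE x τ g d t ∂(Law q q) := by
  unfold psi
  rw [lintegral_add_left (measurable_one.indicator (measurableSet_TA R)),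
    lintegral_indicator_one (measurableSet_TA R)]
  gcongr
  exact Set.indicator_le_self' (fun _ _ => bot_le) _

omit R in
lemma gen_le (q : Measure ℕ) [IsProbabilityMeasure q] (hq0 : q {0} = 0) (y : ENNReal)
    (hy : y ≤ 1) : ∑' k, y ^ k * q {k} ≤ q {1} * y + y * y := by
  have h1 : ∀ k : ℕ, y ^ k * q {k} ≤ (if k = 1 then q {1} * y else 0) + (y * y) * q {k} := by
    intro k
    match k with
    | 0 => simp [hq0]
    | 1 => simp [mul_comm]
    | k + 2 =>
      rw [if_neg (by omega), zero_add]
      gcongr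
      rw [pow_add, sq]
      calc y ^ k * (y * y) ≤ 1 * (y * y) := by gcongr; exact pow_le_one' hy k
        _ = y * y := one_mul _
  refine (ENNReal.tsum_le_tsum h1).trans ?_
  rw [ENNReal.tsum_add, ENNReal.tsum_mul_left]
  have h2 : ∑' k : ℕ, q {k} = 1 := by
    have := measure_univ (μ := q)
    rw [← this, ← lintegral_one, lintegral_countable']
    simp
  rw [h2, mul_one, tsum_ite_eq]

/-- The inductive bound. -/
lemma integral_EE_le (q : Measure ℕ) [IsProbabilityMeasure q] (hq0 : q {0} = 0) (x A : ENNReal)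
    (h1 : A * Law q q (TA τ g) ≤ 1)
    (h2 : 1 + x * (q {1} * A + A * A * Law q q (TA τ g)) ≤ A) (d : ℕ) :
    Law q q (TA τ g) + ∫⁻ t, EE x τ g d t ∂(Law q q) ≤ A * Law q q (TA τ g) := by
  set θ := Law q q (TA τ g) with hθ
  induction d with
  | zero =>
    have : ∫⁻ t, EE x τ g 0 t ∂(Law q q) = 0 := by simp [EE]
    rw [this, add_zero]
    calc θ = 1 * θ := (one_mul _).symm
      _ ≤ A * θ := by gcongr; exact le_self_add.trans h2
  | succ d ih =>
    rw [integral_EE_succ R]
    set y := ∫⁻ t, psi τ g (EE x τ g d) t ∂(Law q q) with hy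
    have hyA : y ≤ A * θ := (integral_psi R q x d).trans ih
    have h3 := gen_le q hq0 y (hyA.trans h1)
    calc θ + x * ∑' k, y ^ k * q {k} ≤ θ + x * (q {1} * y + y * y) := by gcongr
      _ ≤ θ + x * (q {1} * (A * θ) + (A * θ) * (A * θ)) := by gcongr
      _ = (1 + x * (q {1} * A + A * A * θ)) * θ := by ring
      _ ≤ A * θ := by gcongr

/-- Lower bound of the weight of a finite block. -/
lemma EE_ge (x : ENNReal) (N : ℕ) : ∀ t : List ℕ → ℕ, Bdd D t →
    (∀ i < t [], τ (sub t i) ≠ ⊤) → nC g t = N → ∀ d, N ≤ d → x ^ N ≤ EE x τ g d t := by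
  classical
  induction N using Nat.strong_induction_on with
  | _ N ih =>
    intro t ht hτ hN d hd
    have h1 := nC_rec g t
    rw [hN] at h1
    have hN1 : 1 ≤ N := by
      have := one_le_nC g t
      rw [hN] at this
      exact_mod_cast this
    obtain ⟨d, rfl⟩ : ∃ d', d = d' + 1 := ⟨d - 1, by omega⟩
    -- the sizes of the children
    have h2 : ∀ i ∈ range (t []), ∃ n : ℕ, nI g (sub t i) = n := by
      intro i hi
      have h3 : nI g (sub t i) ≤ N := by
        rw [h1]
        refine le_trans ?_ le_add_self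
        exact Finset.single_le_sum (f := fun i => nI g (sub t i)) (fun _ _ => bot_le) hi
      have h4 : nI g (sub t i) ≠ ⊤ := ne_top_of_le_ne_top (ENNReal.natCast_ne_top N) h3
      by_cases hg : g (sub t i) = 0
      · exact ⟨0, by unfold nI; simp [hg]⟩
      · unfold nI at h4 ⊢
        rw [if_pos hg] at h4 ⊢
        exact nC_nat h4
    choose! n hn using h2
    have h3 : N = 1 + ∑ i ∈ range (t []), n i := by
      rw [sum_congr rfl hn] at h1
      exact_mod_cast h1
    have h4 : ∀ i ∈ range (t []), x ^ (n i) ≤ psi τ g (EE x τ g d) (sub t i) := by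
      intro i hi
      have hi' := mem_range.1 hi
      unfold psi
      by_cases hg : g (sub t i) = 0
      · have h5 : n i = 0 := by
          have := hn i hi
          unfold nI at this
          simp only [hg, ne_eq, not_true_eq_false, if_false] at this
          exact_mod_cast this.symm
        rw [h5, pow_zero, Set.indicator_of_mem (show sub t i ∈ TA τ g from ⟨hτ i hi', hg⟩)]
        exact le_self_add
      · have h5 : nC g (sub t i) = n i := by
          have := hn i hi
          unfold nI at this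
          rwa [if_pos hg] at this
        have h6 : n i ≤ ∑ i ∈ range (t []), n i :=
          Finset.single_le_sum (f := n) (fun _ _ => Nat.zero_le _) hi
        rw [Set.indicator_of_mem (show sub t i ∈ {t | g t ≠ 0} from hg)]
        refine le_trans ?_ le_add_self
        apply ih (n i) (by omega) (sub t i) (ht.sub i) _ h5 d (by omega)
        exact ((R.C _ (ht.sub i [])).1 hg).1
    rw [EE, h3, pow_add, pow_one, ← Finset.prod_pow_eq_pow_sum]
    gcongr with i hi
    exact h4 i hi

/-- The first moment bound: there are no trees with mass at the root. -/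
theorem alpha_zero (r q : Measure ℕ) [IsProbabilityMeasure r] [IsProbabilityMeasure q]
    (hr : r (Set.Ioi D) = 0) (hq : q (Set.Ioi D) = 0) (hq0 : q {0} = 0) (m : ENNReal)
    (hm0 : m ≠ 0) (hrq : ∀ k : ℕ, ((k : ENNReal) + 1) * r {k + 1} = m * q {k})
    (x A : ENNReal) (hx : 1 ≤ x) (K : ℕ) (hK : ∀ t, Bdd D t → a t ≠ 0 → (K : ENNReal) ≤ nC g t)
    (h1 : A * Law q q (TA τ g) ≤ 1)
    (h2 : 1 + x * (q {1} * A + A * A * Law q q (TA τ g)) ≤ A)
    (h3 : A * D < x ^ K) :
    Law q q {t | a t ≠ 0} = 0 := by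
  by_contra hne
  set α := Law q q {t | a t ≠ 0} with hα
  set θ := Law q q (TA τ g) with hθ
  have hth : θ ≠ 0 := by
    intro h
    have := alpha_le_theta R q hq hq0
    rw [← hα, ← hθ, h] at this
    exact hne (le_antisymm this bot_le)
  have hnull := infinite_null_Q R r q hr hq m hm0 hrq hth
  have hαfin : α ≠ ⊤ := measure_ne_top _ _
  -- bound for truncated sets
  have h4 : ∀ d : ℕ, x ^ K * Law q q {t | a t ≠ 0 ∧ nC g t ≤ d} ≤ A * θ := by
    intro d
    have hm : MeasurableSet {t | a t ≠ 0 ∧ nC g t ≤ d} :=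
      (measurableSet_Z R.ma).inter (measurableSet_le (measurable_nC R.mg) measurable_const)
    have h5 : x ^ K * Law q q {t | a t ≠ 0 ∧ nC g t ≤ d}
        = ∫⁻ t, ({t | a t ≠ 0 ∧ nC g t ≤ d}.indicator (fun _ => x ^ K)) t ∂(Law q q) := by
      rw [lintegral_indicator_const hm]
    rw [h5]
    refine le_trans ?_ (le_add_self.trans (integral_EE_le R q hq0 x A h1 h2 d))
    apply lintegral_mono_ae
    filter_upwards [ae_Bdd hq hq] with t ht
    by_cases hmem : t ∈ {t | a t ≠ 0 ∧ nC g t ≤ d}
    · rw [Set.indicator_of_mem hmem]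
      obtain ⟨h6, h7⟩ := hmem
      have h8 : nC g t ≠ ⊤ := ne_top_of_le_ne_top (ENNReal.natCast_ne_top d) h7
      -- nC is a natural number
      obtain ⟨N, hN⟩ := nC_nat h8
      have h10 : N ≤ d := by rw [hN] at h7; exact_mod_cast h7
      have h11 : K ≤ N := by
        have := hK t ht h6
        rw [hN] at this
        exact_mod_cast this
      calc x ^ K ≤ x ^ N := pow_le_pow_right₀ hx h11
        _ ≤ EE x τ g d t := EE_ge R x N t ht ((R.A t (ht [])).1 h6).1 hN d h10
    · rw [Set.indicator_of_notMem hmem]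
      exact bot_le
  have h5 : α = ⨆ d : ℕ, Law q q {t | a t ≠ 0 ∧ nC g t ≤ d} := by
    have hmono : Monotone (fun d : ℕ => {t | a t ≠ 0 ∧ nC g t ≤ d}) := by
      intro d e hde t ht
      exact ⟨ht.1, ht.2.trans (by exact_mod_cast hde)⟩
    rw [← hmono.measure_iUnion]
    have h6 : (⋃ d : ℕ, {t | a t ≠ 0 ∧ nC g t ≤ d}) = {t | a t ≠ 0 ∧ nC g t ≠ ⊤} := by
      ext t
      simp only [Set.mem_iUnion, Set.mem_setOf_eq]
      constructor
      · rintro ⟨d, h1, h2⟩
        exact ⟨h1, ne_top_of_le_ne_top (ENNReal.natCast_ne_top d) h2⟩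
      · rintro ⟨h1, h2⟩
        obtain ⟨d, hd⟩ := ENNReal.exists_nat_gt h2
        exact ⟨d, h1, hd.le⟩
    rw [h6, hα]
    apply le_antisymm
    · calc Law q q {t | a t ≠ 0}
          ≤ Law q q ({t | a t ≠ 0 ∧ nC g t ≠ ⊤} ∪ {t | a t ≠ 0 ∧ nC g t = ⊤}) := by
            apply measure_mono
            intro t ht
            by_cases h : nC g t = ⊤
            · exact Or.inr ⟨ht, h⟩
            · exact Or.inl ⟨ht, h⟩
        _ ≤ _ := measure_union_le _ _
        _ = _ := by rw [hnull, add_zero]
    · apply measure_mono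
      intro t ht
      exact ht.1
  have h6 : x ^ K * α ≤ A * θ := by
    rw [h5, ENNReal.mul_iSup]
    exact iSup_le h4
  have h7 : x ^ K * α ≤ A * D * α := by
    refine h6.trans ?_
    rw [mul_assoc]
    gcongr
    exact theta_le R q hq
  have h8 : x ^ K ≤ A * D := (ENNReal.mul_le_mul_iff_left hne hαfin).1 h7
  exact absurd h3 (not_lt.2 h8)

/-- If no tree has mass at the root of a branch, then the root has no mass at all. -/
theorem mass_zero (r q : Measure ℕ) [IsProbabilityMeasure r] [IsProbabilityMeasure q]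
    (hr : r (Set.Ioi D) = 0) (hq : q (Set.Ioi D) = 0) (hr2 : r (Set.Iio 2) = 0) (m : ENNReal)
    (hrq : ∀ k : ℕ, ((k : ENNReal) + 1) * r {k + 1} = m * q {k})
    (hα : Law q q {t | a t ≠ 0} = 0) : ∫⁻ t, a t ∂(Law r q) = 0 := by
  classical
  have h1 := integral_Z R r q hr hq m hrq
  have ha : ∀ᵐ t ∂(Law q q), a t = 0 := by
    have : Law q q {t | ¬ a t = 0} = 0 := hα
    exact this
  have h2 : ∀ i j : ℕ, ∀ᵐ t ∂(Law r q), a (sub (sub t i) j) = 0 :=
    fun i j => ae_law_sub r q (ae_law_sub q q ha j) i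
  have h3 : ∀ᵐ t ∂(Law r q), ∀ i j : ℕ, a (sub (sub t i) j) = 0 := by
    rw [ae_all_iff]; intro i
    rw [ae_all_iff]; intro j
    exact h2 i j
  have hroot : ∀ᵐ t ∂(Law r q), 2 ≤ t [] := by
    have h2 : (Law r q).map (fun t => t []) = r := by
      unfold Law
      have := Measure.infinitePi_map_eval (fun w : List ℕ => if w = [] then r else q) []
      simpa using this
    have h1 : Law r q {t | ¬ 2 ≤ t []} = 0 := by
      have h3 : {t : List ℕ → ℕ | ¬ 2 ≤ t []} = (fun t => t []) ⁻¹' (Set.Iio 2) := by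
        ext t; simp
      rw [h3, ← Measure.map_apply (measurable_pi_apply _) measurableSet_Iio, h2]
      exact hr2
    exact h1
  have h4 := swap_half r q hr hq m hrq (F := FJ g (fun _ _ => True) (XX τ))
    (G := FJ g (fun _ _ => True) (fun _ _ => 1))
    (measurable_FJ R (J := fun _ _ => True) measurableSet_Jtrue (measurable_XX R.mt)) (by
      intro t t' ht ht'
      unfold FJ
      have e : (g t' * g t = 1 ∧ True) ↔ (g t * g t' = 1 ∧ True) := by
        rw [mul_comm]
      simp only [e]
      split_ifs with h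
      · exact flow_ZZ R (ht []) (ht' []) h.1
      · simp)
  have h5 : 2 * Law r q {t | a t ≠ 0} ≤ II r q (FJ g (fun _ _ => True) (fun _ _ => 1)) := by
    unfold II
    rw [← lintegral_indicator_one (measurableSet_Z R.ma),
      ← lintegral_const_mul _ (measurable_one.indicator (measurableSet_Z R.ma))]
    apply lintegral_mono_ae
    filter_upwards [ae_Bdd hr hq, h3, hroot] with t ht h3 hroot
    by_cases h : a t = 0
    · rw [Set.indicator_of_notMem (by simpa using h), mul_zero]
      exact bot_le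
    · rw [Set.indicator_of_mem (show t ∈ {t | a t ≠ 0} from h), Pi.one_apply, mul_one]
      have h6 : ∀ i ∈ range (t []), FJ g (fun _ _ => True) (fun _ _ => 1) (sub t i) (rem t i)
          = 1 := by
        intro i hi
        rw [mem_range] at hi
        unfold FJ
        rw [if_pos]
        refine ⟨(lem_zz R (ht []) hi).2 ⟨h, ?_⟩, trivial⟩
        intro hg
        have h7 := ((R.A t (ht [])).1 h).1 i hi
        obtain ⟨j, _, hj⟩ := (R.B (sub t i) (ht.sub i [])).2 ⟨h7, hg⟩
        exact hj (h3 i j)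
      rw [sum_congr rfl h6]
      simp only [sum_const, card_range, nsmul_eq_mul, mul_one]
      exact_mod_cast hroot
  rw [← h4] at h5
  have h6 : Law r q {t | a t ≠ 0} ≤ II r q (FJ g (fun _ _ => True) (XX τ)) :=
    (ENNReal.mul_le_mul_iff_right two_ne_zero ENNReal.ofNat_ne_top).1 h5
  rw [← h1] at h6
  have h7 : II r q (FJ g (fun _ _ => True) (XX τ)) ≠ ⊤ := by
    apply ne_top_of_le_ne_top (measure_ne_top (Law r q) {t | a t ≠ 0})
    rw [← h1]
    exact le_self_add.trans le_add_self
  have h8 : ∫⁻ t, a t ∂(Law r q) + II r q (FJ g (fun _ _ => True) (XX τ))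
      ≤ 0 + II r q (FJ g (fun _ _ => True) (XX τ)) := by
    rw [zero_add]
    refine le_trans ?_ h6
    gcongr
    exact le_self_add
  exact le_antisymm (ENNReal.le_of_add_le_add_right h7 h8) bot_le

end

end Pool.Agent.Helper331_ugw
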