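import Pool.Agent.Helper331_ugw.Spec

set_option autoImplicit false
set_option linter.deprecated false
set_option linter.unusedSectionVars false

open Filter Topology Finset

namespace Pool.Agent.Helper331_ugw

/-- The Hilbert space `ℓ²(List ℕ)`. -/
abbrev Hs := lp (fun _ : List ℕ => ℝ) 2

lemma memℓp_two_iff (f : List ℕ → ℝ) : Memℓp f 2 ↔ Summable (fun w => f w ^ 2) := by
  rw [memℓp_gen_iff (by simp)]
  simp

lemma Hs_norm_sq (f : Hs) : ‖f‖ ^ 2 = ∑' w, f w ^ 2 := by
  have h := lp.norm_rpow_eq_tsum (p := 2) (by simp) f
  simpa using h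

lemma Hs_summable (f : Hs) : Summable (fun w => f w ^ 2) :=
  (memℓp_two_iff _).1 (lp.memℓp f)

/-- Pullback along an injective map. -/
noncomputable def pull (φ : List ℕ → List ℕ) (hφ : Function.Injective φ) : Hs →L[ℝ] Hs :=
  LinearMap.mkContinuous
    { toFun := fun f => ⟨fun w => f (φ w),
        (memℓp_two_iff _).2 ((Hs_summable f).comp_injective hφ)⟩
      map_add' := by
        intro f g; apply lp.ext; funext w; rfl
      map_smul' := by
        intro c f; apply lp.ext; funext w; rfl } 1 (by
    intro f
    rw [one_mul]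
    apply le_of_sq_le_sq _ (norm_nonneg _)
    rw [Hs_norm_sq, Hs_norm_sq]
    exact tsum_comp_le_tsum_of_inj (Hs_summable f) (fun w => sq_nonneg _) hφ)

@[simp] lemma pull_apply (φ : List ℕ → List ℕ) (hφ : Function.Injective φ) (f : Hs)
    (w : List ℕ) : (pull φ hφ f) w = f (φ w) := rfl

/-- Pushforward along an injective map. -/
noncomputable def push (φ : List ℕ → List ℕ) (hφ : Function.Injective φ) : Hs →L[ℝ] Hs :=
  ContinuousLinearMap.adjoint (pull φ hφ)

open scoped Classical in
/-- Point masses. -/
noncomputable def dl (w : List ℕ) : Hs := lp.single 2 w (1 : ℝ)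

open scoped Classical in
lemma dl_apply (w v : List ℕ) : dl w v = if v = w then 1 else 0 := by
  unfold dl
  rw [lp.single_apply]
  simp [Pi.single_apply]

lemma inner_dl (w : List ℕ) (f : Hs) : inner ℝ (dl w) f = f w := by
  unfold dl
  rw [lp.inner_single_left]
  simp

lemma inner_dl' (w : List ℕ) (f : Hs) : inner ℝ f (dl w) = f w := by
  rw [real_inner_comm, inner_dl]

lemma push_apply (φ : List ℕ → List ℕ) (hφ : Function.Injective φ) (f : Hs) (w : List ℕ) :
    (push φ hφ f) (φ w) = f w := by
  rw [← inner_dl, push, ContinuousLinearMap.adjoint_inner_right]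
  have : pull φ hφ (dl (φ w)) = dl w := by
    apply lp.ext; funext v
    rw [pull_apply, dl_apply, dl_apply]
    simp [hφ.eq_iff]
  rw [this, inner_dl]

lemma push_apply_not (φ : List ℕ → List ℕ) (hφ : Function.Injective φ) (f : Hs) (w : List ℕ)
    (hw : ∀ v, φ v ≠ w) : (push φ hφ f) w = 0 := by
  rw [← inner_dl, push, ContinuousLinearMap.adjoint_inner_right]
  have : pull φ hφ (dl w) = 0 := by
    apply lp.ext; funext v
    rw [pull_apply, dl_apply]
    simp [hw v]
  rw [this, inner_zero_left]

open scoped Classical in
/-- Restriction to a set of words. -/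
noncomputable def proj (S : Set (List ℕ)) : Hs →L[ℝ] Hs :=
  LinearMap.mkContinuous
    { toFun := fun f => ⟨fun w => if w ∈ S then f w else 0, (memℓp_two_iff _).2 (by
        apply Summable.of_nonneg_of_le (fun w => sq_nonneg _) _ (Hs_summable f)
        intro w
        split_ifs
        · exact le_refl _
        · simp [sq_nonneg])⟩
      map_add' := by
        intro f g; apply lp.ext; funext w
        change (if w ∈ S then f w + g w else 0) = (if w ∈ S then f w else 0) +
          (if w ∈ S then g w else 0)
        split_ifs <;> simp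
      map_smul' := by
        intro c f; apply lp.ext; funext w
        change (if w ∈ S then c * f w else 0) = c * (if w ∈ S then f w else 0)
        split_ifs <;> simp } 1 (by
    intro f
    rw [one_mul]
    apply le_of_sq_le_sq _ (norm_nonneg _)
    rw [Hs_norm_sq, Hs_norm_sq]
    have h1 : ∀ w, (if w ∈ S then f w else 0) ^ 2 ≤ f w ^ 2 := by
      intro w
      split_ifs
      · exact le_refl _
      · simp [sq_nonneg]
    exact Summable.tsum_le_tsum h1
      (Summable.of_nonneg_of_le (fun w => sq_nonneg _) h1 (Hs_summable f)) (Hs_summable f))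

open scoped Classical in
lemma proj_apply (S : Set (List ℕ)) (f : Hs) (w : List ℕ) :
    (proj S f) w = if w ∈ S then f w else 0 := rfl

lemma proj_sym (S : Set (List ℕ)) (f g : Hs) :
    inner ℝ (proj S f) g = inner ℝ f (proj S g) := by
  rw [lp.inner_eq_tsum, lp.inner_eq_tsum]
  apply tsum_congr
  intro w
  simp only [proj_apply]
  split_ifs <;> simp

lemma snoc_inj (j : ℕ) : Function.Injective (fun w : List ℕ => w ++ [j]) :=
  fun a b h => by simpa using h

lemma cons_inj (i : ℕ) : Function.Injective (fun w : List ℕ => i :: w) :=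
  fun a b h => by simpa using h

/-- Adjacency operator of the full `D`-ary tree. -/
noncomputable def AD (D : ℕ) : Hs →L[ℝ] Hs :=
  ∑ j ∈ range D, (pull _ (snoc_inj j) + push _ (snoc_inj j))

/-- Adjacency operator of the subgraph induced on a set of words. -/
noncomputable def AS (D : ℕ) (S : Set (List ℕ)) : Hs →L[ℝ] Hs :=
  proj S * AD D * proj S

lemma AD_sym (D : ℕ) (f g : Hs) : inner ℝ (AD D f) g = inner ℝ f (AD D g) := by
  simp only [AD, ContinuousLinearMap.sum_apply, ContinuousLinearMap.add_apply, sum_inner,
    inner_sum, inner_add_left, inner_add_right]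
  apply sum_congr rfl
  intro j _
  unfold push
  rw [ContinuousLinearMap.adjoint_inner_right, ContinuousLinearMap.adjoint_inner_left, add_comm]

lemma AS_sym (D : ℕ) (S : Set (List ℕ)) (f g : Hs) :
    inner ℝ (AS D S f) g = inner ℝ f (AS D S g) := by
  simp only [AS, ContinuousLinearMap.mul_apply]
  rw [proj_sym, AD_sym, proj_sym]

/-- Parent term. -/
noncomputable def pa (D : ℕ) (g : List ℕ → ℝ) (w : List ℕ) : ℝ :=
  if w = [] then 0 else if w.getLastD 0 < D then g w.dropLast else 0

@[simp] lemma pa_nil (D : ℕ) (g : List ℕ → ℝ) : pa D g [] = 0 := by simp [pa]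

@[simp] lemma pa_snoc (D : ℕ) (g : List ℕ → ℝ) (w : List ℕ) (j : ℕ) :
    pa D g (w ++ [j]) = if j < D then g w else 0 := by
  simp [pa]

lemma AD_apply (D : ℕ) (f : Hs) (w : List ℕ) :
    (AD D f) w = (∑ j ∈ range D, f (w ++ [j])) + pa D f w := by
  simp only [AD, ContinuousLinearMap.sum_apply, ContinuousLinearMap.add_apply, lp.coeFn_sum,
    Finset.sum_apply, lp.coeFn_add, Pi.add_apply, sum_add_distrib, pull_apply]
  congr 1
  rcases List.eq_nil_or_concat w with rfl | ⟨v, i, rfl⟩
  · rw [pa_nil]
    apply sum_eq_zero
    intro j _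
    exact push_apply_not _ _ _ _ (by intro v; simp)
  · rw [List.concat_eq_append, pa_snoc]
    have h1 : ∀ j, (push _ (snoc_inj j) f) (v ++ [i]) = if j = i then f v else 0 := by
      intro j
      split_ifs with h
      · subst h
        exact push_apply _ (snoc_inj j) f v
      · apply push_apply_not
        intro u hu
        apply h
        have := congrArg List.getLast? hu
        simpa using this
    simp only [h1]
    rw [sum_ite_eq' (range D) i]
    simp [mem_range]

end Pool.Agent.Helper331_ugw
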