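import Pool.Agent.Helper331_ugw.Tree

set_option autoImplicit false
set_option linter.deprecated false
set_option linter.unusedSectionVars false

open Filter Topology Finset

namespace Pool.Agent.Helper331_ugw

/-- `A_t - lam`. -/
noncomputable def LT (D : ℕ) (lam : ℝ) (t : List ℕ → ℕ) : Hs →L[ℝ] Hs := AT D t - lam • 1

lemma LT_apply (D : ℕ) (lam : ℝ) (t : List ℕ → ℕ) (f : Hs) :
    LT D lam t f = AT D t f - lam • f := rfl

lemma LT_sym (D : ℕ) (lam : ℝ) (t : List ℕ → ℕ) (f g : Hs) :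
    inner ℝ (LT D lam t f) g = inner ℝ f (LT D lam t g) := by
  simp only [LT_apply, inner_sub_left, inner_sub_right, inner_smul_left, inner_smul_right, AT_sym]
  simp

lemma norm_pull_le (φ : List ℕ → List ℕ) (hφ : Function.Injective φ) : ‖pull φ hφ‖ ≤ 1 :=
  LinearMap.mkContinuous_norm_le _ zero_le_one _

lemma norm_push_le (φ : List ℕ → List ℕ) (hφ : Function.Injective φ) : ‖push φ hφ‖ ≤ 1 := by
  unfold push
  rw [LinearIsometryEquiv.norm_map]
  exact norm_pull_le φ hφ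

lemma norm_proj_le (S : Set (List ℕ)) : ‖proj S‖ ≤ 1 :=
  LinearMap.mkContinuous_norm_le _ zero_le_one _

lemma norm_AD_le (D : ℕ) : ‖AD D‖ ≤ 2 * D := by
  unfold AD
  calc ‖∑ j ∈ range D, (pull _ (snoc_inj j) + push _ (snoc_inj j))‖
      ≤ ∑ j ∈ range D, ‖(pull _ (snoc_inj j) + push _ (snoc_inj j) : Hs →L[ℝ] Hs)‖ :=
        norm_sum_le _ _
    _ ≤ ∑ j ∈ range D, (2 : ℝ) := by
        apply sum_le_sum
        intro j _
        have h1 := norm_pull_le _ (snoc_inj j)
        have h2 := norm_push_le _ (snoc_inj j)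
        have h3 := norm_add_le (pull _ (snoc_inj j)) (push _ (snoc_inj j))
        linarith
    _ = 2 * D := by simp [mul_comm]

lemma norm_AS_le (D : ℕ) (S : Set (List ℕ)) : ‖AS D S‖ ≤ 2 * D := by
  unfold AS
  calc ‖proj S * AD D * proj S‖ ≤ ‖proj S‖ * ‖AD D‖ * ‖proj S‖ :=
        (norm_mul_le _ _).trans (mul_le_mul_of_nonneg_right (norm_mul_le _ _) (norm_nonneg _))
    _ ≤ 1 * (2 * D) * 1 := by
        have h1 := norm_proj_le S
        have h2 := norm_AD_le D
        have h3 : (0:ℝ) ≤ 2 * D := by positivity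
        apply mul_le_mul _ h1 (norm_nonneg _) (by positivity)
        exact mul_le_mul h1 h2 (norm_nonneg _) zero_le_one
    _ = 2 * D := by ring

/-- Admissible constants. -/
def GoodM (D : ℕ) (lam M : ℝ) : Prop := 0 < M ∧ (2 * D + |lam|) ^ 2 ≤ M

lemma LT_bound (D : ℕ) (lam M : ℝ) (hM : GoodM D lam M) (t : List ℕ → ℕ) (x : Hs) :
    ‖LT D lam t x‖ ^ 2 ≤ M * ‖x‖ ^ 2 := by
  have h1 : ‖LT D lam t x‖ ≤ (2 * D + |lam|) * ‖x‖ := by
    rw [LT_apply]
    calc ‖AT D t x - lam • x‖ ≤ ‖AT D t x‖ + ‖lam • x‖ := norm_sub_le _ _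
      _ ≤ 2 * D * ‖x‖ + |lam| * ‖x‖ := by
          rw [norm_smul, Real.norm_eq_abs]
          have := (AT D t).le_opNorm x
          have h2 := norm_AS_le D {w | Node t w}
          have h3 : ‖AT D t‖ * ‖x‖ ≤ 2 * D * ‖x‖ :=
            mul_le_mul_of_nonneg_right h2 (norm_nonneg _)
          linarith
      _ = _ := by ring
  calc ‖LT D lam t x‖ ^ 2 ≤ ((2 * D + |lam|) * ‖x‖) ^ 2 := by gcongr
    _ = (2 * D + |lam|) ^ 2 * ‖x‖ ^ 2 := by ring
    _ ≤ M * ‖x‖ ^ 2 := by gcongr; exact hM.2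

/-- Mass of the spectral measure of the tree at `lam`. -/
noncomputable def aT (D : ℕ) (lam M : ℝ) (t : List ℕ → ℕ) : ENNReal :=
  ENNReal.ofReal (aa (LT D lam t) M (dl []))

/-- Squared norm of the minimal solution of `(A_t - lam) h = δ`. -/
noncomputable def tT (D : ℕ) (lam M : ℝ) (t : List ℕ → ℕ) : ENNReal :=
  ⨆ n, ENNReal.ofReal (ss (LT D lam t) M (dl []) n)

open scoped Classical in
/-- Value at the root of the solutions of `(A_t - lam) h = δ`, zero if there are none. -/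
noncomputable def gT (D : ℕ) (lam M : ℝ) (t : List ℕ → ℕ) : ℝ :=
  if tT D lam M t = ⊤ then 0 else
    limsup (fun n => inner ℝ (LT D lam t (sg (LT D lam t) M (dl []) n)) (dl [])) atTop

section

variable {D : ℕ} {lam M : ℝ} (hM : GoodM D lam M)
include hM

lemma tT_le {t : List ℕ → ℕ} {h : Hs} (hh : LT D lam t h = dl []) : tT D lam M t ≤ nsq h := by
  unfold tT
  apply iSup_le
  intro n
  apply ENNReal.ofReal_le_ofReal
  exact ss_le (LT_sym D lam t) hM.1 (LT_bound D lam M hM t) _ h hh n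

lemma nsq_ne_top (h : Hs) : nsq h ≠ ⊤ := ENNReal.ofReal_ne_top

lemma tT_exists {t : List ℕ → ℕ} (ht : tT D lam M t ≠ ⊤) :
    ∃ h : Hs, LT D lam t h = dl [] ∧ nsq h = tT D lam M t ∧ gT D lam M t = h [] := by
  have hb : BddAbove (Set.range (ss (LT D lam t) M (dl []))) := by
    refine ⟨(tT D lam M t).toReal, ?_⟩
    rintro _ ⟨n, rfl⟩
    have h1 : ENNReal.ofReal (ss (LT D lam t) M (dl []) n) ≤ tT D lam M t :=
      le_iSup (fun n => ENNReal.ofReal (ss (LT D lam t) M (dl []) n)) n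
    exact (ENNReal.ofReal_le_iff_le_toReal ht).1 h1
  obtain ⟨h, h1, h2, h3⟩ := exists_sol (LT_sym D lam t) hM.1 (LT_bound D lam M hM t) _ hb
  refine ⟨h, h1, ?_, ?_⟩
  · have h4 : Tendsto (fun n => ENNReal.ofReal (ss (LT D lam t) M (dl []) n)) atTop
        (𝓝 (nsq h)) := (ENNReal.continuous_ofReal.tendsto _).comp h2
    have h5 : Tendsto (fun n => ENNReal.ofReal (ss (LT D lam t) M (dl []) n)) atTop
        (𝓝 (tT D lam M t)) := by
      apply tendsto_atTop_iSup
      intro n m hnm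
      exact ENNReal.ofReal_le_ofReal
        (ss_mono (LT_sym D lam t) hM.1 (LT_bound D lam M hM t) _ hnm)
    exact tendsto_nhds_unique h4 h5
  · unfold gT
    rw [if_neg ht, h3.limsup_eq, inner_dl']

lemma tT_ne_top {t : List ℕ → ℕ} {h : Hs} (hh : LT D lam t h = dl []) : tT D lam M t ≠ ⊤ :=
  ne_top_of_le_ne_top (nsq_ne_top hM h) (tT_le hM hh)

lemma gT_eq {t : List ℕ → ℕ} {h : Hs} (hh : LT D lam t h = dl []) : gT D lam M t = h [] := by
  obtain ⟨h', h1, _, h3⟩ := tT_exists hM (tT_ne_top hM hh)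
  rw [h3, ← inner_dl' [] h', ← inner_dl' [] h, ← sub_eq_zero, ← inner_sub_left]
  nth_rewrite 1 [← h1]
  rw [← LT_sym, map_sub, h1, hh, sub_self, inner_zero_left]

lemma aT_exists (t : List ℕ → ℕ) : ∃ e : Hs, LT D lam t e = 0 ∧
    aT D lam M t = ENNReal.ofReal (e []) ∧ 0 ≤ e [] ∧ nsq e = aT D lam M t ∧
    ∀ h : Hs, LT D lam t h = 0 → h [] ^ 2 ≤ e [] * ‖h‖ ^ 2 := by
  obtain ⟨e, _, h1, h2, h3, h4⟩ := exists_proj (LT_sym D lam t) hM.1 (LT_bound D lam M hM t) (dl [])
  rw [inner_dl'] at h2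
  refine ⟨e, h1, ?_, ?_, ?_, ?_⟩
  · unfold aT; rw [h2]
  · rw [h2]; exact aa_nonneg (LT_sym D lam t) hM.1 (LT_bound D lam M hM t) _
  · unfold nsq aT; rw [h3]
  · intro h hh
    have h5 := h4 h hh
    rw [inner_dl'] at h5
    have h6 := abs_real_inner_le_norm h e
    rw [← h5] at h6
    calc h [] ^ 2 = |h []| ^ 2 := (sq_abs _).symm
      _ ≤ (‖h‖ * ‖e‖) ^ 2 := by gcongr
      _ = ‖e‖ ^ 2 * ‖h‖ ^ 2 := by ring
      _ = _ := by rw [h3, h2]

lemma aT_ne_zero {t : List ℕ → ℕ} {h : Hs} (hh : LT D lam t h = 0) (h0 : h [] ≠ 0) :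
    aT D lam M t ≠ 0 := by
  obtain ⟨e, _, h2, h3, _, h5⟩ := aT_exists hM t
  have h6 := h5 h hh
  rw [h2]
  intro h7
  rw [ENNReal.ofReal_eq_zero] at h7
  have h8 : e [] = 0 := le_antisymm h7 h3
  rw [h8, zero_mul] at h6
  have : 0 < h [] ^ 2 := by positivity
  linarith

/-- Rule (E). -/
lemma rule_E {t : List ℕ → ℕ} (ha : aT D lam M t ≠ 0) : tT D lam M t = ⊤ := by
  by_contra hne
  obtain ⟨h, h1, _, _⟩ := tT_exists hM hne
  obtain ⟨e, h2, h3, _, _, _⟩ := aT_exists hM t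
  apply ha
  have : e [] = 0 := by
    rw [← inner_dl' [] e, ← h1, ← LT_sym, h2, inner_zero_left]
  rw [h3, this, ENNReal.ofReal_zero]

lemma drop {t : List ℕ → ℕ} (ht : t [] ≤ D) {h : Hs} {c : ℝ} (hh : LT D lam t h = c • dl []) :
    (∀ i < t [], LT D lam (sub t i) (cmp i h) = (-(h [])) • dl []) ∧
    (∑ i ∈ range (t []), (cmp i h) []) - lam * h [] = c := by
  constructor
  · intro i hi
    have h1 := congrArg (fun f => cmp i f) hh
    simp only [LT_apply, map_sub, map_smul] at h1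
    rw [cmp_AT D t ht h i hi] at h1
    have h2 : cmp i (dl []) = 0 := by
      apply lp.ext; funext w
      rw [cmp_apply, dl_apply]; simp
    rw [h2, smul_zero] at h1
    rw [LT_apply, neg_smul, ← sub_eq_zero, ← h1]
    abel
  · have h1 := congrArg (fun f : Hs => f []) hh
    have h2 : (LT D lam t h) [] = (AT D t h) [] - lam * h [] := rfl
    have h3 : ((c • dl [] : Hs)) [] = c * (dl [] : Hs) [] := rfl
    simp only [h2, h3, AT_root D t ht h, dl_apply, if_true, mul_one] at h1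
    exact h1

lemma lift {t : List ℕ → ℕ} (ht : t [] ≤ D) (x : ℝ) (f : ℕ → Hs)
    (hf : ∀ i < t [], LT D lam (sub t i) (f i) = (-x) • dl []) :
    ∃ h : Hs, h [] = x ∧
      LT D lam t h = ((∑ i ∈ range (t []), (f i) []) - lam * x) • dl [] ∧
      nsq h = ENNReal.ofReal (x ^ 2) + ∑ i ∈ range (t []), nsq (f i) := by
  set h : Hs := x • dl [] + ∑ i ∈ range (t []), push _ (cons_inj i) (f i) with hdef
  have happ : ∀ w, h w = x * (dl [] : Hs) w + ∑ i ∈ range (t []), (push _ (cons_inj i) (f i)) w := by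
    intro w
    have e1 : h w = (x • dl [] : Hs) w + (∑ i ∈ range (t []), push _ (cons_inj i) (f i) : Hs) w := rfl
    rw [e1, lp.coeFn_sum, Finset.sum_apply]
    rfl
  have h0 : h [] = x := by
    rw [happ, dl_apply, if_pos rfl, mul_one, sum_eq_zero, add_zero]
    intro i _
    exact push_apply_not _ _ _ _ (by intro v; simp)
  have hc : ∀ i, cmp i h = if i < t [] then f i else 0 := by
    intro i
    apply lp.ext; funext w
    rw [cmp_apply, happ, dl_apply, if_neg (by simp), mul_zero, zero_add]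
    have e2 : ∀ j, (push _ (cons_inj j) (f j)) (i :: w) = if i = j then f j w else 0 := by
      intro j
      split_ifs with hij
      · subst hij
        exact push_apply _ (cons_inj i) (f i) w
      · apply push_apply_not
        intro v hv
        apply hij
        have := (List.cons.inj hv).1
        exact this.symm
    simp only [e2]
    rw [sum_ite_eq (range (t [])) i]
    simp only [mem_range]
    split_ifs <;> rfl
  refine ⟨h, h0, ?_, ?_⟩
  · apply Hs_ext
    · have h2 : (LT D lam t h) [] = (AT D t h) [] - lam * h [] := rfl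
      have h3 : ∀ c : ℝ, ((c • dl [] : Hs)) [] = c * (dl [] : Hs) [] := fun c => rfl
      rw [h2, h3, AT_root D t ht h, dl_apply, if_pos rfl, mul_one, h0]
      congr 1
      apply sum_congr rfl
      intro i hi
      have := hc i
      rw [if_pos (mem_range.1 hi)] at this
      rw [← this]
      rfl
    · intro i
      have h2 : cmp i (dl []) = 0 := by
        apply lp.ext; funext w
        rw [cmp_apply, dl_apply]; simp
      rw [map_smul, h2, smul_zero, LT_apply, map_sub, map_smul, hc]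
      split_ifs with hi
      · rw [cmp_AT D t ht h i hi, hc, if_pos hi, h0]
        have := hf i hi
        rw [LT_apply, neg_smul] at this
        rw [add_sub_right_comm, this]
        simp
      · rw [cmp_AT_zero D t h i (not_lt.1 hi)]
        simp
  · rw [nsq_decomp_fin h (t []), h0]
    · congr 1
      apply sum_congr rfl
      intro i hi
      rw [hc, if_pos (mem_range.1 hi)]
    · intro i hi
      rw [hc, if_neg (not_lt.2 hi)]

lemma sol_scale {t : List ℕ → ℕ} {h : Hs} {x : ℝ} (hx : x ≠ 0)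
    (hh : LT D lam t h = (-x) • dl []) : LT D lam t ((-x)⁻¹ • h) = dl [] := by
  rw [map_smul, hh, smul_smul, inv_mul_cancel₀ (neg_ne_zero.2 hx), one_smul]

lemma nsq_smul (c : ℝ) (h : Hs) : nsq (c • h) = ENNReal.ofReal (c ^ 2) * nsq h := by
  unfold nsq
  rw [norm_smul, mul_pow, Real.norm_eq_abs, sq_abs, ENNReal.ofReal_mul (sq_nonneg _)]

/-- Common part of the only-if directions. -/
lemma sol_children {t : List ℕ → ℕ} (ht : t [] ≤ D) {h : Hs} {c : ℝ}
    (hh : LT D lam t h = c • dl []) (h0 : h [] ≠ 0) :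
    (∀ i < t [], tT D lam M (sub t i) ≠ ⊤) ∧
    -(h []) * (lam + ∑ i ∈ range (t []), gT D lam M (sub t i)) = c ∧
    ENNReal.ofReal (h [] ^ 2) * (1 + ∑ i ∈ range (t []), tT D lam M (sub t i)) ≤ nsq h := by
  obtain ⟨h1, h2⟩ := drop hM ht hh
  have h3 : ∀ i < t [], LT D lam (sub t i) ((-(h []))⁻¹ • cmp i h) = dl [] :=
    fun i hi => sol_scale hM h0 (h1 i hi)
  refine ⟨fun i hi => tT_ne_top hM (h3 i hi), ?_, ?_⟩
  · have h4 : ∀ i ∈ range (t []), gT D lam M (sub t i) = (-(h []))⁻¹ * (cmp i h) [] :=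
      fun i hi => gT_eq hM (h3 i (mem_range.1 hi))
    rw [sum_congr rfl h4, ← mul_sum, mul_add, ← mul_assoc,
      mul_inv_cancel₀ (neg_ne_zero.2 h0), one_mul, ← h2]
    ring
  · refine le_trans ?_ (nsq_ge h (t []))
    rw [mul_add, mul_one]
    gcongr
    rw [mul_sum]
    apply sum_le_sum
    intro i hi
    have h4 := tT_le hM (h3 i (mem_range.1 hi))
    rw [nsq_smul hM] at h4
    calc ENNReal.ofReal (h [] ^ 2) * tT D lam M (sub t i)
        ≤ ENNReal.ofReal (h [] ^ 2) * (ENNReal.ofReal ((-(h []))⁻¹ ^ 2) * nsq (cmp i h)) := by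
          gcongr
      _ = ENNReal.ofReal (h [] ^ 2 * (-(h []))⁻¹ ^ 2) * nsq (cmp i h) := by
          rw [← mul_assoc, ← ENNReal.ofReal_mul (sq_nonneg _)]
      _ = nsq (cmp i h) := by
          have : h [] ^ 2 * (-(h []))⁻¹ ^ 2 = 1 := by
            field_simp
          rw [this]; simp

/-- Common part of the if directions. -/
lemma children_sol {t : List ℕ → ℕ} (ht : t [] ≤ D) (x : ℝ)
    (h1 : ∀ i < t [], tT D lam M (sub t i) ≠ ⊤) :
    ∃ h : Hs, h [] = x ∧
      LT D lam t h = (-x * (lam + ∑ i ∈ range (t []), gT D lam M (sub t i))) • dl [] ∧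
      nsq h = ENNReal.ofReal (x ^ 2) * (1 + ∑ i ∈ range (t []), tT D lam M (sub t i)) := by
  have h2 : ∀ i, ∃ f : Hs, i < t [] → LT D lam (sub t i) f = dl [] ∧
      nsq f = tT D lam M (sub t i) ∧ gT D lam M (sub t i) = f [] := by
    intro i
    by_cases hi : i < t []
    · obtain ⟨f, hf⟩ := tT_exists hM (h1 i hi)
      exact ⟨f, fun _ => hf⟩
    · exact ⟨0, fun h => absurd h hi⟩
  choose f hf using h2
  obtain ⟨h, e1, e2, e3⟩ := lift hM ht x (fun i => (-x) • f i) (by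
    intro i hi
    rw [map_smul, (hf i hi).1])
  refine ⟨h, e1, ?_, ?_⟩
  · rw [e2]
    congr 1
    have e4 : ∀ i ∈ range (t []), ((-x) • f i : Hs) [] = -x * gT D lam M (sub t i) := by
      intro i hi
      rw [(hf i (mem_range.1 hi)).2.2]
      rfl
    rw [sum_congr rfl e4, ← mul_sum]
    ring
  · rw [e3, mul_add, mul_one, mul_sum]
    congr 1
    apply sum_congr rfl
    intro i hi
    rw [nsq_smul hM, (hf i (mem_range.1 hi)).2.1, neg_sq]

/-- Rule (A). -/
lemma rule_A {t : List ℕ → ℕ} (ht : t [] ≤ D) :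
    aT D lam M t ≠ 0 ↔ ((∀ i < t [], tT D lam M (sub t i) ≠ ⊤) ∧
      lam + ∑ i ∈ range (t []), gT D lam M (sub t i) = 0) := by
  constructor
  · intro ha
    obtain ⟨e, h1, h2, _, _, _⟩ := aT_exists hM t
    have h0 : e [] ≠ 0 := by
      intro h0
      apply ha
      rw [h2, h0, ENNReal.ofReal_zero]
    obtain ⟨h3, h4, _⟩ := sol_children hM ht (c := 0) (by rw [h1, zero_smul]) h0
    refine ⟨h3, ?_⟩
    rcases mul_eq_zero.1 h4 with h5 | h5
    · exact absurd (neg_eq_zero.1 h5) h0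
    · exact h5
  · rintro ⟨h1, h2⟩
    obtain ⟨h, e1, e2, _⟩ := children_sol hM ht 1 h1
    rw [h2, mul_zero, zero_smul] at e2
    exact aT_ne_zero hM e2 (by rw [e1]; exact one_ne_zero)

/-- Value in rule (A). -/
lemma rule_A_val {t : List ℕ → ℕ} (ht : t [] ≤ D) (ha : aT D lam M t ≠ 0) :
    aT D lam M t = (1 + ∑ i ∈ range (t []), tT D lam M (sub t i))⁻¹ := by
  obtain ⟨e, h1, h2, hpos, h3, h4⟩ := aT_exists hM t
  have h0 : e [] ≠ 0 := by
    intro h0
    apply ha
    rw [h2, h0, ENNReal.ofReal_zero]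
  have h0' : 0 < e [] := lt_of_le_of_ne hpos (Ne.symm h0)
  obtain ⟨h5, h6, h7⟩ := sol_children hM ht (c := 0) (by rw [h1, zero_smul]) h0
  obtain ⟨k1, k2⟩ := (rule_A hM ht).1 ha
  set T := 1 + ∑ i ∈ range (t []), tT D lam M (sub t i) with hT
  have hTtop : T ≠ ⊤ := by
    rw [hT]
    exact ENNReal.add_ne_top.2 ⟨ENNReal.one_ne_top,
      ENNReal.sum_ne_top.2 fun i hi => k1 i (mem_range.1 hi)⟩
  have hT0 : T ≠ 0 := by
    rw [hT]; simp
  apply le_antisymm
  · -- upper bound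
    rw [ENNReal.le_inv_iff_mul_le]
    rw [h3, ENNReal.ofReal_pow hpos, ← h2, sq, mul_assoc] at h7
    have hatop : aT D lam M t ≠ ⊤ := by rw [h2]; exact ENNReal.ofReal_ne_top
    have h8 : aT D lam M t * (aT D lam M t * T) ≤ aT D lam M t * 1 := by rw [mul_one]; exact h7
    exact (ENNReal.mul_le_mul_iff_right ha hatop).1 h8
  · -- lower bound
    obtain ⟨h, e1, e2, e3⟩ := children_sol hM ht 1 k1
    rw [k2, mul_zero, zero_smul] at e2
    have h8 := h4 h e2
    rw [e1, one_pow] at h8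
    rw [one_pow, ENNReal.ofReal_one, one_mul] at e3
    rw [ENNReal.inv_le_iff_le_mul (by intro _; exact hT0) (by intro h; exact absurd h hTtop),
      h2, hT, ← e3]
    unfold nsq
    rw [mul_comm, ← ENNReal.ofReal_mul hpos, ENNReal.one_le_ofReal]
    exact h8

/-- Rule (C). -/
lemma rule_C {t : List ℕ → ℕ} (ht : t [] ≤ D) :
    gT D lam M t ≠ 0 ↔ ((∀ i < t [], tT D lam M (sub t i) ≠ ⊤) ∧
      lam + ∑ i ∈ range (t []), gT D lam M (sub t i) ≠ 0) := by
  constructor
  · intro hg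
    have htop : tT D lam M t ≠ ⊤ := by
      intro h
      apply hg
      unfold gT
      rw [if_pos h]
    obtain ⟨h, h1, h2, h3⟩ := tT_exists hM htop
    rw [h3] at hg
    obtain ⟨h4, h5, _⟩ := sol_children hM ht (c := 1) (by rw [h1, one_smul]) hg
    refine ⟨h4, ?_⟩
    intro h6
    rw [h6, mul_zero] at h5
    exact zero_ne_one h5
  · rintro ⟨h1, h2⟩
    set S := lam + ∑ i ∈ range (t []), gT D lam M (sub t i) with hS
    obtain ⟨h, e1, e2, _⟩ := children_sol hM ht (-S⁻¹) h1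
    rw [neg_neg, ← hS, inv_mul_cancel₀ h2, one_smul] at e2
    rw [gT_eq hM e2, e1]
    exact neg_ne_zero.2 (inv_ne_zero h2)

/-- Values in rule (C). -/
lemma rule_C_val {t : List ℕ → ℕ} (ht : t [] ≤ D) (hg : gT D lam M t ≠ 0) :
    tT D lam M t ≠ ⊤ ∧
    gT D lam M t * (lam + ∑ i ∈ range (t []), gT D lam M (sub t i)) = -1 ∧
    tT D lam M t = ENNReal.ofReal (gT D lam M t ^ 2) *
      (1 + ∑ i ∈ range (t []), tT D lam M (sub t i)) := by
  have htop : tT D lam M t ≠ ⊤ := by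
    intro h
    apply hg
    unfold gT
    rw [if_pos h]
  obtain ⟨h, h1, h2, h3⟩ := tT_exists hM htop
  have hg' := hg
  rw [h3] at hg'
  obtain ⟨h4, h5, h6⟩ := sol_children hM ht (c := 1) (by rw [h1, one_smul]) hg'
  refine ⟨htop, ?_, ?_⟩
  · rw [h3]; linarith
  · rw [h3]
    apply le_antisymm
    · obtain ⟨k, e1, e2, e3⟩ := children_sol hM ht (h []) h4
      rw [h5, one_smul] at e2
      rw [← e3]
      exact tT_le hM e2
    · rw [← h2]; exact h6

/-- Rule (B). -/
lemma rule_B {t : List ℕ → ℕ} (ht : t [] ≤ D) :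
    (∃ i < t [], aT D lam M (sub t i) ≠ 0) ↔ (tT D lam M t ≠ ⊤ ∧ gT D lam M t = 0) := by
  constructor
  · rintro ⟨i₀, hi₀, ha⟩
    have h2 : ∀ i, ∃ e : Hs, LT D lam (sub t i) e = 0 ∧
      aT D lam M (sub t i) = ENNReal.ofReal (e []) ∧ 0 ≤ e [] := by
      intro i
      obtain ⟨e, h1, h2, h3, _, _⟩ := aT_exists hM (sub t i)
      exact ⟨e, h1, h2, h3⟩
    choose e he1 he2 he3 using h2
    have hpos : 0 < ∑ i ∈ range (t []), (e i) [] := by
      apply sum_pos' (fun i _ => he3 i)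
      refine ⟨i₀, mem_range.2 hi₀, ?_⟩
      rw [he2] at ha
      exact ENNReal.ofReal_pos.1 (pos_iff_ne_zero.2 ha)
    set c := ∑ i ∈ range (t []), (e i) [] with hc
    obtain ⟨h, e1, e2, _⟩ := lift hM ht 0 (fun i => c⁻¹ • e i) (by
      intro i _
      rw [map_smul, he1, smul_zero, neg_zero, zero_smul])
    have e4 : ∀ i ∈ range (t []), (c⁻¹ • e i : Hs) [] = c⁻¹ * (e i) [] := fun i _ => rfl
    rw [sum_congr rfl e4, ← mul_sum, ← hc, inv_mul_cancel₀ hpos.ne', mul_zero, sub_zero,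
      one_smul] at e2
    exact ⟨tT_ne_top hM e2, by rw [gT_eq hM e2, e1]⟩
  · rintro ⟨h1, h2⟩
    obtain ⟨h, k1, k2, k3⟩ := tT_exists hM h1
    rw [h2] at k3
    obtain ⟨d1, d2⟩ := drop hM ht (c := 1) (by rw [k1, one_smul])
    rw [← k3, mul_zero, sub_zero] at d2
    have : ∃ i ∈ range (t []), (cmp i h) [] ≠ 0 := by
      apply exists_ne_zero_of_sum_ne_zero
      rw [d2]; exact one_ne_zero
    obtain ⟨i, hi, hne⟩ := this
    refine ⟨i, mem_range.1 hi, ?_⟩
    have d3 := d1 i (mem_range.1 hi)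
    rw [← k3, neg_zero, zero_smul] at d3
    exact aT_ne_zero hM d3 hne

/-- Value in rule (B). -/
lemma rule_B_val {t : List ℕ → ℕ} (ht : t [] ≤ D) (h1 : tT D lam M t ≠ ⊤)
    (h2 : gT D lam M t = 0) :
    tT D lam M t = (∑ i ∈ range (t []), aT D lam M (sub t i))⁻¹ := by
  have h2' : ∀ i, ∃ e : Hs, LT D lam (sub t i) e = 0 ∧
      aT D lam M (sub t i) = ENNReal.ofReal (e []) ∧ 0 ≤ e [] ∧ nsq e = aT D lam M (sub t i) ∧
      ∀ h : Hs, LT D lam (sub t i) h = 0 → h [] ^ 2 ≤ e [] * ‖h‖ ^ 2 :=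
    fun i => aT_exists hM (sub t i)
  choose e he1 he2 he3 he4 he5 using h2'
  obtain ⟨i₀, hi₀, ha⟩ := (rule_B hM ht).2 ⟨h1, h2⟩
  have hpos : 0 < ∑ i ∈ range (t []), (e i) [] := by
    apply sum_pos' (fun i _ => he3 i)
    refine ⟨i₀, mem_range.2 hi₀, ?_⟩
    rw [he2] at ha
    exact ENNReal.ofReal_pos.1 (pos_iff_ne_zero.2 ha)
  set c := ∑ i ∈ range (t []), (e i) [] with hc
  have hsum : ∑ i ∈ range (t []), aT D lam M (sub t i) = ENNReal.ofReal c := by
    rw [hc, ENNReal.ofReal_sum_of_nonneg (fun i _ => he3 i)]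
    exact sum_congr rfl fun i _ => he2 i
  rw [hsum]
  apply le_antisymm
  · obtain ⟨h, e1, e2, e3⟩ := lift hM ht 0 (fun i => c⁻¹ • e i) (by
      intro i _
      rw [map_smul, he1, smul_zero, neg_zero, zero_smul])
    have e4 : ∀ i ∈ range (t []), (c⁻¹ • e i : Hs) [] = c⁻¹ * (e i) [] := fun i _ => rfl
    rw [sum_congr rfl e4, ← mul_sum, ← hc, inv_mul_cancel₀ hpos.ne', mul_zero, sub_zero,
      one_smul] at e2
    refine (tT_le hM e2).trans ?_
    rw [e3]
    simp only [nsq_smul hM, he4]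
    rw [← mul_sum, hsum, ← ENNReal.ofReal_mul (sq_nonneg _), ← ENNReal.ofReal_add (by positivity)
      (by positivity), ← ENNReal.ofReal_inv_of_pos hpos]
    apply ENNReal.ofReal_le_ofReal
    apply le_of_eq
    field_simp
    ring
  · obtain ⟨h, k1, k2, k3⟩ := tT_exists hM h1
    rw [h2] at k3
    obtain ⟨d1, d2⟩ := drop hM ht (c := 1) (by rw [k1, one_smul])
    rw [← k3, mul_zero, sub_zero] at d2
    -- Cauchy-Schwarz
    have d3 : ∀ i ∈ range (t []), (cmp i h) [] ^ 2 ≤ (e i) [] * ‖cmp i h‖ ^ 2 := by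
      intro i hi
      have d3 := d1 i (mem_range.1 hi)
      rw [← k3, neg_zero, zero_smul] at d3
      exact he5 i _ d3
    have d4 : 1 ≤ c * ∑ i ∈ range (t []), ‖cmp i h‖ ^ 2 := by
      have := Finset.sum_sq_le_sum_mul_sum_of_sq_le_mul (range (t []))
        (r := fun i => (cmp i h) []) (f := fun i => (e i) []) (g := fun i => ‖cmp i h‖ ^ 2)
        (fun i _ => he3 i) (fun i _ => sq_nonneg _) d3
      rw [d2] at this
      simpa using this
    rw [← k2]
    refine le_trans ?_ (nsq_ge h (t []))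
    rw [← ENNReal.ofReal_inv_of_pos hpos]
    have e5 : ∑ i ∈ range (t []), nsq (cmp i h)
        = ENNReal.ofReal (∑ i ∈ range (t []), ‖cmp i h‖ ^ 2) := by
      unfold nsq
      rw [ENNReal.ofReal_sum_of_nonneg (fun i _ => sq_nonneg _)]
    rw [e5]
    refine le_trans ?_ le_add_self
    apply ENNReal.ofReal_le_ofReal
    rw [inv_le_iff_one_le_mul₀' hpos]
    exact d4

end

end Pool.Agent.Helper331_ugw
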