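import Mathlib

set_option autoImplicit false
set_option linter.deprecated false
set_option linter.unusedSectionVars false

open Filter Topology Finset

namespace Pool.Agent.Helper331_ugw

section Spec

variable {H : Type*} [NormedAddCommGroup H] [InnerProductSpace ℝ H] [CompleteSpace H]

/-- The operator `1 - L²/M`. -/
noncomputable def BB (L : H →L[ℝ] H) (M : ℝ) : H →L[ℝ] H := 1 - (1 / M) • (L * L)

/-- `⟪(1 - L²/M)^n d, d⟫`. -/
noncomputable def bb (L : H →L[ℝ] H) (M : ℝ) (d : H) (n : ℕ) : ℝ := inner ℝ ((BB L M ^ n) d) d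

variable {L : H →L[ℝ] H} {M : ℝ}

lemma BB_comm : Commute L (BB L M) := by
  unfold BB
  apply Commute.sub_right (Commute.one_right L)
  apply Commute.smul_right
  exact (Commute.refl L).mul_right (Commute.refl L)

lemma BB_sym (hL : ∀ x y, inner ℝ (L x) y = inner ℝ x (L y)) (x y : H) :
    inner ℝ (BB L M x) y = inner ℝ x (BB L M y) := by
  simp only [BB, ContinuousLinearMap.sub_apply, ContinuousLinearMap.one_apply,
    ContinuousLinearMap.smul_apply, ContinuousLinearMap.mul_apply, inner_sub_left, inner_sub_right,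
    inner_smul_left, inner_smul_right, hL]
  simp

lemma BB_pow_sym (hL : ∀ x y, inner ℝ (L x) y = inner ℝ x (L y)) (n : ℕ) (x y : H) :
    inner ℝ ((BB L M ^ n) x) y = inner ℝ x ((BB L M ^ n) y) := by
  induction n generalizing x y with
  | zero => simp
  | succ n ih =>
    rw [pow_succ, ContinuousLinearMap.mul_apply, ih, BB_sym hL, ← ContinuousLinearMap.mul_apply,
      ← pow_succ', pow_succ]

lemma BB_inner (hL : ∀ x y, inner ℝ (L x) y = inner ℝ x (L y)) (x : H) :
    inner ℝ (BB L M x) x = ‖x‖ ^ 2 - (1 / M) * ‖L x‖ ^ 2 := by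
  have h1 : inner ℝ (L (L x)) x = ‖L x‖ ^ 2 := by rw [hL, real_inner_self_eq_norm_sq]
  simp only [BB, ContinuousLinearMap.sub_apply, ContinuousLinearMap.one_apply,
    ContinuousLinearMap.smul_apply, ContinuousLinearMap.mul_apply, inner_sub_left,
    inner_smul_left, h1]
  simp

lemma BB_nonneg1 (hL : ∀ x y, inner ℝ (L x) y = inner ℝ x (L y)) (hM : 0 < M)
    (hLM : ∀ x, ‖L x‖ ^ 2 ≤ M * ‖x‖ ^ 2) (x : H) : 0 ≤ inner ℝ (BB L M x) x := by
  rw [BB_inner hL, sub_nonneg, div_mul_eq_mul_div, one_mul, div_le_iff₀ hM]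
  linarith [hLM x]

lemma BB_pow_nonneg (hL : ∀ x y, inner ℝ (L x) y = inner ℝ x (L y)) (hM : 0 < M)
    (hLM : ∀ x, ‖L x‖ ^ 2 ≤ M * ‖x‖ ^ 2) (n : ℕ) (x : H) :
    0 ≤ inner ℝ ((BB L M ^ n) x) x := by
  rcases Nat.even_or_odd' n with ⟨k, rfl | rfl⟩
  · rw [two_mul, pow_add, ContinuousLinearMap.mul_apply, BB_pow_sym hL]
    exact real_inner_self_nonneg
  · rw [pow_succ', two_mul, pow_add, ← mul_assoc, ← pow_succ', pow_succ,
      ContinuousLinearMap.mul_apply, ContinuousLinearMap.mul_apply, BB_pow_sym hL]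
    exact BB_nonneg1 hL hM hLM _

lemma bb_nonneg (hL : ∀ x y, inner ℝ (L x) y = inner ℝ x (L y)) (hM : 0 < M)
    (hLM : ∀ x, ‖L x‖ ^ 2 ≤ M * ‖x‖ ^ 2) (d : H) (n : ℕ) : 0 ≤ bb L M d n :=
  BB_pow_nonneg hL hM hLM n d

lemma LL_eq (hM : 0 < M) (x : H) : L (L x) = M • (x - BB L M x) := by
  simp only [BB, ContinuousLinearMap.sub_apply, ContinuousLinearMap.one_apply,
    ContinuousLinearMap.smul_apply, ContinuousLinearMap.mul_apply, sub_sub_cancel, smul_smul]
  rw [mul_one_div_cancel hM.ne', one_smul]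

lemma L_BB_pow (n : ℕ) (x : H) : L ((BB L M ^ n) x) = (BB L M ^ n) (L x) := by
  have h : Commute L (BB L M ^ n) := BB_comm.pow_right n
  have := congrArg (fun T : H →L[ℝ] H => T x) h.eq
  simpa using this

lemma bb_anti (hL : ∀ x y, inner ℝ (L x) y = inner ℝ x (L y)) (hM : 0 < M)
    (hLM : ∀ x, ‖L x‖ ^ 2 ≤ M * ‖x‖ ^ 2) (d : H) : Antitone (bb L M d) := by
  apply antitone_nat_of_succ_le
  intro n
  have h1 : bb L M d n - bb L M d (n + 1) = (1 / M) * inner ℝ ((BB L M ^ n) (L d)) (L d) := by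
    unfold bb
    rw [← inner_sub_left, pow_succ, ContinuousLinearMap.mul_apply, ← map_sub]
    have : d - BB L M d = (1 / M) • L (L d) := by
      rw [LL_eq hM, smul_smul, one_div_mul_cancel hM.ne', one_smul]
    rw [this, map_smul, inner_smul_left, ← L_BB_pow n (L d), hL]
    simp
  have h2 := BB_pow_nonneg hL hM hLM n (L d)
  have h3 : 0 ≤ (1 / M) * inner ℝ ((BB L M ^ n) (L d)) (L d) := by positivity
  linarith

lemma bb_zero (d : H) : bb L M d 0 = ‖d‖ ^ 2 := by
  simp [bb]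

lemma bb_dist (hL : ∀ x y, inner ℝ (L x) y = inner ℝ x (L y)) (d : H) (n m : ℕ) :
    ‖(BB L M ^ n) d - (BB L M ^ m) d‖ ^ 2
      = bb L M d (2 * n) - 2 * bb L M d (n + m) + bb L M d (2 * m) := by
  rw [@norm_sub_sq_real]
  have h1 : ∀ i j : ℕ, inner ℝ ((BB L M ^ i) d) ((BB L M ^ j) d) = bb L M d (i + j) := by
    intro i j
    unfold bb
    rw [← BB_pow_sym hL, ← ContinuousLinearMap.mul_apply, ← pow_add, add_comm]
  rw [← real_inner_self_eq_norm_sq, ← real_inner_self_eq_norm_sq, h1, h1, h1, two_mul n,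
    two_mul m]

/-- The limit of `bb`. -/
noncomputable def aa (L : H →L[ℝ] H) (M : ℝ) (d : H) : ℝ := ⨅ n, bb L M d n

lemma bb_tendsto (hL : ∀ x y, inner ℝ (L x) y = inner ℝ x (L y)) (hM : 0 < M)
    (hLM : ∀ x, ‖L x‖ ^ 2 ≤ M * ‖x‖ ^ 2) (d : H) :
    Tendsto (bb L M d) atTop (𝓝 (aa L M d)) :=
  tendsto_atTop_ciInf (bb_anti hL hM hLM d) ⟨0, by rintro _ ⟨n, rfl⟩; exact bb_nonneg hL hM hLM d n⟩

lemma aa_le (hL : ∀ x y, inner ℝ (L x) y = inner ℝ x (L y)) (hM : 0 < M)
    (hLM : ∀ x, ‖L x‖ ^ 2 ≤ M * ‖x‖ ^ 2) (d : H) (n : ℕ) : aa L M d ≤ bb L M d n :=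
  ciInf_le ⟨0, by rintro _ ⟨n, rfl⟩; exact bb_nonneg hL hM hLM d n⟩ n

lemma aa_nonneg (hL : ∀ x y, inner ℝ (L x) y = inner ℝ x (L y)) (hM : 0 < M)
    (hLM : ∀ x, ‖L x‖ ^ 2 ≤ M * ‖x‖ ^ 2) (d : H) : 0 ≤ aa L M d :=
  le_ciInf (bb_nonneg hL hM hLM d)

/-- `B^n d` converges to a vector `e` of the kernel of `L`, the projection of `d`. -/
lemma exists_proj (hL : ∀ x y, inner ℝ (L x) y = inner ℝ x (L y)) (hM : 0 < M)
    (hLM : ∀ x, ‖L x‖ ^ 2 ≤ M * ‖x‖ ^ 2) (d : H) :
    ∃ e : H, Tendsto (fun n => (BB L M ^ n) d) atTop (𝓝 e) ∧ L e = 0 ∧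
      inner ℝ e d = aa L M d ∧ ‖e‖ ^ 2 = aa L M d ∧
      ∀ h : H, L h = 0 → inner ℝ h d = inner ℝ h e := by
  have hb := bb_tendsto hL hM hLM d
  have hc : CauchySeq (fun n => (BB L M ^ n) d) := by
    apply cauchySeq_of_le_tendsto_0 (fun N => Real.sqrt (2 * (bb L M d (2 * N) - aa L M d)))
    · intro n m N hn hm
      rw [dist_eq_norm]
      apply Real.le_sqrt_of_sq_le
      rw [bb_dist hL]
      have h1 := bb_anti hL hM hLM d (by omega : 2 * N ≤ 2 * n)
      have h2 := bb_anti hL hM hLM d (by omega : 2 * N ≤ 2 * m)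
      have h3 := aa_le hL hM hLM d (n + m)
      linarith
    · have h2 : Tendsto (fun N : ℕ => bb L M d (2 * N)) atTop (𝓝 (aa L M d)) :=
        hb.comp (tendsto_id.const_mul_atTop' (by norm_num : (0:ℕ) < 2))
      have h3 : Tendsto (fun N : ℕ => Real.sqrt (2 * (bb L M d (2 * N) - aa L M d))) atTop
          (𝓝 (Real.sqrt (2 * (aa L M d - aa L M d)))) :=
        ((h2.sub_const _).const_mul 2).sqrt
      simpa using h3
  obtain ⟨e, he⟩ := cauchySeq_tendsto_of_complete hc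
  have hBe : BB L M e = e := by
    have h1 : Tendsto (fun n => BB L M ((BB L M ^ n) d)) atTop (𝓝 (BB L M e)) :=
      ((BB L M).continuous.tendsto e).comp he
    have h2 : Tendsto (fun n => (BB L M ^ (n + 1)) d) atTop (𝓝 e) :=
      (tendsto_add_atTop_iff_nat 1).2 he
    have h3 : (fun n => (BB L M ^ (n + 1)) d) = fun n => BB L M ((BB L M ^ n) d) := by
      funext n; rw [pow_succ', ContinuousLinearMap.mul_apply]
    rw [h3] at h2
    exact tendsto_nhds_unique h1 h2
  have hLe : L e = 0 := by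
    have h1 : L (L e) = 0 := by rw [LL_eq hM, hBe, sub_self, smul_zero]
    have h2 : inner ℝ (L e) (L e) = (0:ℝ) := by rw [hL, h1, inner_zero_right]
    exact inner_self_eq_zero.1 h2
  have hker : ∀ h : H, L h = 0 → ∀ n, (BB L M ^ n) h = h := by
    intro h hh n
    induction n with
    | zero => simp
    | succ n ih =>
      rw [pow_succ', ContinuousLinearMap.mul_apply, ih]
      simp [BB, hh]
  refine ⟨e, he, hLe, ?_, ?_, ?_⟩
  · exact tendsto_nhds_unique (he.inner tendsto_const_nhds) hb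
  · have h1 : Tendsto (fun n => inner ℝ ((BB L M ^ n) d) ((BB L M ^ n) d)) atTop
        (𝓝 (inner ℝ e e)) := he.inner he
    have h2 : (fun n => inner ℝ ((BB L M ^ n) d) ((BB L M ^ n) d)) =
        fun n : ℕ => bb L M d (2 * n) := by
      funext n
      unfold bb
      rw [← BB_pow_sym hL, ← ContinuousLinearMap.mul_apply, ← pow_add, two_mul]
    rw [h2, real_inner_self_eq_norm_sq] at h1
    exact tendsto_nhds_unique h1 (hb.comp (tendsto_id.const_mul_atTop' (by norm_num : (0:ℕ) < 2)))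
  · intro h hh
    have h1 : Tendsto (fun n => inner ℝ h ((BB L M ^ n) d)) atTop (𝓝 (inner ℝ h e)) :=
      tendsto_const_nhds.inner he
    have h2 : (fun n : ℕ => inner ℝ h ((BB L M ^ n) d)) = fun _ => inner ℝ h d := by
      funext n
      rw [← BB_pow_sym hL, hker h hh]
    rw [h2] at h1
    exact tendsto_nhds_unique tendsto_const_nhds h1

/-- Partial sums of `bb`. -/
noncomputable def ss (L : H →L[ℝ] H) (M : ℝ) (d : H) (n : ℕ) : ℝ :=
  (1 / M) * ∑ k ∈ range n, bb L M d k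

/-- `(1/M) ∑_{k<n} B^k d`. -/
noncomputable def sg (L : H →L[ℝ] H) (M : ℝ) (d : H) (n : ℕ) : H :=
  (1 / M) • ∑ k ∈ range n, (BB L M ^ k) d

lemma LL_sg (hM : 0 < M) (d : H) (n : ℕ) : L (L (sg L M d n)) = d - (BB L M ^ n) d := by
  rw [LL_eq hM]
  induction n with
  | zero => simp [sg]
  | succ n ih =>
    have h1 : sg L M d (n + 1) = sg L M d n + (1 / M) • (BB L M ^ n) d := by
      simp [sg, sum_range_succ, smul_add]
    have h2 : M • (sg L M d n + (1 / M) • (BB L M ^ n) d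
        - BB L M (sg L M d n + (1 / M) • (BB L M ^ n) d))
        = M • (sg L M d n - BB L M (sg L M d n)) + M • ((1 / M) • (BB L M ^ n) d
          - (1 / M) • BB L M ((BB L M ^ n) d)) := by
      rw [← smul_add, map_add, map_smul]
      congr 1
      abel
    rw [h1, h2, ih, ← smul_sub, smul_smul, mul_one_div_cancel hM.ne', one_smul, pow_succ',
      ContinuousLinearMap.mul_apply]
    abel

lemma ss_eq (d : H) (n : ℕ) : ss L M d n = inner ℝ (sg L M d n) d := by
  simp [ss, sg, bb, inner_smul_left, sum_inner]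

lemma ss_mono (hL : ∀ x y, inner ℝ (L x) y = inner ℝ x (L y)) (hM : 0 < M)
    (hLM : ∀ x, ‖L x‖ ^ 2 ≤ M * ‖x‖ ^ 2) (d : H) : Monotone (ss L M d) := by
  apply monotone_nat_of_le_succ
  intro n
  unfold ss
  rw [sum_range_succ, mul_add]
  have := bb_nonneg hL hM hLM d n
  have h2 : 0 ≤ (1 / M) * bb L M d n := by positivity
  linarith

lemma inner_sg (hL : ∀ x y, inner ℝ (L x) y = inner ℝ x (L y)) (d : H) (n m : ℕ) :
    inner ℝ (sg L M d n) ((BB L M ^ m) d) = (1 / M) * ∑ k ∈ range n, bb L M d (k + m) := by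
  unfold sg bb
  rw [inner_smul_left, sum_inner]
  simp only [RCLike.conj_to_real]
  congr 1
  apply sum_congr rfl
  intro k _
  rw [← BB_pow_sym hL, ← ContinuousLinearMap.mul_apply, ← pow_add, add_comm]

lemma norm_L_sg (hL : ∀ x y, inner ℝ (L x) y = inner ℝ x (L y)) (hM : 0 < M)
    (d : H) (n : ℕ) :
    ‖L (sg L M d n)‖ ^ 2 = ss L M d n - (1 / M) * ∑ k ∈ range n, bb L M d (k + n) := by
  rw [← real_inner_self_eq_norm_sq, hL, LL_sg hM, inner_sub_right, ← ss_eq, inner_sg hL]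

lemma norm_L_sg_le (hL : ∀ x y, inner ℝ (L x) y = inner ℝ x (L y)) (hM : 0 < M)
    (hLM : ∀ x, ‖L x‖ ^ 2 ≤ M * ‖x‖ ^ 2) (d : H) (n : ℕ) :
    ‖L (sg L M d n)‖ ^ 2 ≤ ss L M d n := by
  rw [norm_L_sg hL hM]
  have : 0 ≤ (1 / M) * ∑ k ∈ range n, bb L M d (k + n) := by
    apply mul_nonneg (by positivity)
    exact sum_nonneg fun k _ => bb_nonneg hL hM hLM d _
  linarith

/-- Any solution of `L h = d` bounds the partial sums. -/
lemma ss_le (hL : ∀ x y, inner ℝ (L x) y = inner ℝ x (L y)) (hM : 0 < M)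
    (hLM : ∀ x, ‖L x‖ ^ 2 ≤ M * ‖x‖ ^ 2) (d h : H) (hh : L h = d) (n : ℕ) :
    ss L M d n ≤ ‖h‖ ^ 2 := by
  have h1 : ss L M d n = inner ℝ (L (sg L M d n)) h := by
    rw [ss_eq, hL, hh]
  have h2 : ss L M d n ≤ ‖L (sg L M d n)‖ * ‖h‖ := by
    rw [h1]; exact real_inner_le_norm _ _
  have h3 := norm_L_sg_le hL hM hLM d n
  nlinarith [sq_nonneg (‖L (sg L M d n)‖ - ‖h‖), norm_nonneg h, norm_nonneg (L (sg L M d n))]

/-- If the partial sums are bounded, there is a solution of minimal norm. -/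
lemma exists_sol (hL : ∀ x y, inner ℝ (L x) y = inner ℝ x (L y)) (hM : 0 < M)
    (hLM : ∀ x, ‖L x‖ ^ 2 ≤ M * ‖x‖ ^ 2) (d : H) (hb : BddAbove (Set.range (ss L M d))) :
    ∃ h : H, L h = d ∧ Tendsto (ss L M d) atTop (𝓝 (‖h‖ ^ 2)) ∧
      Tendsto (fun n => inner ℝ (L (sg L M d n)) d) atTop (𝓝 (inner ℝ h d)) := by
  set S := ⨆ n, ss L M d n with hS
  have hs : Tendsto (ss L M d) atTop (𝓝 S) := tendsto_atTop_ciSup (ss_mono hL hM hLM d) hb
  have hsle : ∀ n, ss L M d n ≤ S := fun n => le_ciSup hb n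
  -- key estimate
  have hkey : ∀ m n, m ≤ n → ‖L (sg L M d n) - L (sg L M d m)‖ ^ 2 ≤ ss L M d n - ss L M d m := by
    intro m n hmn
    have e1 : sg L M d n - sg L M d m = (1 / M) • ∑ k ∈ Ico m n, (BB L M ^ k) d := by
      unfold sg
      rw [← smul_sub, sum_Ico_eq_sub _ hmn]
    have e2 : ∀ j, inner ℝ (sg L M d n - sg L M d m) ((BB L M ^ j) d)
        = (1 / M) * ∑ k ∈ Ico m n, bb L M d (k + j) := by
      intro j
      rw [e1, inner_smul_left, sum_inner]
      simp only [RCLike.conj_to_real]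
      congr 1
      apply sum_congr rfl
      intro k _
      unfold bb
      rw [← BB_pow_sym hL, ← ContinuousLinearMap.mul_apply, ← pow_add, add_comm]
    rw [← map_sub, ← real_inner_self_eq_norm_sq, hL, map_sub, map_sub, LL_sg hM, LL_sg hM]
    have e3 : d - (BB L M ^ n) d - (d - (BB L M ^ m) d) = (BB L M ^ m) d - (BB L M ^ n) d := by
      abel
    rw [e3, inner_sub_right, e2, e2]
    have e4 : ss L M d n - ss L M d m = (1 / M) * ∑ k ∈ Ico m n, bb L M d k := by
      unfold ss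
      rw [← mul_sub, sum_Ico_eq_sub _ hmn]
    rw [e4, ← mul_sub]
    apply mul_le_mul_of_nonneg_left _ (by positivity)
    rw [← sum_sub_distrib]
    apply sum_le_sum
    intro k _
    have h1 := bb_anti hL hM hLM d (by omega : k ≤ k + m)
    have h2 := bb_nonneg hL hM hLM d (k + n)
    linarith
  have hc : CauchySeq (fun n => L (sg L M d n)) := by
    apply cauchySeq_of_le_tendsto_0 (fun N => 2 * Real.sqrt (S - ss L M d N))
    · intro n m N hn hm
      have h1 : ∀ n, N ≤ n → ‖L (sg L M d n) - L (sg L M d N)‖ ≤ Real.sqrt (S - ss L M d N) := by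
        intro n hn
        apply Real.le_sqrt_of_sq_le
        have := hkey N n hn
        linarith [hsle n]
      rw [dist_eq_norm]
      calc ‖L (sg L M d n) - L (sg L M d m)‖
          = ‖(L (sg L M d n) - L (sg L M d N)) - (L (sg L M d m) - L (sg L M d N))‖ := by
            congr 1; abel
        _ ≤ ‖L (sg L M d n) - L (sg L M d N)‖ + ‖L (sg L M d m) - L (sg L M d N)‖ :=
            norm_sub_le _ _
        _ ≤ 2 * Real.sqrt (S - ss L M d N) := by linarith [h1 n hn, h1 m hm]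
    · have h3 : Tendsto (fun N : ℕ => 2 * Real.sqrt (S - ss L M d N)) atTop
          (𝓝 (2 * Real.sqrt (S - S))) := ((hs.const_sub S).sqrt).const_mul 2
      simpa using h3
  obtain ⟨h, hh⟩ := cauchySeq_tendsto_of_complete hc
  obtain ⟨e, he, _, _, he2, _⟩ := exists_proj hL hM hLM d
  -- a = 0
  have ha : aa L M d = 0 := by
    by_contra hne
    have hpos : 0 < aa L M d := lt_of_le_of_ne (aa_nonneg hL hM hLM d) (Ne.symm hne)
    obtain ⟨n, hn⟩ := exists_nat_gt (S * M / aa L M d)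
    have h1 : (n : ℝ) * aa L M d ≤ ∑ k ∈ range n, bb L M d k := by
      calc (n : ℝ) * aa L M d = ∑ k ∈ range n, aa L M d := by simp
        _ ≤ _ := sum_le_sum fun k _ => aa_le hL hM hLM d k
    have h2 := hsle n
    unfold ss at h2
    rw [div_mul_eq_mul_div, one_mul, div_le_iff₀ hM] at h2
    rw [div_lt_iff₀ hpos] at hn
    linarith
  have he0 : e = 0 := by
    rw [ha] at he2
    have := pow_eq_zero_iff (two_ne_zero) |>.1 he2
    exact norm_eq_zero.1 this
  have hLh : L h = d := by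
    have h1 : Tendsto (fun n => L (L (sg L M d n))) atTop (𝓝 (L h)) :=
      (L.continuous.tendsto h).comp hh
    have h2 : Tendsto (fun n => L (L (sg L M d n))) atTop (𝓝 (d - e)) := by
      simp_rw [LL_sg hM]
      exact he.const_sub d
    rw [tendsto_nhds_unique h1 h2, he0, sub_zero]
  refine ⟨h, hLh, ?_, ?_⟩
  · have h1 : Tendsto (fun n => ‖L (sg L M d n)‖ ^ 2) atTop (𝓝 (‖h‖ ^ 2)) := hh.norm.pow 2
    have h2 : ‖h‖ ^ 2 ≤ S := by
      apply le_of_tendsto h1
      filter_upwards with n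
      exact (norm_L_sg_le hL hM hLM d n).trans (hsle n)
    have h3 : S ≤ ‖h‖ ^ 2 := ciSup_le fun n => ss_le hL hM hLM d h hLh n
    rw [le_antisymm h2 h3]
    exact hs
  · exact hh.inner tendsto_const_nhds

end Spec

end Pool.Agent.Helper331_ugw
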