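import Pool.Agent.Helper331_ugw.Ops

set_option autoImplicit false
set_option linter.deprecated false
set_option linter.unusedSectionVars false

open Filter Topology Finset

namespace Pool.Agent.Helper331_ugw

/-- Words of the tree with offspring numbers `t`. -/
def Node (t : List ℕ → ℕ) (w : List ℕ) : Prop := ∀ j < w.length, w.getD j 0 < t (w.take j)

/-- The subtree above the child `i` of the root. -/
def sub (t : List ℕ → ℕ) (i : ℕ) : List ℕ → ℕ := fun w => t (i :: w)

@[simp] lemma node_nil (t : List ℕ → ℕ) : Node t [] := by simp [Node]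

lemma node_cons (t : List ℕ → ℕ) (i : ℕ) (w : List ℕ) :
    Node t (i :: w) ↔ i < t [] ∧ Node (sub t i) w := by
  constructor
  · intro h
    refine ⟨by simpa using h 0 (by simp), ?_⟩
    intro j hj
    have := h (j + 1) (by simpa using hj)
    simpa [sub] using this
  · rintro ⟨h1, h2⟩ j hj
    cases j with
    | zero => simpa using h1
    | succ j => simpa [sub] using h2 j (by simpa using hj)

lemma node_snoc (t : List ℕ → ℕ) (w : List ℕ) (j : ℕ) :
    Node t (w ++ [j]) ↔ Node t w ∧ j < t w := by
  induction w generalizing t with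
  | nil => simp [node_cons, sub]
  | cons i w ih =>
    rw [List.cons_append, node_cons, node_cons, ih]
    simp only [sub]
    tauto

/-- `List ℕ` is the root plus `ℕ` copies of itself. -/
def listEquiv : Option (ℕ × List ℕ) ≃ List ℕ where
  toFun o := match o with
    | none => []
    | some (i, w) => i :: w
  invFun w := match w with
    | [] => none
    | i :: w => some (i, w)
  left_inv o := by rcases o with _ | ⟨i, w⟩ <;> rfl
  right_inv w := by cases w <;> rfl

lemma tsum_list (F : List ℕ → ENNReal) :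
    ∑' w, F w = F [] + ∑' i, ∑' w, F (i :: w) := by
  classical
  have h0 : ∀ G : Option (ℕ × List ℕ) → ENNReal, ∑' o, G o = G none + ∑' p, G (some p) := by
    intro G
    rw [ENNReal.tsum_eq_add_tsum_ite none]
    congr 1
    rw [← (Option.some_injective (ℕ × List ℕ)).tsum_eq]
    · simp
    · intro o ho
      cases o with
      | none => simp at ho
      | some p => exact ⟨p, rfl⟩
  rw [← listEquiv.tsum_eq, h0, ENNReal.tsum_prod']
  rfl

/-- The squared norm as an extended nonnegative real. -/
noncomputable def nsq (f : Hs) : ENNReal := ENNReal.ofReal (‖f‖ ^ 2)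

lemma nsq_eq (f : Hs) : nsq f = ∑' w, ENNReal.ofReal (f w ^ 2) := by
  unfold nsq
  rw [Hs_norm_sq, ENNReal.ofReal_tsum_of_nonneg (fun w => sq_nonneg _) (Hs_summable f)]

/-- The component in the `i`-th subtree. -/
noncomputable abbrev cmp (i : ℕ) : Hs →L[ℝ] Hs := pull _ (cons_inj i)

lemma cmp_apply (i : ℕ) (f : Hs) (w : List ℕ) : cmp i f w = f (i :: w) := rfl

lemma nsq_decomp (f : Hs) : nsq f = ENNReal.ofReal (f [] ^ 2) + ∑' i, nsq (cmp i f) := by
  rw [nsq_eq, tsum_list]
  simp only [nsq_eq, cmp_apply]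

lemma nsq_decomp_fin (f : Hs) (k : ℕ) (h : ∀ i, k ≤ i → cmp i f = 0) :
    nsq f = ENNReal.ofReal (f [] ^ 2) + ∑ i ∈ range k, nsq (cmp i f) := by
  rw [nsq_decomp, tsum_eq_sum (s := range k)]
  intro i hi
  rw [h i (by simpa using hi)]
  simp [nsq]

lemma nsq_ge (f : Hs) (k : ℕ) :
    ENNReal.ofReal (f [] ^ 2) + ∑ i ∈ range k, nsq (cmp i f) ≤ nsq f := by
  rw [nsq_decomp]
  gcongr
  exact ENNReal.sum_le_tsum _

lemma Hs_ext (f g : Hs) (h0 : f [] = g []) (h : ∀ i, cmp i f = cmp i g) : f = g := by
  apply lp.ext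
  funext w
  cases w with
  | nil => exact h0
  | cons i w =>
    have := congrArg (fun u : Hs => u w) (h i)
    exact this

/-- The adjacency operator of the tree `t`. -/
noncomputable def AT (D : ℕ) (t : List ℕ → ℕ) : Hs →L[ℝ] Hs := AS D {w | Node t w}

lemma AT_sym (D : ℕ) (t : List ℕ → ℕ) (f g : Hs) :
    inner ℝ (AT D t f) g = inner ℝ f (AT D t g) := AS_sym _ _ _ _

lemma AS_apply (D : ℕ) (S : Set (List ℕ)) (f : Hs) (w : List ℕ) :
    (AS D S f) w = (proj S (AD D (proj S f))) w := rfl

open scoped Classical in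
lemma AT_apply (D : ℕ) (t : List ℕ → ℕ) (f : Hs) (w : List ℕ) :
    (AT D t f) w = if Node t w then (∑ j ∈ range D, if j < t w then f (w ++ [j]) else 0)
      + pa D (fun v => if Node t v then f v else 0) w else 0 := by
  unfold AT
  rw [AS_apply, proj_apply]
  by_cases h : Node t w
  · simp only [Set.mem_setOf_eq, h, if_true]
    rw [AD_apply]
    congr 1
    · apply sum_congr rfl
      intro j _
      rw [proj_apply]
      simp [node_snoc, h]
  · simp [h]

lemma AT_root (D : ℕ) (t : List ℕ → ℕ) (ht : t [] ≤ D) (f : Hs) :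
    (AT D t f) [] = ∑ i ∈ range (t []), f [i] := by
  classical
  rw [AT_apply, if_pos (node_nil t), pa_nil, add_zero, ← sum_filter]
  apply sum_congr _ (fun _ _ => by simp)
  ext j
  simp only [mem_filter, mem_range]
  omega

lemma cmp_AT (D : ℕ) (t : List ℕ → ℕ) (ht : t [] ≤ D) (f : Hs) (i : ℕ) (hi : i < t []) :
    cmp i (AT D t f) = AT D (sub t i) (cmp i f) + f [] • dl [] := by
  classical
  apply lp.ext
  funext w
  have e0 : (AT D (sub t i) (cmp i f) + f [] • dl [] : Hs) w
      = (AT D (sub t i) (cmp i f)) w + f [] * (dl [] : Hs) w := rfl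
  rw [e0, cmp_apply, AT_apply, AT_apply, dl_apply]
  have hiD : i < D := lt_of_lt_of_le hi ht
  rcases List.eq_nil_or_concat w with rfl | ⟨v, j, rfl⟩
  · have h1 : Node t [i] := by rw [node_cons]; exact ⟨hi, node_nil _⟩
    have h2 : pa D (fun v => if Node t v then f v else 0) [i] = f [] := by
      have := pa_snoc D (fun v => if Node t v then f v else 0) [] i
      simp only [List.nil_append] at this
      rw [this, if_pos hiD, if_pos (node_nil t)]
    rw [if_pos h1, h2, if_pos (node_nil _), pa_nil]
    simp only [sub, cmp_apply, add_left_inj, if_true, mul_one, add_zero]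
    rfl
  · rw [List.concat_eq_append]
    have e1 : Node t (i :: (v ++ [j])) ↔ Node (sub t i) (v ++ [j]) := by
      rw [node_cons]; simp [hi]
    have e2 : Node t (i :: v) ↔ Node (sub t i) v := by
      rw [node_cons]; simp [hi]
    have e3 : pa D (fun v => if Node t v then f v else 0) (i :: (v ++ [j]))
        = if j < D then (if Node t (i :: v) then f (i :: v) else 0) else 0 := by
      rw [← List.cons_append, pa_snoc]
    have e4 : (v ++ [j] : List ℕ) ≠ [] := by simp
    rw [e3, pa_snoc]
    simp only [e1, e2, if_neg e4, mul_zero, add_zero]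
    rfl

lemma cmp_AT_zero (D : ℕ) (t : List ℕ → ℕ) (f : Hs) (i : ℕ) (hi : t [] ≤ i) :
    cmp i (AT D t f) = 0 := by
  classical
  apply lp.ext
  funext w
  rw [cmp_apply, AT_apply, if_neg]
  · rfl
  · rw [node_cons]; omega

end Pool.Agent.Helper331_ugw
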