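import Pool.Agent.Helper331_ugw.Eigen
import Pool.Agent.Helper331_ugw.Meas

set_option autoImplicit false
set_option linter.deprecated false
set_option linter.unusedSectionVars false

open Filter Topology Finset MeasureTheory

namespace Pool.Agent.Helper331_ugw

/-- Walks of length `k` from the root to `u`. -/
def Wk (t : List ℕ → ℕ) (k : ℕ) (u : List ℕ) : Set (Fin (k + 1) → List ℕ) :=
  {f | f 0 = [] ∧ f (Fin.last k) = u ∧ (∀ i, Node t (f i)) ∧
    ∀ i : Fin k, (∃ a : ℕ, f i.succ = f i.castSucc ++ [a]) ∨
      (∃ a : ℕ, f i.castSucc = f i.succ ++ [a])}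

/-- The number of walks. -/
noncomputable def cnt (t : List ℕ → ℕ) (k : ℕ) (u : List ℕ) : ENNReal :=
  ∑' f : Fin (k + 1) → List ℕ, (Wk t k u).indicator 1 f

lemma Wk_succ (t : List ℕ → ℕ) (k : ℕ) (u x : List ℕ) (f : Fin (k + 1) → List ℕ) :
    Fin.snoc (α := fun _ => List ℕ) f x ∈ Wk t (k + 1) u ↔
      x = u ∧ Node t u ∧ adjw (f (Fin.last k)) u ∧ f ∈ Wk t k (f (Fin.last k)) := by
  unfold Wk adjw
  simp only [Set.mem_setOf_eq, Fin.snoc_last]
  have h0 : Fin.snoc (α := fun _ => List ℕ) f x 0 = f 0 := by
    exact Fin.snoc_castSucc (α := fun _ => List ℕ) x f 0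
  rw [h0]
  constructor
  · rintro ⟨h1, h2, h3, h4⟩
    refine ⟨h2, ?_, ?_, h1, trivial, ?_, ?_⟩
    · have := h3 (Fin.last (k + 1))
      rw [Fin.snoc_last, h2] at this
      exact this
    · have := h4 (Fin.last k)
      rw [Fin.succ_last, Fin.snoc_last, Fin.snoc_castSucc, h2] at this
      exact this
    · intro i
      have := h3 i.castSucc
      rwa [Fin.snoc_castSucc] at this
    · intro i
      have := h4 i.castSucc
      rw [← Fin.castSucc_succ, Fin.snoc_castSucc, Fin.snoc_castSucc] at this
      exact this
  · rintro ⟨rfl, h2, h3, h1, _, h4, h5⟩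
    refine ⟨h1, rfl, ?_, ?_⟩
    · intro i
      refine Fin.lastCases ?_ ?_ i
      · rw [Fin.snoc_last]; exact h2
      · intro j; rw [Fin.snoc_castSucc]; exact h4 j
    · intro i
      refine Fin.lastCases ?_ ?_ i
      · rw [Fin.succ_last, Fin.snoc_last, Fin.snoc_castSucc]; exact h3
      · intro j
        rw [← Fin.castSucc_succ, Fin.snoc_castSucc, Fin.snoc_castSucc]
        exact h5 j

open scoped Classical in
lemma cnt_succ (t : List ℕ → ℕ) (k : ℕ) (u : List ℕ) :
    cnt t (k + 1) u = if Node t u then ∑' v, (if adjw v u then cnt t k v else 0) else 0 := by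
  unfold cnt
  rw [← (Fin.snocEquiv (fun _ : Fin (k + 2) => List ℕ)).tsum_eq, ENNReal.tsum_prod']
  have h1 : ∀ (x : List ℕ) (f : Fin (k + 1) → List ℕ),
      (Wk t (k + 1) u).indicator (fun _ => (1:ENNReal))
        ((Fin.snocEquiv (fun _ : Fin (k + 2) => List ℕ)) (x, f))
      = if x = u ∧ Node t u ∧ adjw (f (Fin.last k)) u ∧ f ∈ Wk t k (f (Fin.last k)) then 1
        else 0 := by
    intro x f
    rw [Set.indicator_apply]
    have : (Fin.snocEquiv (fun _ : Fin (k + 2) => List ℕ)) (x, f) =
        Fin.snoc (α := fun _ => List ℕ) f x := rfl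
    rw [this]
    simp only [Wk_succ]
  have h1' : ∀ (x : List ℕ) (f : Fin (k + 1) → List ℕ),
      (Wk t (k + 1) u).indicator 1
        ((Fin.snocEquiv (fun _ : Fin (k + 2) => List ℕ)) (x, f))
      = if x = u ∧ Node t u ∧ adjw (f (Fin.last k)) u ∧ f ∈ Wk t k (f (Fin.last k)) then
        (1 : ENNReal) else 0 := h1
  simp only [h1']
  rw [tsum_eq_single u]
  · by_cases hN : Node t u
    · simp only [hN, true_and, if_true]
      have h2 : ∀ v, (if adjw v u then ∑' f : Fin (k + 1) → List ℕ,
          (Wk t k v).indicator (1 : (Fin (k + 1) → List ℕ) → ENNReal) f else 0)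
          = ∑' f : Fin (k + 1) → List ℕ,
            if adjw v u then (Wk t k v).indicator (1 : (Fin (k + 1) → List ℕ) → ENNReal) f
              else 0 := by
        intro v
        split_ifs
        · rfl
        · simp
      simp only [h2]
      rw [ENNReal.tsum_comm]
      apply tsum_congr
      intro f
      rw [tsum_eq_single (f (Fin.last k))]
      · by_cases h3 : adjw (f (Fin.last k)) u
        · simp only [h3, true_and, if_true]
          rw [Set.indicator_apply]
          rfl
        · simp [h3]
      · intro v hv
        split_ifs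
        · apply Set.indicator_of_notMem
          intro h
          exact hv h.2.1.symm
        · rfl
    · simp [hN]
  · intro x hx
    simp [hx]

lemma Wk_empty (t : List ℕ → ℕ) (k : ℕ) (u : List ℕ) (h : ¬ Node t u) : Wk t k u = ∅ := by
  ext f
  simp only [Set.mem_empty_iff_false, iff_false]
  rintro ⟨_, h2, h3, _⟩
  apply h
  rw [← h2]
  exact h3 _

lemma cnt_not (t : List ℕ → ℕ) (k : ℕ) (u : List ℕ) (h : ¬ Node t u) : cnt t k u = 0 := by
  unfold cnt
  rw [Wk_empty t k u h]
  simp

open scoped Classical in
lemma tsum_adjw (u : List ℕ) (c : List ℕ → ENNReal) :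
    ∑' v, (if adjw v u then c v else 0)
      = ∑' j, c (u ++ [j]) + (if u = [] then 0 else c u.dropLast) := by
  have h1 : ∀ v, (if adjw v u then c v else 0)
      = (if ∃ j, v = u ++ [j] then c v else 0) +
        (if u ≠ [] ∧ v = u.dropLast then c v else 0) := by
    intro v
    unfold adjw
    by_cases h2 : ∃ j, v = u ++ [j]
    · have h3 : ¬ (u ≠ [] ∧ v = u.dropLast) := by
        rintro ⟨_, h4⟩
        obtain ⟨j, rfl⟩ := h2
        have := congrArg List.length h4
        simp at this
        omega
      rw [if_pos (Or.inr h2), if_pos h2, if_neg h3, add_zero]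
    · by_cases h3 : ∃ j, u = v ++ [j]
      · obtain ⟨j, rfl⟩ := h3
        rw [if_pos (Or.inl ⟨j, rfl⟩), if_neg h2, if_pos (by simp), zero_add]
      · rw [if_neg (by tauto), if_neg h2, if_neg, add_zero]
        rintro ⟨h4, rfl⟩
        apply h3
        exact ⟨u.getLast h4, (List.dropLast_append_getLast h4).symm⟩
  simp only [h1]
  rw [ENNReal.tsum_add]
  congr 1
  · have hinj : Function.Injective (fun j : ℕ => u ++ [j]) := by
      intro a b h; simpa using h
    have h2 := hinj.tsum_eq (f := fun v => if ∃ j, v = u ++ [j] then c v else 0) (by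
      intro v hv
      rw [Function.mem_support] at hv
      by_contra hcon
      apply hv
      rw [if_neg]
      rintro ⟨j, rfl⟩
      exact hcon ⟨j, rfl⟩)
    rw [← h2]
    apply tsum_congr
    intro j
    rw [if_pos ⟨j, rfl⟩]
  · by_cases hu : u = []
    · simp [hu]
    · simp only [ne_eq, hu, not_false_eq_true, true_and, if_false]
      rw [tsum_eq_single u.dropLast]
      · simp
      · intro v hv
        rw [if_neg hv]

lemma pa_nonneg (D : ℕ) (g : List ℕ → ℝ) (hg : ∀ v, 0 ≤ g v) (w : List ℕ) : 0 ≤ pa D g w := by
  unfold pa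
  split_ifs
  · exact le_refl _
  · exact hg _
  · exact le_refl _

lemma AT_pow_nonneg (D : ℕ) (t : List ℕ → ℕ) (k : ℕ) (w : List ℕ) :
    0 ≤ ((AT D t ^ k) (dl [])) w := by
  classical
  induction k generalizing w with
  | zero =>
    rw [pow_zero, ContinuousLinearMap.one_apply, dl_apply]
    split_ifs <;> norm_num
  | succ k ih =>
    rw [pow_succ', ContinuousLinearMap.mul_apply, AT_apply]
    split_ifs
    · apply add_nonneg
      · apply Finset.sum_nonneg
        intro j _
        split_ifs
        · exact ih _
        · exact le_refl _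
      · apply pa_nonneg
        intro v
        split_ifs
        · exact ih _
        · exact le_refl _
    · exact le_refl _

/-- The number of walks is given by powers of the adjacency operator. -/
theorem cnt_eq {D : ℕ} {t : List ℕ → ℕ} (ht : Bdd D t) (k : ℕ) (u : List ℕ) :
    cnt t k u = ENNReal.ofReal (((AT D t ^ k) (dl [])) u) := by
  classical
  induction k generalizing u with
  | zero =>
    rw [pow_zero, ContinuousLinearMap.one_apply, dl_apply]
    unfold cnt
    by_cases hu : u = []
    · subst hu
      rw [if_pos rfl, ENNReal.ofReal_one, tsum_eq_single (fun _ => [])]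
      · rw [Set.indicator_of_mem, Pi.one_apply]
        exact ⟨rfl, rfl, fun i => node_nil t, fun i => i.elim0⟩
      · intro f hf
        apply Set.indicator_of_notMem
        rintro ⟨h1, _, _, _⟩
        apply hf
        funext i
        have : i = 0 := Fin.fin_one_eq_zero i
        rw [this, h1]
    · rw [if_neg hu, ENNReal.ofReal_zero, ENNReal.tsum_eq_zero]
      intro f
      apply Set.indicator_of_notMem
      rintro ⟨h1, h2, _, _⟩
      apply hu
      rw [← h2, ← h1]
      rfl
  | succ k ih =>
    rw [cnt_succ, pow_succ', ContinuousLinearMap.mul_apply, AT_apply]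
    split_ifs with hN
    · rw [tsum_adjw]
      have hpos := AT_pow_nonneg D t k
      rw [ENNReal.ofReal_add]
      · congr 1
        · rw [ENNReal.ofReal_sum_of_nonneg]
          · rw [tsum_eq_sum (s := range D)]
            · apply Finset.sum_congr rfl
              intro j _
              split_ifs with hj
              · exact ih _
              · rw [ENNReal.ofReal_zero]
                apply cnt_not
                rw [node_snoc]
                exact fun h => hj h.2
            · intro j hj
              apply cnt_not
              rw [node_snoc]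
              intro h
              apply hj
              rw [mem_range]
              exact lt_of_lt_of_le h.2 (ht u)
          · intro j _
            split_ifs
            · exact hpos _
            · exact le_refl _
        · rcases List.eq_nil_or_concat u with rfl | ⟨v, j, rfl⟩
          · simp
          · rw [List.concat_eq_append] at hN ⊢
            rw [pa_snoc]
            rw [node_snoc] at hN
            rw [if_pos (lt_of_lt_of_le hN.2 (ht v)), if_pos hN.1, if_neg (by simp),
              List.dropLast_concat]
            exact ih v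
      · apply Finset.sum_nonneg
        intro j _
        split_ifs
        · exact hpos _
        · exact le_refl _
      · apply pa_nonneg
        intro v
        split_ifs
        · exact hpos _
        · exact le_refl _
    · simp

/-- The `ncard` form. -/
theorem ncard_eq {D : ℕ} {t : List ℕ → ℕ} (ht : Bdd D t) (k : ℕ) (u : List ℕ) :
    ((Wk t k u).ncard : ℝ) = ((AT D t ^ k) (dl [])) u := by
  classical
  have h1 := cnt_eq ht k u
  have h2 : cnt t k u = ∑' f : Wk t k u, (1 : ENNReal) := by
    unfold cnt
    rw [tsum_subtype (Wk t k u) (fun _ => (1 : ENNReal))]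
    rfl
  have hfin : (Wk t k u).Finite := by
    by_contra hinf
    have : Infinite (Wk t k u) := Set.infinite_coe_iff.2 hinf
    rw [ENNReal.tsum_const_eq_top_of_ne_zero one_ne_zero] at h2
    rw [h2] at h1
    exact ENNReal.ofReal_ne_top h1.symm
  have h3 : cnt t k u = ((Wk t k u).ncard : ENNReal) := by
    rw [Set.ncard_eq_toFinset_card _ hfin]
    unfold cnt
    rw [tsum_eq_sum (s := hfin.toFinset)]
    · rw [Finset.sum_congr rfl (g := fun _ => (1 : ENNReal))]
      · simp
      · intro f hf
        rw [Set.Finite.mem_toFinset] at hf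
        rw [Set.indicator_of_mem hf, Pi.one_apply]
    · intro f hf
      rw [Set.Finite.mem_toFinset] at hf
      exact Set.indicator_of_notMem hf _
  rw [h3] at h1
  have h4 := congrArg ENNReal.toReal h1
  rw [ENNReal.toReal_ofReal (AT_pow_nonneg D t k u)] at h4
  simpa using h4

end Pool.Agent.Helper331_ugw
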